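import Pool.Agent.Lib.MP_72e2e6_nt.Sm.N.SpecC

namespace Pool.Agent.Lib.MP_72e2e6_nt.Sm.Cnt

open Finset

/-- The last part of the proof of `coding`. -/
private theorem cod2_fin {ι : Type} [Fintype ι] {M : ℕ} {β 𝒜 T1 T2 V : Type} [Fintype β]
    [Fintype 𝒜] [Fintype T1] [Fintype T2] [Fintype V] {C0 : ℕ} (C : CodingData ι M β 𝒜 T1 T2 V C0)
    (ε N E : ℝ) (hN : N = (M : ℝ) ^ Fintype.card ι) (hE : E = ε / 2 * N) (hE0 : 0 ≤ E)
    (Bad : Finset β)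
    (hB : ∀ b, b ∉ Bad → ¬ (E ≤ (#(C.Z b) : ℝ) ∧ 15 * #(C.Z b) ≤ 16 * #(C.Y b)))
    (hbad2 : (#Bad : ℝ) ≤ ε / 2 * Fintype.card β) :
    ∑ b, (#(C.Y b) : ℝ) ≤ 15 / 16 * ∑ b, (#(C.Z b) : ℝ) + ε * N * Fintype.card β := by
  classical
  have hN0 : 0 ≤ N := by rw [hN]; positivity
  have hY1 : ∀ b, (#(C.Y b) : ℝ) ≤ N := by
    intro b
    have h1 : #(C.Y b) ≤ M ^ Fintype.card ι := by
      refine (card_le_univ _).trans ?_
      simp
    rw [hN]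
    exact_mod_cast h1
  have hY2 : ∀ b, b ∉ Bad → (#(C.Y b) : ℝ) ≤ 15 / 16 * (#(C.Z b) : ℝ) + E := by
    intro b hb
    have hb' := hB b hb
    have hYZ : (#(C.Y b) : ℝ) ≤ #(C.Z b) := by exact_mod_cast card_le_card (C.hYZ b)
    by_cases h : E ≤ (#(C.Z b) : ℝ)
    · have h1 : ¬ 15 * #(C.Z b) ≤ 16 * #(C.Y b) := fun h' => hb' ⟨h, h'⟩
      push Not at h1
      have h2 : (16 : ℝ) * #(C.Y b) < 15 * #(C.Z b) := by exact_mod_cast h1
      linarith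
    · push Not at h
      have h3 : (0 : ℝ) ≤ #(C.Z b) := by positivity
      linarith
  have hY3 : ∀ b, (#(C.Y b) : ℝ) ≤ 15 / 16 * (#(C.Z b) : ℝ) + E + (if b ∈ Bad then N else 0) := by
    intro b
    by_cases hb : b ∈ Bad
    · rw [if_pos hb]
      have h3 : (0 : ℝ) ≤ #(C.Z b) := by positivity
      have := hY1 b
      linarith
    · rw [if_neg hb, add_zero]
      exact hY2 b hb
  calc ∑ b, (#(C.Y b) : ℝ) ≤ ∑ b, (15 / 16 * (#(C.Z b) : ℝ) + E + (if b ∈ Bad then N else 0)) :=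
        sum_le_sum fun b _ => hY3 b
    _ = 15 / 16 * ∑ b, (#(C.Z b) : ℝ) + Fintype.card β * E + #Bad * N := by
        rw [sum_add_distrib, sum_add_distrib, ← mul_sum]
        simp
    _ ≤ 15 / 16 * ∑ b, (#(C.Z b) : ℝ) + Fintype.card β * E + (ε / 2 * Fintype.card β) * N := by
        gcongr
    _ = _ := by rw [hE]; ring

private theorem cod2_exp {δ N : ℝ} (hδ : 0 ≤ δ) (n : ℕ) (hn : (n : ℝ) = N) :
    (1 + δ) ^ n ≤ (2 : ℝ) ^ (2 * δ * N) := by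
  have h1 : 1 + δ ≤ Real.exp δ := by linarith [Real.add_one_le_exp δ]
  have h2 : Real.exp 1 ≤ (2 : ℝ) ^ (2 : ℝ) := by
    have := Real.exp_one_lt_d9
    have h3 : (2 : ℝ) ^ (2 : ℝ) = 4 := by
      rw [show (2 : ℝ) = ((2 : ℕ) : ℝ) from rfl, Real.rpow_natCast]
      norm_num
    rw [h3]
    linarith
  have h4 : Real.exp δ ≤ (2 : ℝ) ^ (2 * δ) := by
    calc Real.exp δ = (Real.exp 1) ^ δ := by rw [← Real.exp_mul, one_mul]
      _ ≤ ((2 : ℝ) ^ (2 : ℝ)) ^ δ := Real.rpow_le_rpow (Real.exp_pos _).le h2 hδ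
      _ = (2 : ℝ) ^ (2 * δ) := by rw [← Real.rpow_mul (by norm_num)]
  calc (1 + δ) ^ n ≤ ((2 : ℝ) ^ (2 * δ)) ^ n :=
        pow_le_pow_left₀ (by linarith) (h1.trans h4) n
    _ = (2 : ℝ) ^ (2 * δ * N) := by
        rw [← Real.rpow_natCast, ← Real.rpow_mul (by norm_num), hn]

theorem tCod2 (h1 : S_Cst) : S_Cod2 := by
  classical
  intro K t e hK
  refine ⟨2 ^ K * (e + 4), 5 + 128 * t + (e + 1), fun L hL => ?_⟩
  have hLpos : 0 < L := by omega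
  have hMpos : 0 < L ^ (2 ^ K * (e + 4)) := pow_pos hLpos _
  refine ⟨hMpos, ?_⟩
  obtain ⟨M, hM⟩ : ∃ M : ℕ, M = L ^ (2 ^ K * (e + 4)) := ⟨_, rfl⟩
  rw [← hM] at hMpos ⊢
  intro ι _ β 𝒜 T1 T2 V _ _ _ _ _ C0 C hι hC0 hT1 hT2 hV
  have hLr5 : (5 : ℝ) ≤ L := by
    have : 5 ≤ L := by omega
    exact_mod_cast this
  have hLr1 : (1 : ℝ) ≤ L := by linarith
  have hLr0 : (0 : ℝ) < L := by linarith
  have hMr : (1 : ℝ) ≤ M := by exact_mod_cast hMpos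
  have hMr0 : (0 : ℝ) < M := by linarith
  -- the constant
  have hc : cst M K ≤ 2 * (1 / (L : ℝ) ^ (e + 4)) := by
    have h2 := h1 M K hMpos
    have h3 : (M : ℝ) ^ (-(1 / 2 ^ K : ℝ)) = 1 / (L : ℝ) ^ (e + 4) := by
      have h31 : (M : ℝ) = (L : ℝ) ^ ((2 ^ K * (e + 4) : ℕ) : ℝ) := by
        rw [Real.rpow_natCast, hM]
        push_cast
        rfl
      have h32 : ((2 ^ K * (e + 4) : ℕ) : ℝ) * (-(1 / 2 ^ K : ℝ)) = -((e + 4 : ℕ) : ℝ) := by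
        push_cast
        field_simp
      rw [h31, ← Real.rpow_mul hLr0.le, h32, Real.rpow_neg hLr0.le, Real.rpow_natCast, one_div]
    rwa [h3] at h2
  set c : ℝ := cst M K with hcdef
  have hc0 : 0 ≤ c := cst_nonneg _ _
  set ε : ℝ := 1 / (L : ℝ) ^ e with hε
  have hε0 : 0 < ε := by positivity
  set δ : ℝ := 1 / (L : ℝ) ^ (e + 1) with hδ
  have hδ0 : 0 < δ := by positivity
  have hδ1 : δ ≤ 1 := by
    rw [hδ, div_le_one (by positivity)]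
    exact one_le_pow₀ hLr1
  have hδε : δ * L = ε := by
    rw [hδ, hε, pow_succ]
    field_simp
  have hLδ : 1 / (L : ℝ) ^ (e + 4) * (L : ℝ) ^ 3 = δ := by
    rw [hδ, show e + 4 = (e + 1) + 3 by ring, pow_add]
    field_simp
  set N : ℝ := (M : ℝ) ^ K with hN
  have hN0 : 0 < N := by positivity
  have hNM : (M : ℝ) ≤ N := by
    calc (M : ℝ) = (M : ℝ) ^ 1 := (pow_one _).symm
      _ ≤ N := pow_le_pow_right₀ hMr hK
  -- `L ^ (e + 1) ≤ 2 ^ (L ^ 2)`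
  have hLe : (L : ℝ) ^ (e + 1) ≤ 2 ^ (L ^ 2) := by
    have h4 : L ^ (e + 1) ≤ 2 ^ (L ^ 2) := by
      calc L ^ (e + 1) ≤ (2 ^ L) ^ (e + 1) := Nat.pow_le_pow_left Nat.lt_two_pow_self.le _
        _ = 2 ^ (L * (e + 1)) := (pow_mul _ _ _).symm
        _ ≤ 2 ^ (L ^ 2) := by
          apply Nat.pow_le_pow_right (by norm_num)
          rw [pow_two]
          exact Nat.mul_le_mul_left _ (by omega)
    exact_mod_cast h4
  have hc2 : (L : ℝ) ^ 2 * c ≤ 2 * δ := by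
    have h5 : (L : ℝ) ^ 2 * c ≤ (L : ℝ) ^ 3 * (2 * (1 / (L : ℝ) ^ (e + 4))) := by
      have : (L : ℝ) ^ 2 ≤ (L : ℝ) ^ 3 := pow_le_pow_right₀ hLr1 (by norm_num)
      gcongr
    calc (L : ℝ) ^ 2 * c ≤ (L : ℝ) ^ 3 * (2 * (1 / (L : ℝ) ^ (e + 4))) := h5
      _ = 2 * (1 / (L : ℝ) ^ (e + 4) * (L : ℝ) ^ 3) := by ring
      _ = 2 * δ := by rw [hLδ]
  have hc3 : c ≤ 2 * δ := by
    have : (1 : ℝ) ≤ (L : ℝ) ^ 2 := one_le_pow₀ hLr1
    nlinarith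
  -- `x` and `u`
  set n : ℕ := 2 ^ (L ^ 2) with hn
  have hnr : (n : ℝ) = 2 ^ (L ^ 2) := by rw [hn]; push_cast; rfl
  have hn0 : (0 : ℝ) < n := by rw [hnr]; positivity
  set x : ℝ := δ / n with hx
  have hx0 : 0 < x := div_pos hδ0 hn0
  have hx1 : x ≤ 1 := by
    rw [hx, div_le_one hn0, hnr]
    have : (1 : ℝ) ≤ 2 ^ (L ^ 2) := one_le_pow₀ (by norm_num)
    linarith
  have hxinv : x⁻¹ ≤ (2 : ℝ) ^ (2 * (L : ℝ) ^ 2) := by
    have h6 : x⁻¹ = n * (L : ℝ) ^ (e + 1) := by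
      rw [hx, hδ]
      field_simp
    rw [h6, hnr]
    calc (2 : ℝ) ^ (L ^ 2) * (L : ℝ) ^ (e + 1) ≤ (2 : ℝ) ^ (L ^ 2) * 2 ^ (L ^ 2) := by gcongr
      _ = (2 : ℝ) ^ (2 * (L : ℝ) ^ 2) := by
        rw [← pow_add, ← Real.rpow_natCast]
        congr 1
        push_cast
        ring
  set u : ℝ := (2 : ℝ) ^ (6 * δ * N) with hu
  have hu1 : 1 ≤ u := Real.one_le_rpow (by norm_num) (by positivity)
  have hcard : ((M ^ K : ℕ) : ℝ) = N := by rw [hN]; push_cast; rfl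
  have hxu : x ^ (-(c * (M : ℝ) ^ K)) * (1 + (n : ℝ) * x) ^ (M ^ K) ≤ u := by
    have h7 : (n : ℝ) * x = δ := by rw [hx]; field_simp
    have h8 : x ^ (-(c * N)) ≤ (2 : ℝ) ^ (4 * δ * N) := by
      rw [Real.rpow_neg hx0.le, ← Real.inv_rpow hx0.le]
      calc x⁻¹ ^ (c * N) ≤ ((2 : ℝ) ^ (2 * (L : ℝ) ^ 2)) ^ (c * N) :=
            Real.rpow_le_rpow (inv_pos.2 hx0).le hxinv (by positivity)
        _ = (2 : ℝ) ^ (2 * (L : ℝ) ^ 2 * (c * N)) := by rw [← Real.rpow_mul (by norm_num)]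
        _ ≤ (2 : ℝ) ^ (4 * δ * N) := by
          apply Real.rpow_le_rpow_of_exponent_le (by norm_num)
          nlinarith
    have h9 := cod2_exp hδ0.le (M ^ K) hcard
    rw [h7, ← hN]
    calc x ^ (-(c * N)) * (1 + δ) ^ (M ^ K)
        ≤ (2 : ℝ) ^ (4 * δ * N) * (2 : ℝ) ^ (2 * δ * N) := by gcongr
      _ = u := by
        rw [hu, ← Real.rpow_add (by norm_num)]
        congr 1
        ring
  set E : ℝ := ε / 2 * N with hE
  let Bad : Finset β := univ.filter fun b => E ≤ (#(C.Z b) : ℝ) ∧ 15 * #(C.Z b) ≤ 16 * #(C.Y b)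
  have hnn : 1 ≤ n := Nat.one_le_two_pow
  have hbad := bad_bound C hMpos n t t u E hu1 hT1 hT2 hnn hV
    x hx0 hx1 (by rw [hι]; exact hxu) Bad (fun b hb => (mem_filter.mp hb).2)
  rw [hι] at hbad
  -- the bad set is small
  have hexp1 : (t : ℝ) * (c * N) - 7 / 16 * E + 6 * δ * N * t + 6 * δ * N * t ≤
      -(7 / 64 * ε * N) := by
    have h10 : 14 * (t : ℝ) * δ ≤ 7 / 64 * ε := by
      have h11 : 128 * (t : ℝ) ≤ L := by
        have : 128 * t ≤ L := by omega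
        exact_mod_cast this
      rw [← hδε]
      nlinarith
    have h12 : (t : ℝ) * (c * N) ≤ t * (2 * δ * N) := by gcongr
    have h13 : 14 * (t : ℝ) * δ * N ≤ 7 / 64 * ε * N := by gcongr
    rw [hE]
    linarith
  have hεN : (L : ℝ) ^ 4 ≤ ε * N := by
    have h14 : (L : ℝ) ^ (e + 4) ≤ N := by
      refine le_trans ?_ hNM
      rw [hM]
      push_cast
      apply pow_le_pow_right₀ hLr1
      exact Nat.le_mul_of_pos_left _ (by positivity)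
    calc (L : ℝ) ^ 4 = ε * (L : ℝ) ^ (e + 4) := by
          rw [hε, pow_add]
          field_simp
      _ ≤ ε * N := by gcongr
  have hexp2 : (L : ℝ) ^ 2 - 7 / 64 * ε * N ≤ -((L : ℝ) ^ 2) - 1 := by
    have h15 : (25 : ℝ) ≤ (L : ℝ) ^ 2 := by nlinarith
    have h16 : (L : ℝ) ^ 4 = (L : ℝ) ^ 2 * (L : ℝ) ^ 2 := by ring
    have h17 : 25 * (L : ℝ) ^ 2 ≤ (L : ℝ) ^ 2 * (L : ℝ) ^ 2 :=
      mul_le_mul_of_nonneg_right h15 (by positivity)
    linarith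
  have hbad2 : (#Bad : ℝ) ≤ ε / 2 * Fintype.card β := by
    refine hbad.trans ?_
    have h2 : u ^ t = (2 : ℝ) ^ (6 * δ * N * t) := by
      rw [hu, ← Real.rpow_natCast, ← Real.rpow_mul (by norm_num)]
    have h4 : (2 : ℝ) ^ ((t : ℝ) * (c * (M : ℝ) ^ K) - 7 / 16 * E) * u ^ t * u ^ t ≤
        (2 : ℝ) ^ (-(7 / 64 * ε * N)) := by
      rw [h2, ← hN, ← Real.rpow_add (by norm_num), ← Real.rpow_add (by norm_num)]
      exact Real.rpow_le_rpow_of_exponent_le (by norm_num) hexp1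
    have hCr : (C0 : ℝ) ≤ (2 : ℝ) ^ ((L : ℝ) ^ 2) := by
      have h17 : (C0 : ℝ) ≤ (2 : ℝ) ^ (L ^ 2) := by exact_mod_cast hC0
      rwa [← Real.rpow_natCast, Nat.cast_pow] at h17
    have h18 : (2 : ℝ) ^ ((L : ℝ) ^ 2) * (2 : ℝ) ^ (-(7 / 64 * ε * N)) ≤ ε / 2 := by
      calc (2 : ℝ) ^ ((L : ℝ) ^ 2) * (2 : ℝ) ^ (-(7 / 64 * ε * N))
          = (2 : ℝ) ^ ((L : ℝ) ^ 2 - 7 / 64 * ε * N) := by
            rw [← Real.rpow_add (by norm_num)]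
            congr 1
        _ ≤ (2 : ℝ) ^ (-((L : ℝ) ^ 2) - 1) :=
            Real.rpow_le_rpow_of_exponent_le (by norm_num) hexp2
        _ = ((2 : ℝ) ^ (L ^ 2))⁻¹ / 2 := by
            rw [Real.rpow_sub (by norm_num), Real.rpow_neg (by norm_num), Real.rpow_one,
              ← Nat.cast_pow, Real.rpow_natCast]
        _ ≤ ε / 2 := by
            have h19 : (L : ℝ) ^ e ≤ 2 ^ (L ^ 2) :=
              (pow_le_pow_right₀ hLr1 (Nat.le_succ e)).trans hLe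
            have h20 : ((2 : ℝ) ^ (L ^ 2))⁻¹ ≤ ε := by
              rw [hε, one_div]
              exact inv_anti₀ (by positivity) h19
            gcongr
    calc (C0 : ℝ) * Fintype.card β * ((2 : ℝ) ^ ((t : ℝ) * (c * (M : ℝ) ^ K) - 7 / 16 * E) *
          u ^ t * u ^ t) ≤ (2 : ℝ) ^ ((L : ℝ) ^ 2) * Fintype.card β *
            (2 : ℝ) ^ (-(7 / 64 * ε * N)) := by
          gcongr
      _ = ((2 : ℝ) ^ ((L : ℝ) ^ 2) * (2 : ℝ) ^ (-(7 / 64 * ε * N))) * Fintype.card β := by ring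
      _ ≤ ε / 2 * Fintype.card β := by gcongr
  have hfin := cod2_fin C ε N E (by rw [hN, hι]) hE (by positivity) Bad
    (fun b hb h => hb (mem_filter.mpr ⟨mem_univ _, h⟩)) hbad2
  exact hfin

end Pool.Agent.Lib.MP_72e2e6_nt.Sm.Cnt
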