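import Pool.Agent.Lib.MP_72e2e6_nt.Sm.N.SpecC

namespace Pool.Agent.Lib.MP_72e2e6_nt.Sm.Cnt

open Finset

theorem tCst : S_Cst := by
  intro M n hM
  have hM1 : (1 : ℝ) ≤ M := by exact_mod_cast hM
  have hM0 : (0 : ℝ) < M := by linarith
  induction n with
  | zero =>
    have : cst M 0 = 0 := rfl
    rw [this]
    positivity
  | succ n ih =>
    have h1 : cst M (n + 1) = Real.sqrt (1 / M + cst M n) := rfl
    set a : ℝ := (M : ℝ) ^ (-(1 / 2 ^ n : ℝ)) with ha
    set b : ℝ := (M : ℝ) ^ (-(1 / 2 ^ (n + 1) : ℝ)) with hb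
    have hb0 : 0 < b := Real.rpow_pos_of_pos hM0 _
    have hab : b ^ 2 = a := by
      rw [ha, hb, ← Real.rpow_natCast, ← Real.rpow_mul hM0.le]
      congr 1
      rw [pow_succ]
      push_cast
      field_simp
    have h2 : 1 / (M : ℝ) ≤ a := by
      rw [one_div, ← Real.rpow_neg_one, ha]
      apply Real.rpow_le_rpow_of_exponent_le hM1
      rw [neg_le_neg_iff, div_le_one (by positivity)]
      exact one_le_pow₀ (by norm_num)
    rw [h1]
    refine Real.sqrt_le_iff.2 ⟨by positivity, ?_⟩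
    calc 1 / (M : ℝ) + cst M n ≤ a + 2 * a := add_le_add h2 ih
      _ = 3 * b ^ 2 := by rw [hab]; ring
      _ ≤ (2 * b) ^ 2 := by nlinarith [sq_nonneg b]

end Pool.Agent.Lib.MP_72e2e6_nt.Sm.Cnt
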