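import Pool.Agent.Lib.MP_72e2e6_nt.Sm.N.SpecF

/-!
# MP_72e2e6_nt, `Sm/N`, module `FNum`: the numerical estimates
-/

set_option autoImplicit false

namespace Pool.Agent.MP72S.Frm

open Finset Polynomial Pool.Agent.MP72W MP72T Pool.Agent.MP72S.Ns

/-- Estimate (3). -/
private theorem fnum3 {A B k n : ℕ} (h3 : 4 * B ≤ A) (h7 : 2 ≤ A) (hn : 4 ≤ n) :
    2 ^ (4 * (B * k)) * (2 * n) ≤ (n ^ 2 * A ^ k) ^ A := by
  have h1 : 2 ^ (4 * (B * k)) ≤ (A ^ k) ^ A := by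
    calc 2 ^ (4 * (B * k)) ≤ 2 ^ (k * A) := by
          refine Nat.pow_le_pow_right (by norm_num) ?_
          calc 4 * (B * k) = k * (4 * B) := by ring
            _ ≤ k * A := Nat.mul_le_mul_left _ h3
      _ = (2 ^ k) ^ A := by rw [pow_mul]
      _ ≤ (A ^ k) ^ A := Nat.pow_le_pow_left (Nat.pow_le_pow_left h7 k) A
  have h2 : 2 * n ≤ (n ^ 2) ^ A := by
    calc 2 * n ≤ n * n := Nat.mul_le_mul_right _ (by omega)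
      _ = n ^ 2 := by ring
      _ ≤ (n ^ 2) ^ A := Nat.le_self_pow (by omega) _
  rw [mul_pow, mul_comm (2 ^ (4 * (B * k)))]
  exact Nat.mul_le_mul h2 h1

/-- Estimate (4). -/
private theorem fnum4 {A B C E k n : ℕ} (hB : 1 ≤ B) (hk : 1 ≤ k) (hn : 1 ≤ n) (h4 : E ≤ A)
    (h6 : (8 * (C + 1)) ^ (B ^ E) ≤ A) (h7 : 2 ≤ A) :
    C * (2 ^ (B * k) ^ E * (1 + (B * k) ^ E * n)) ≤ n * A ^ (k ^ A) := by
  have hM1 : 1 ≤ (B * k) ^ E := Nat.one_le_pow _ _ (Nat.mul_pos hB hk)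
  have hM2 : (B * k) ^ E = B ^ E * k ^ E := mul_pow _ _ _
  have h8 : (8 * (C + 1)) ^ ((B * k) ^ E) ≤ A ^ (k ^ A) := by
    rw [hM2, pow_mul]
    calc ((8 * (C + 1)) ^ (B ^ E)) ^ (k ^ E) ≤ A ^ (k ^ E) := Nat.pow_le_pow_left h6 _
      _ ≤ A ^ (k ^ A) := Nat.pow_le_pow_right (by omega) (Nat.pow_le_pow_right hk h4)
  generalize hM : (B * k) ^ E = M at hM1 h8 ⊢
  have h9 : 1 + M * n ≤ 2 * 2 ^ M * n := by
    have h10 : M * n ≤ 2 ^ M * n := Nat.mul_le_mul_right _ Nat.lt_two_pow_self.le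
    have h11 : 1 ≤ 2 ^ M * n := Nat.mul_pos (by positivity) hn
    calc 1 + M * n ≤ 2 ^ M * n + 2 ^ M * n := Nat.add_le_add h11 h10
      _ = 2 * 2 ^ M * n := by ring
  have h12 : C * 2 ≤ (2 * (C + 1)) ^ M :=
    le_trans (by omega) (Nat.le_self_pow (by omega) (2 * (C + 1)))
  calc C * (2 ^ M * (1 + M * n)) ≤ C * (2 ^ M * (2 * 2 ^ M * n)) :=
        Nat.mul_le_mul_left _ (Nat.mul_le_mul_left _ h9)
    _ = n * (C * 2 * (2 * 2) ^ M) := by rw [mul_pow]; ring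
    _ ≤ n * ((2 * (C + 1)) ^ M * (2 * 2) ^ M) :=
        Nat.mul_le_mul_left _ (Nat.mul_le_mul_right _ h12)
    _ = n * (8 * (C + 1)) ^ M := by
        rw [← mul_pow]
        congr 2
        ring
    _ ≤ n * A ^ (k ^ A) := Nat.mul_le_mul_left _ h8

/-- Estimate (6). -/
private theorem fnum6 {A A₀ d k n : ℕ} (hk : 1 ≤ k) (hn : 1 ≤ n)
    (h2 : 4 * (A₀ + 1) ^ (d + 1) ≤ A) (h7 : 2 ≤ A) :
    ((2 * n) ^ 2 * A₀ ^ (d + k)) ^ 2 ≤ (n ^ 2 * A ^ k) ^ A := by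
  have h1 : A₀ ^ (d + k) ≤ ((A₀ + 1) ^ (d + 1)) ^ k := by
    rw [← pow_mul]
    calc A₀ ^ (d + k) ≤ (A₀ + 1) ^ (d + k) := Nat.pow_le_pow_left (by omega) _
      _ ≤ (A₀ + 1) ^ ((d + 1) * k) := by
          refine Nat.pow_le_pow_right (by omega) ?_
          nlinarith
  have h3 : (2 * n) ^ 2 * A₀ ^ (d + k) ≤ n ^ 2 * A ^ k := by
    calc (2 * n) ^ 2 * A₀ ^ (d + k) ≤ (2 * n) ^ 2 * ((A₀ + 1) ^ (d + 1)) ^ k :=
          Nat.mul_le_mul_left _ h1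
      _ = n ^ 2 * (4 * ((A₀ + 1) ^ (d + 1)) ^ k) := by ring
      _ ≤ n ^ 2 * (4 ^ k * ((A₀ + 1) ^ (d + 1)) ^ k) :=
          Nat.mul_le_mul_left _ (Nat.mul_le_mul_right _ (Nat.le_self_pow (by omega) 4))
      _ = n ^ 2 * (4 * (A₀ + 1) ^ (d + 1)) ^ k := by rw [mul_pow]
      _ ≤ n ^ 2 * A ^ k := Nat.mul_le_mul_left _ (Nat.pow_le_pow_left h2 k)
  have h4 : 1 ≤ n ^ 2 * A ^ k := Nat.mul_pos (by positivity) (by positivity)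
  calc ((2 * n) ^ 2 * A₀ ^ (d + k)) ^ 2 ≤ (n ^ 2 * A ^ k) ^ 2 := Nat.pow_le_pow_left h3 2
    _ ≤ (n ^ 2 * A ^ k) ^ A := Nat.pow_le_pow_right h4 h7

theorem tFNum : S_FNum := by
  intro C₀ E L₀ A₀ d
  obtain ⟨B, hB⟩ : ∃ B : ℕ, B = L₀ + 3 * d + 73 := ⟨_, rfl⟩
  obtain ⟨A, h1, h2, h3, h4, h5, h6, h7⟩ : ∃ A : ℕ, (A₀ + 1) * (d + 1) ≤ A ∧
      4 * (A₀ + 1) ^ (d + 1) ≤ A ∧ 4 * B ≤ A ∧ E ≤ A ∧ C₀ ≤ A ∧
      (8 * (C₀ + 1)) ^ (B ^ E) ≤ A ∧ 2 ≤ A := by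
    refine ⟨(A₀ + 1) * (d + 1) + 4 * (A₀ + 1) ^ (d + 1) + 4 * B + E + C₀ +
      (8 * (C₀ + 1)) ^ (B ^ E) + 2, ?_, ?_, ?_, ?_, ?_, ?_, ?_⟩ <;> omega
  refine ⟨A, B, ?_⟩
  intro q t r n h n' hq hn' hF
  have hk : 1 ≤ t + r + 2 := by omega
  have hn : 4 ≤ n := le_trans hF.four (le_trans (hF.ge (Fin.last r)) (hn' _))
  have hqh : ∀ i, q ^ h ≤ q ^ n' i := fun i => Nat.pow_le_pow_right (by omega) (hF.ge i)
  refine ⟨?_, ?_, fun i => ?_, ?_, ?_, ?_⟩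
  · calc L₀ ≤ B := by omega
      _ ≤ B * (t + r + 2) := Nat.le_mul_of_pos_right _ hk
  · rw [hB]
    nlinarith
  · calc 2 ^ (4 * (B * (t + r + 2))) * (2 * n' i) ≤ 2 ^ (4 * (B * (t + r + 2))) * (2 * n) :=
          Nat.mul_le_mul_left _ (Nat.mul_le_mul_left _ (hn' i))
      _ ≤ (n ^ 2 * A ^ (t + r + 2)) ^ A := fnum3 h3 h7 hn
      _ ≤ q ^ h := hF.big
      _ ≤ q ^ n' i := hqh i
  · have h8 : 1 ≤ n * A ^ ((t + r + 2) ^ A) := Nat.mul_pos (by omega) (by positivity)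
    calc (C₀ * (2 ^ (B * (t + r + 2)) ^ E * (1 + (B * (t + r + 2)) ^ E * n))) ^ C₀
        ≤ (n * A ^ ((t + r + 2) ^ A)) ^ C₀ :=
          Nat.pow_le_pow_left (fnum4 (by omega) hk (by omega) h4 h6 h7) C₀
      _ ≤ (n * A ^ ((t + r + 2) ^ A)) ^ A := Nat.pow_le_pow_right h8 h5
      _ ≤ q ^ n' (Fin.last r) := hF.hug
  · calc A₀ * (d + t + 1) ≤ (A₀ + 1) * ((d + 1) * (t + 1)) := by
          refine Nat.mul_le_mul (by omega) ?_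
          nlinarith
      _ = (A₀ + 1) * (d + 1) * (t + 1) := by ring
      _ ≤ A * (t + 1) := Nat.mul_le_mul_right _ h1
      _ ≤ r + 1 := hF.rat
  · have h8 : d + t + (r + 1) + 1 = d + (t + r + 2) := by ring
    rw [h8]
    exact le_trans (fnum6 hk (by omega) h2 h7) hF.big

end Pool.Agent.MP72S.Frm
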