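import Pool.Agent.Lib.MP_72e2e6_nt.Sm.N.SpecF

/-!
# MP_72e2e6_nt, `Sm/N/FSzc`: the size conditions of the core
-/

set_option autoImplicit false

namespace Pool.Agent.MP72S.Frm

open Finset Polynomial Pool.Agent.MP72W MP72T Pool.Agent.MP72S.Ns

private theorem fszc_card {α : Type} [DecidableEq α] (S : Finset α) (c : α) :
    #S ≤ #(S.erase c) + 1 := by
  have h := Finset.pred_card_le_card_erase (s := S) (a := c)
  omega

/-- Module `FSzc`: the size conditions of the core. -/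
theorem tFSzc : HD.S_Irf → HD.S_Okt → Lv.S_Nir → S_FHy → S_FSok → S_FSzc := by
  intro irf okt nir fhy fsok F _ _ a d n h s S r n' fr u A hu hA C₀ hspl E L hL hbig hlast
  obtain ⟨hyy, hdeg, hmxd⟩ := fhy F a fr.cur d fr.td h n s fr.sml
  obtain ⟨f1, f2, -, f4⟩ := fsok F a fr.cur d fr.td h n fr.dh s fr.sml S fr.sok
  obtain ⟨-, -, hirf⟩ := irf F a (d * s) A hyy hA
  obtain ⟨i1, -, -⟩ := hirf S
  have f5 := f4 i1
  have hn'n : ∀ i, n' i ≤ n := by
    intro i
    have h1 : n' i ≤ ∑ i, n' i := Finset.single_le_sum (fun _ _ => Nat.zero_le _) (mem_univ i)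
    have h2 := fr.sum
    omega
  have hhn : h ≤ n := (fr.ge 0).trans (hn'n 0)
  have hadm : HD.Adm a (d * s) r n' := by
    unfold HD.Adm
    rw [hdeg, hmxd]
    have h1 := fr.par
    have h2 := fr.sum
    have h3 : d.natDegree + s.natDegree + ∑ i, n' i + mxd a = d.natDegree + n + mxd a := by omega
    rw [h3]
    exact h1
  have hnS : ∀ i, ∀ v ∈ HD.irr F S (n' i), v ∉ S := by
    intro i v hv
    exact ((i1 _ v).1 hv).2
  have hdgP : ∀ w, (w ∈ S ∨ ∃ i, w ∈ HD.irr F S (n' i)) → dgP (D.Pl.o w) ≤ n := by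
    rintro w (hw | ⟨i, hw⟩)
    · exact (f1 w hw).2.trans hhn
    · obtain ⟨P, rfl, hP⟩ := ((i1 _ w).1 hw).1
      have h1 : dgP (D.Pl.o (some P : D.Pl F)) = P.1.natDegree := rfl
      rw [h1, hP]
      exact hn'n i
  constructor
  case card =>
    have h1 : Fintype.card ((HD.DD F a (d * s) u S A).J (Fin (r + 1))) = #S + (r + 1) := by
      rw [Fintype.card_sum, Fintype.card_fin]
      congr 1
      exact Fintype.card_coe S
    rw [h1]
    have h2 : #S ≤ (Dlt a).natDegree + om 1 h s + 1 := by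
      refine le_trans ?_ (Nat.add_le_add_right f2 1)
      exact @fszc_card _ (_) S none
    omega
  case big =>
    intro i
    have h4 : 4 ≤ n' i := fr.four.trans (fr.ge i)
    have h1 := (nir F).1 (n' i) h4
    have h2 := hbig i
    have h3 : Nat.card F ^ n' i ≤ 2 * n' i * #(MP72e2e6.irr F (n' i)) := by
      exact_mod_cast h1
    have h5 := (f5 (n' i) (fr.ge i)).2
    rw [h5]
    have h6 : 2 ^ (4 * L) * (2 * n' i) ≤ #(MP72e2e6.irr F (n' i)) * (2 * n' i) := by
      calc 2 ^ (4 * L) * (2 * n' i) ≤ Nat.card F ^ n' i := h2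
        _ ≤ 2 * n' i * #(MP72e2e6.irr F (n' i)) := h3
        _ = #(MP72e2e6.irr F (n' i)) * (2 * n' i) := by ring
    exact Nat.le_of_mul_le_mul_right h6 (by omega)
  case ok =>
    intro z hz
    exact okt F a (d * s) u S A hyy fr.sok hA r n' hadm z hz
  case nS =>
    intro i v hv
    exact hnS i v hv
  case few =>
    intro T hT hTS H hHn hHo hidx htau
    have h1 : ∀ w ∈ T, dgP (D.Pl.o w) ≤ n := fun w hw => hdgP w (hTS w hw)
    have h2 : ∑ w ∈ T, dgP (D.Pl.o w) ≤ L ^ E * n := by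
      calc ∑ w ∈ T, dgP (D.Pl.o w) ≤ #T • n := Finset.sum_le_card_nsmul _ _ _ h1
        _ = #T * n := by rw [smul_eq_mul]
        _ ≤ L ^ E * n := Nat.mul_le_mul_right _ hT
    have h3 : (C₀ * (H.index * (1 + ∑ w ∈ T, dgP (D.Pl.o w)))) ^ C₀ ≤
        Nat.card F ^ n' (Fin.last r) := by
      refine le_trans ?_ hlast
      refine Nat.pow_le_pow_left ?_ _
      refine Nat.mul_le_mul_left _ ?_
      exact Nat.mul_le_mul hidx (by omega)
    have h4 := hspl H hHn hHo T htau (n' (Fin.last r)) h3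
    have h5 := (f5 (n' (Fin.last r)) (fr.ge _)).1
    have h6 : (({c ∈ HD.irr F S (n' (Fin.last r)) | (HD.DD F a (d * s) u S A).phi c ∈ H} :
        Set (D.Pl F))) = {w ∈ SF.Irs F (n' (Fin.last r)) | (A w).rQ (A w).f ∈ H} := by
      ext w
      constructor
      · rintro ⟨hw, hw2⟩
        refine ⟨?_, hw2⟩
        rw [← h5]
        exact hw
      · rintro ⟨hw, hw2⟩
        refine ⟨?_, hw2⟩
        rw [← h5] at hw
        exact hw
    have h7 : #(HD.irr F S (n' (Fin.last r))) = (SF.Irs F (n' (Fin.last r))).ncard := by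
      rw [← h5, Set.ncard_coe_finset]
    change ({c ∈ HD.irr F S (n' (Fin.last r)) | (HD.DD F a (d * s) u S A).phi c ∈ H} :
      Set (D.Pl F)).ncard * H.relIndex (SF.Gb F) ≤ 2 * #(HD.irr F S (n' (Fin.last r)))
    rw [h6, h7]
    exact h4

end Pool.Agent.MP72S.Frm
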