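import Pool.Agent.Lib.MP_72e2e6_nt.Sm.N.SpecF

/-!
# MP_72e2e6_nt, `Sm/N/FTop`: from the groups `Dk` to the twists
-/

set_option autoImplicit false

namespace Pool.Agent.MP72S.Frm

open Finset Polynomial Pool.Agent.MP72W MP72T Pool.Agent.MP72S.Ns

section

variable {F : Type} [Field F] {r : ℕ}

/-- The polynomials of a tuple of places. -/
private noncomputable def ftop_mp (z : Fin r → D.Pl F) : Fin r → F[X] := fun i =>
  match z i with
  | none => 0
  | some P => P.1

private theorem ftop_mp_some (R : Fin r → {P : F[X] // P.Monic ∧ Irreducible P}) :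
    ftop_mp (fun i => some (R i)) = fun i => (R i).1 := rfl

private theorem ftop_lift {n : Fin r → ℕ} {z : Fin r → D.Pl F} (hz : ∀ i, z i ∈ SF.Irs F (n i)) :
    ∃ R : Fin r → {P : F[X] // P.Monic ∧ Irreducible P}, z = (fun i => some (R i)) ∧
      ∀ i, (R i).1.natDegree = n i := by
  choose R hR hR' using hz
  exact ⟨R, funext hR, hR'⟩

private theorem ftop_inj {n : Fin r → ℕ} : Set.InjOn (ftop_mp (F := F) (r := r))
    {z | ∀ i, z i ∈ SF.Irs F (n i)} := by
  intro z hz z' hz' h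
  obtain ⟨R, rfl, -⟩ := ftop_lift hz
  obtain ⟨R', rfl, -⟩ := ftop_lift hz'
  rw [ftop_mp_some, ftop_mp_some] at h
  funext i
  exact congrArg some (Subtype.ext (congrFun h i))

end

theorem tFTop (hIrf : HD.S_Irf) (hCnc : HD.S_Cnc) (hFHy : S_FHy) (hFSok : S_FSok) : S_FTop := by
  classical
  intro F _ _ a d n h s S r n' hFr u A hu hA Lf hLf
  obtain ⟨hHy, hdeg, hmxd⟩ := hFHy F a hFr.cur d hFr.td h n s hFr.sml
  have hadm : HD.Adm a (d * s) r n' := by
    unfold HD.Adm
    rw [hdeg, hmxd]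
    have e1 := hFr.sum
    have e2 : d.natDegree + s.natDegree + ∑ i, n' i + mxd a = d.natDegree + n + mxd a := by omega
    rw [e2]
    exact hFr.par
  obtain ⟨-, -, hirf⟩ := hIrf F a (d * s) A hHy hA
  obtain ⟨i1, -, -⟩ := hirf S
  obtain ⟨-, -, -, h4⟩ := hFSok F a hFr.cur d hFr.td h n hFr.dh s hFr.sml S hFr.sok
  have h5 := fun i => h4 i1 (n' i) (hFr.ge i)
  refine ⟨?_, ?_⟩
  · refine (Finset.card_filter_le _ _).trans ?_
    rw [Fintype.card_piFinset]
    exact (Finset.prod_congr rfl fun i _ => ((h5 i).2).symm).le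
  · have hmem : ∀ z ∈ {z ∈ tup fun i => HD.irr F S (n' i) |
        (HD.DD F a (d * s) u S A).Dk z Lf = (HD.DD F a (d * s) u S A).T (Fin (r + 1))},
        z ∈ {z : Fin (r + 1) → D.Pl F | ∀ i, z i ∈ SF.Irs F (n' i)} := by
      intro z hz i
      rw [← (h5 i).1, Finset.mem_coe]
      exact hz.1.1 i
    refine Set.ncard_le_ncard_of_injOn ftop_mp ?_ (ftop_inj.mono hmem)
      ((Finset.finite_toSet _).subset (Set.sep_subset _ _))
    intro z hz
    obtain ⟨R, rfl, hR⟩ := ftop_lift (hmem z hz)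
    refine ⟨?_, ?_⟩
    · rw [ftop_mp_some, Finset.mem_coe]
      unfold tpl
      rw [Finset.mem_filter, Fintype.mem_piFinset]
      refine ⟨fun i => ?_, fun i j hij => ?_⟩
      · rw [MP72e2e6.irr, Finset.mem_filter, MP72e2e6.mem_mon]
        exact ⟨⟨(R i).2.1, hR i⟩, (R i).2.2⟩
      · exact hz.1.2 (congrArg some (Subtype.ext hij))
    · obtain ⟨q1, q2⟩ := hCnc F a (d * s) u S A hHy hu hFr.sok hA r n' hadm R hz.1 Lf hLf hz.2
      rw [mul_assoc d s] at q1 q2
      rw [ftop_mp_some]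
      exact ⟨q1, MP72Y.shaTwoFin_of _ q2⟩

end Pool.Agent.MP72S.Frm
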