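import Pool.Agent.Lib.MP_72e2e6_nt.Sm.N.SpecA

/-!
# MP_72e2e6_nt, `Sm/N`: module `SepF` (faces)
-/

namespace Pool.Agent.MP72S

open Finset

private theorem SepF_aux {G N P ι : Type} [Group G] [TopologicalSpace G] [AddCommGroup N]
    [DistribMulAction G N] [Fintype ι] [DecidableEq ι] (D : Dat G N P) (x z : ι → P)
    (I₀ : Finset ι) (Ξ : Finset (D.J ι)) (h1 : ∀ i, i ∉ I₀ → x i = z i)
    (h2 : ∀ j, D.Fx I₀ j → D.chi z (D.tau (D.pl x j)) = D.chi x (D.tau (D.pl x j)) ∧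
      D.chi z (D.phi (D.pl x j)) = D.chi x (D.phi (D.pl x j)))
    (h : D.Sep x I₀ Ξ) : D.Sep z I₀ Ξ := by
  have hp : ∀ j, D.Fx I₀ j → D.pl z j = D.pl x j := by
    intro j hj
    rcases j with s | i
    · rfl
    · have : i ∉ I₀ := fun hi => hj i hi rfl
      exact (h1 i this).symm
  refine ⟨h.sub, fun ν hν hz => h.sep ν ⟨hν.ho, ?_, ?_⟩ ?_⟩
  · intro v hv hi
    exact hν.ur v hv fun i hiI => by rw [← h1 i hiI]; exact hi i hiI
  · intro j hj
    obtain ⟨Q, hQ, hL⟩ := hν.lo j hj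
    refine ⟨Q, hQ, ?_⟩
    rw [hp j hj] at hL
    obtain ⟨a1, a2⟩ := hL
    refine ⟨?_, ?_⟩
    · rw [a1, tw, tw, (h2 j hj).1]
    · rw [a2, tw, tw, (h2 j hj).2]
  · intro j hj hj'
    rw [← hp j hj']
    exact hz j hj hj'

theorem tSepF : S_Chi → S_SepF := by
  intro hChi G N P ι _ _ _ _ _ _ D hax x y U I₀ Ξ hG hU hS A hA
  have h1 : ∀ i, i ∉ I₀ → x i = mx x y A i := by
    intro i hi
    have : i ∉ A := fun h => hi (hU (hA h))
    rw [mx, if_neg this]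
  refine SepF_aux D x _ I₀ Ξ h1 (fun j hj => ?_) hS
  obtain ⟨c1, c2, _⟩ := hChi D hax x y U hG A hA
  rcases j with s | i
  · exact c1 s.1 s.2
  · have hi : i ∉ A := fun h => hj i (hU (hA h)) rfl
    exact c2 i hi

end Pool.Agent.MP72S
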