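import Pool.Agent.Lib.MP_72e2e6_nt.Sm.N.SpecA

/-!
# MP_72e2e6_nt, `Sm/N`: module `SepS` (configurations with the same symbols)
-/

namespace Pool.Agent.MP72S

open Finset

private theorem SepS_aux {G N P ι : Type} [Group G] [TopologicalSpace G] [AddCommGroup N]
    [DistribMulAction G N] [Fintype ι] [DecidableEq ι] (D : Dat G N P) (x z : ι → P)
    (I₀ : Finset ι) (Ξ : Finset (D.J ι)) (h1 : ∀ i, i ∉ I₀ → x i = z i)
    (h2 : ∀ j, D.Fx I₀ j → D.chi z (D.tau (D.pl x j)) = D.chi x (D.tau (D.pl x j)) ∧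
      D.chi z (D.phi (D.pl x j)) = D.chi x (D.phi (D.pl x j)))
    (h : D.Sep x I₀ Ξ) : D.Sep z I₀ Ξ := by
  have hp : ∀ j, D.Fx I₀ j → D.pl z j = D.pl x j := by
    intro j hj
    rcases j with s | i
    · rfl
    · have : i ∉ I₀ := fun hi => hj i hi rfl
      exact (h1 i this).symm
  refine ⟨h.sub, fun ν hν hz => h.sep ν ⟨hν.ho, ?_, ?_⟩ ?_⟩
  · intro v hv hi
    exact hν.ur v hv fun i hiI => by rw [← h1 i hiI]; exact hi i hiI
  · intro j hj
    obtain ⟨Q, hQ, hL⟩ := hν.lo j hj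
    refine ⟨Q, hQ, ?_⟩
    rw [hp j hj] at hL
    obtain ⟨a1, a2⟩ := hL
    refine ⟨?_, ?_⟩
    · rw [a1, tw, tw, (h2 j hj).1]
    · rw [a2, tw, tw, (h2 j hj).2]
  · intro j hj hj'
    rw [← hp j hj']
    exact hz j hj hj'

theorem tSepS : S_Tai → S_SepS := by
  intro hTai G N P ι _ _ _ _ _ _ D hax x z I₀ Ξ hx hz h1 hSy hS
  have e1 : ∀ i j, i ≠ j → D.ch (x i) (D.phi (x j)) = D.ch (z i) (D.phi (z j)) := by
    intro i j hij
    have h := congrFun (congrFun (congrArg Prod.fst hSy) i) j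
    simp only [Dat.Sy, if_neg hij] at h
    exact h
  have e2 : ∀ i (s : {v // v ∈ D.S}), D.ch (x i) (D.tau s.1) = D.ch (z i) (D.tau s.1) ∧
      D.ch (x i) (D.phi s.1) = D.ch (z i) (D.phi s.1) := by
    intro i s
    have h := congrFun (congrFun (congrArg (fun p => p.2.1) hSy) i) s
    simp only [Dat.Sy] at h
    exact ⟨congrArg Prod.fst h, congrArg (fun p => p.2.1) h⟩
  refine SepS_aux D x z I₀ Ξ h1 (fun j hj => ?_) hS
  rcases j with s | i
  · constructor
    · show D.ch0 (D.tau s.1) + ∑ i, D.ch (z i) (D.tau s.1) =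
        D.ch0 (D.tau s.1) + ∑ i, D.ch (x i) (D.tau s.1)
      rw [sum_congr rfl fun i _ => (e2 i s).1]
    · show D.ch0 (D.phi s.1) + ∑ i, D.ch (z i) (D.phi s.1) =
        D.ch0 (D.phi s.1) + ∑ i, D.ch (x i) (D.phi s.1)
      rw [sum_congr rfl fun i _ => (e2 i s).2]
  · have hi : i ∉ I₀ := fun h => hj i h rfl
    have hxz := h1 i hi
    constructor
    · show D.chi z (D.tau (x i)) = D.chi x (D.tau (x i))
      rw [(hTai D hax x hx).1 i, hxz]
      exact (hTai D hax z hz).1 i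
    · show D.ch0 (D.phi (x i)) + ∑ i', D.ch (z i') (D.phi (x i)) =
        D.ch0 (D.phi (x i)) + ∑ i', D.ch (x i') (D.phi (x i))
      congr 1
      refine sum_congr rfl fun i' _ => ?_
      by_cases hii : i' = i
      · rw [hii, hxz]
      · rw [e1 i' i hii, hxz]

end Pool.Agent.MP72S
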