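import Pool.Agent.Lib.MP_72e2e6_nt.Sm.N.SpecA

/-!
# MP_72e2e6_nt, `Sm/N/Thx`: a small set of recorded indices exists (helper7)
-/

namespace Pool.Agent.MP72S

open Finset

set_option linter.unusedSectionVars false

section

variable {G N P ι : Type} [Group G] [TopologicalSpace G] [AddCommGroup N] [DistribMulAction G N]
  [Fintype ι] [DecidableEq ι]

private theorem Thx_isHo_zero : IsHo (fun _ : G => (0 : N)) :=
  ⟨IsLocallyConstant.const 0, fun _ => smul_zero _, fun _ _ => (add_zero _).symm⟩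

private theorem Thx_isHo_add {θ θ' : G → N} (h : IsHo θ) (h' : IsHo θ') :
    IsHo (fun σ => θ σ + θ' σ) := by
  refine ⟨h.lc.comp₂ h'.lc (fun a b => a + b), fun σ => ?_, fun σ τ => ?_⟩
  · rw [smul_add, h.two, h'.two, add_zero]
  · rw [h.mul, h'.mul]
    abel

private theorem Thx_isHo_neg {θ : G → N} (h : IsHo θ) : IsHo (fun σ => -θ σ) := by
  refine ⟨h.lc.comp (fun a => -a), fun σ => ?_, fun σ τ => ?_⟩
  · rw [smul_neg, h.two, neg_zero]
  · rw [h.mul]
    abel

private theorem Thx_four {Q Q' : N} (h : 4 • Q = 0) (h' : 4 • Q' = 0) : 4 • (Q + Q') = 0 := by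
  rw [smul_add, h, h', add_zero]

/-- the group `W` -/
private def Thx_W (D : Dat G N P) (x : ι → P) (I₀ : Finset ι) : AddSubgroup (G → N) where
  carrier := {ν | D.IsW x I₀ ν}
  zero_mem' := by
    refine ⟨Thx_isHo_zero, fun _ _ _ => rfl, fun j _ => ⟨0, smul_zero _, ?_, ?_⟩⟩
    · rw [tw_map_zero, sub_zero]
      rfl
    · rw [tw_map_zero, sub_zero]
      rfl
  add_mem' := by
    intro a b ha hb
    refine ⟨Thx_isHo_add ha.ho hb.ho, fun v hv hv' => ?_, fun j hj => ?_⟩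
    · show a (D.tau v) + b (D.tau v) = 0
      rw [ha.ur v hv hv', hb.ur v hv hv', add_zero]
    · obtain ⟨Q, hQ, h1⟩ := ha.lo j hj
      obtain ⟨Q', hQ', h1'⟩ := hb.lo j hj
      exact ⟨Q + Q', Thx_four hQ hQ', h1.add h1'⟩
  neg_mem' := by
    intro a ha
    refine ⟨Thx_isHo_neg ha.ho, fun v hv hv' => ?_, fun j hj => ?_⟩
    · show -a (D.tau v) = 0
      rw [ha.ur v hv hv', neg_zero]
    · obtain ⟨Q, hQ, h1⟩ := ha.lo j hj
      exact ⟨-Q, by rw [smul_neg, hQ, neg_zero], h1.neg⟩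

private theorem Thx_mem {D : Dat G N P} {x : ι → P} {I₀ : Finset ι} {ν : G → N} :
    ν ∈ Thx_W D x I₀ ↔ D.IsW x I₀ ν := Iff.rfl

private theorem Thx_fin (hHom : S_Hom) {D : Dat G N P} (hD : Ax D) (x : ι → P)
    (I₀ : Finset ι) : Finite (Thx_W D x I₀) := by
  classical
  have h1 := (hHom D hD).2.2 (D.S ∪ univ.image x)
  refine (h1.subset ?_).to_subtype
  intro ν hν
  refine ⟨hν.ho, fun v hv => hν.ur v (fun h => hv (mem_union_left _ h)) fun i _ h => hv ?_⟩
  rw [h]
  exact mem_union_right _ (mem_image_of_mem x (mem_univ i))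

/-- a small set of fixed indices which separates a finite group of homomorphisms -/
private theorem Thx_sep (hHom : S_Hom) {D : Dat G N P} (hD : Ax D) (x : ι → P)
    (I₀ : Finset ι) (n : ℕ) : ∀ W' : AddSubgroup (G → N), W' ≤ Thx_W D x I₀ →
    Nat.card W' = n → ∃ Θ : Finset (D.J ι), (∀ j ∈ Θ, D.Fx I₀ j) ∧ 2 ^ #Θ ≤ Nat.card W' ∧
      ∀ ν ∈ W', (∀ j ∈ Θ, ν (D.tau (D.pl x j)) = 0 ∧ ν (D.phi (D.pl x j)) = 0) → ν = 0 := by
  classical
  induction n using Nat.strong_induction_on with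
  | _ n IH =>
  intro W' hW' hn
  have hfW := Thx_fin hHom hD x I₀
  have hfin : Finite W' := Finite.of_injective (AddSubgroup.inclusion hW')
    (AddSubgroup.inclusion_injective hW')
  by_cases htriv : ∀ ν ∈ W', ν = 0
  · exact ⟨∅, fun j hj => absurd hj (notMem_empty j), by
      rw [card_empty, pow_zero]
      exact Nat.card_pos, fun ν hν _ => htriv ν hν⟩
  push Not at htriv
  obtain ⟨ν₀, hν₀, hne⟩ := htriv
  have hν₀W : D.IsW x I₀ ν₀ := hW' hν₀
  -- a fixed index at which `ν₀` does not vanish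
  obtain ⟨j, hjF, hj⟩ : ∃ j, D.Fx I₀ j ∧
      ¬(ν₀ (D.tau (D.pl x j)) = 0 ∧ ν₀ (D.phi (D.pl x j)) = 0) := by
    by_contra hcon
    push Not at hcon
    have hS : ∀ v ∈ D.S, ν₀ (D.tau v) = 0 ∧ ν₀ (D.phi v) = 0 := by
      intro v hv
      have h1 : D.Fx I₀ (Sum.inl ⟨v, hv⟩ : D.J ι) := fun i _ h => by
        exact absurd h (by simp)
      by_contra h
      exact h (by
        by_contra h'
        have := hcon _ h1
        exact h' ⟨this.1, this.2⟩)
    have htau : ∀ v, ν₀ (D.tau v) = 0 := by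
      intro v
      by_cases hv : v ∈ D.S
      · exact (hS v hv).1
      · by_cases hx : ∃ i, i ∉ I₀ ∧ v = x i
        · obtain ⟨i, hi, rfl⟩ := hx
          have h1 : D.Fx I₀ (Sum.inr i : D.J ι) := fun i' hi' h => hi (by
            rw [Sum.inr.inj h]
            exact hi')
          exact (hcon _ h1).1
        · push Not at hx
          exact hν₀W.ur v hv hx
    exact hne (funext ((hHom D hD).1 ν₀ hν₀W.ho htau (hS _ hD.infS).2))
  -- the subgroup of the elements which vanish there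
  let W'' : AddSubgroup (G → N) :=
    { carrier := {ν | ν ∈ W' ∧ ν (D.tau (D.pl x j)) = 0 ∧ ν (D.phi (D.pl x j)) = 0}
      zero_mem' := ⟨W'.zero_mem, rfl, rfl⟩
      add_mem' := by
        rintro a b ⟨ha, ha1, ha2⟩ ⟨hb, hb1, hb2⟩
        refine ⟨W'.add_mem ha hb, ?_, ?_⟩
        · rw [Pi.add_apply, ha1, hb1, add_zero]
        · rw [Pi.add_apply, ha2, hb2, add_zero]
      neg_mem' := by
        rintro a ⟨ha, ha1, ha2⟩
        refine ⟨W'.neg_mem ha, ?_, ?_⟩
        · rw [Pi.neg_apply, ha1, neg_zero]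
        · rw [Pi.neg_apply, ha2, neg_zero] }
  have hle : W'' ≤ W' := fun ν hν => hν.1
  have hfin'' : Finite W'' := Finite.of_injective (AddSubgroup.inclusion hle)
    (AddSubgroup.inclusion_injective hle)
  have hneW : W'' ≠ W' := by
    intro h
    have : ν₀ ∈ W'' := by rw [h]; exact hν₀
    exact hj this.2
  have hlt : Nat.card W'' < Nat.card W' := by
    by_contra h
    exact hneW (AddSubgroup.eq_of_le_of_card_ge hle (not_lt.1 h))
  have hdvd : Nat.card W'' ∣ Nat.card W' := AddSubgroup.card_dvd_of_le hle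
  have h2 : 2 * Nat.card W'' ≤ Nat.card W' := by
    obtain ⟨m, hm⟩ := hdvd
    rw [hm, mul_comm]
    apply Nat.mul_le_mul_left
    by_contra h
    have : m = 0 ∨ m = 1 := by omega
    rcases this with rfl | rfl
    · rw [mul_zero] at hm
      omega
    · rw [mul_one] at hm
      omega
  obtain ⟨Θ, hΘ1, hΘ2, hΘ3⟩ := IH (Nat.card W'') (hn ▸ hlt) W'' (hle.trans hW') rfl
  refine ⟨insert j Θ, ?_, ?_, ?_⟩
  · intro k hk
    rcases mem_insert.1 hk with rfl | hk
    · exact hjF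
    · exact hΘ1 k hk
  · calc 2 ^ #(insert j Θ) ≤ 2 ^ (#Θ + 1) :=
          Nat.pow_le_pow_right (by norm_num) (card_insert_le j Θ)
      _ = 2 * 2 ^ #Θ := by rw [pow_succ, mul_comm]
      _ ≤ 2 * Nat.card W'' := Nat.mul_le_mul_left 2 hΘ2
      _ ≤ Nat.card W' := h2
  · intro ν hν h
    exact hΘ3 ν ⟨hν, h j (mem_insert_self j Θ)⟩ fun k hk => h k (mem_insert_of_mem hk)

end

theorem tThx : S_Hom → S_Uq → S_Tai → S_Dk1 → S_Thx := by
  intro hHom hUq _ hDk G N P ι _ _ _ _ _ _ D hD x hx I₀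
  classical
  have hfW := Thx_fin hHom hD x I₀
  obtain ⟨hDk1, -, -, -, hDkf, -⟩ := hDk (ι := ι) D hD
  have hfD : Finite (D.Dk x 1) := hDkf x 1 le_rfl
  have hcV : Nat.card (tor N 1) = 4 := by
    rw [← hD.four]
    refine Nat.card_congr (Equiv.subtypeEquivRight fun y => ?_)
    rw [mem_tor, pow_one]
  have hfV : Finite (tor N 1) := Nat.finite_of_card_ne_zero (by rw [hcV]; norm_num)
  -- the values at the Frobenius elements
  let e : Thx_W D x I₀ →+ (I₀ → tor N 1) :=
    { toFun := fun ν i => ⟨ν.1 (D.phi (x i)), by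
        rw [mem_tor, pow_one]
        exact (Thx_mem.1 ν.2).ho.two _⟩
      map_zero' := by
        funext i
        rfl
      map_add' := by
        intro a b
        funext i
        rfl }
  have hcard : Nat.card (Thx_W D x I₀) = Nat.card e.ker * Nat.card e.range := by
    rw [← e.ker.card_mul_index, AddSubgroup.index_ker]
  have hrange : Nat.card e.range ≤ 4 ^ #I₀ := by
    have h1 : Nat.card e.range ≤ Nat.card (I₀ → tor N 1) :=
      Nat.card_le_card_of_injective _ Subtype.val_injective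
    have h2 : Nat.card I₀ = #I₀ := by rw [Nat.card_eq_fintype_card, Fintype.card_coe]
    rwa [Nat.card_fun, hcV, h2] at h1
  -- the kernel
  have hker : Nat.card e.ker ≤ Nat.card (D.Dk x 1) := by
    have hex : ∀ ν : e.ker, ∃ t : D.J ι → N, t ∈ D.Dk x 1 ∧ ∀ σ, D.coc x t σ = ν.1.1 σ := by
      intro ν
      have hν : D.IsW x I₀ ν.1.1 := ν.1.2
      have hphi : ∀ i ∈ I₀, ν.1.1 (D.phi (x i)) = 0 := by
        intro i hi
        have h1 : e ν.1 = 0 := ν.2
        have h2 := congrFun h1 ⟨i, hi⟩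
        exact congrArg Subtype.val h2
      have htau : ∀ i ∈ I₀, ν.1.1 (D.tau (x i)) = 0 := fun i hi =>
        hν.ur _ (hx.nS i) fun i' hi' h => hi' (by rw [← hx.inj h]; exact hi)
      have hQ : ∀ j, ∃ Q : N, 4 • Q = 0 ∧ D.Lo x (D.pl x j) Q ν.1.1 := by
        intro j
        by_cases hj : D.Fx I₀ j
        · exact hν.lo j hj
        · unfold Dat.Fx at hj
          push Not at hj
          obtain ⟨i, hi, rfl⟩ := hj
          refine ⟨0, smul_zero _, ?_, ?_⟩
          · rw [tw_map_zero, sub_zero]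
            exact htau i hi
          · rw [tw_map_zero, sub_zero]
            exact hphi i hi
      choose Q hQ4 hQL using hQ
      have hZ : D.IsZ x (fun j => 2 • Q j) ν.1.1 := by
        refine ⟨⟨hν.ho.lc, fun σ τ => ?_, ⟨1, fun σ => ?_⟩, fun v hv => ?_⟩,
          fun j => ⟨Q j, rfl, hQL j⟩⟩
        · rw [tw_two hD.tri (hν.ho.two τ)]
          exact hν.ho.mul σ τ
        · rw [pow_one]
          exact hν.ho.two σ
        · refine hν.ur v (fun h => hv ⟨Sum.inl ⟨v, h⟩, rfl⟩) fun i _ h => hv ⟨Sum.inr i, h.symm⟩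
      refine ⟨fun j => 2 • Q j, (hDk1 x _).2 ⟨⟨_, hZ⟩, ?_⟩, (hUq D hD x).1 _ _ hZ⟩
      funext j
      show 2 • (2 • Q j) = 0
      rw [← mul_smul]
      exact hQ4 j
    choose T hT1 hT2 using hex
    refine Nat.card_le_card_of_injective (fun ν : e.ker => (⟨T ν, hT1 ν⟩ : D.Dk x 1)) ?_
    intro ν ν' h
    have h1 : T ν = T ν' := congrArg Subtype.val h
    apply Subtype.ext
    apply Subtype.ext
    funext σ
    rw [← hT2 ν σ, ← hT2 ν' σ, h1]
  have hWle : Nat.card (Thx_W D x I₀) ≤ Nat.card (D.Dk x 1) * 4 ^ #I₀ := by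
    rw [hcard]
    exact Nat.mul_le_mul hker hrange
  obtain ⟨Θ, hΘ1, hΘ2, hΘ3⟩ := Thx_sep hHom hD x I₀ _ (Thx_W D x I₀) le_rfl rfl
  refine ⟨I₀.image Sum.inr ∪ Θ, ⟨fun i hi => ?_, fun ν hν h => ?_⟩, ?_⟩
  · exact mem_union_left _ (mem_image_of_mem _ hi)
  · intro σ
    have h1 := hΘ3 ν hν fun j hj => h j (mem_union_right _ hj) (hΘ1 j hj)
    rw [h1]
    rfl
  · calc 2 ^ #(I₀.image Sum.inr ∪ Θ) ≤ 2 ^ (#I₀ + #Θ) :=
          Nat.pow_le_pow_right (by norm_num)
            ((card_union_le _ _).trans (Nat.add_le_add_right card_image_le _))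
      _ = 2 ^ #I₀ * 2 ^ #Θ := pow_add _ _ _
      _ ≤ 2 ^ #I₀ * (Nat.card (D.Dk x 1) * 4 ^ #I₀) :=
          Nat.mul_le_mul_left _ (hΘ2.trans hWle)
      _ = 8 ^ #I₀ * Nat.card (D.Dk x 1) := by
          have : (8 : ℕ) ^ #I₀ = 2 ^ #I₀ * 4 ^ #I₀ := by
            rw [← mul_pow]
            norm_num
          rw [this]
          ring

end Pool.Agent.MP72S
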