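import Pool.Agent.Lib.MP_72e2e6_nt.Sm.N.SpecB

/-!
# MP_72e2e6_nt, `Sm/N`: module `VCrd`, orders of finite sets of types
-/

namespace Pool.Agent.MP72S

open Finset

private theorem VCrd_one {N : Type} [AddCommGroup N] (hV : {x : N | 2 • x = 0}.ncard = 4)
    (hf : ∀ k : ℕ, {x : N | 2 ^ k • x = 0}.Finite) (k : ℕ) :
    {x : N | 2 ^ k • x = 0}.ncard ≤ 4 ^ k := by
  classical
  induction k with
  | zero =>
    have h : {x : N | 2 ^ 0 • x = 0} ⊆ {0} := fun x hx => by
      have hx' : 2 ^ 0 • x = 0 := hx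
      rw [pow_zero, one_smul] at hx'
      exact hx'
    refine (Set.ncard_le_ncard h (Set.finite_singleton _)).trans ?_
    rw [Set.ncard_singleton, pow_zero]
  | succ k ih =>
    have hV' : {x : N | 2 • x = 0}.Finite := by
      have := hf 1
      rwa [pow_one] at this
    rw [Set.ncard_eq_toFinset_card _ (hf k)] at ih
    rw [Set.ncard_eq_toFinset_card _ hV'] at hV
    rw [Set.ncard_eq_toFinset_card _ (hf (k + 1))]
    have h1 : #(hf (k + 1)).toFinset ≤ 4 * #((hf (k + 1)).toFinset.image fun x => 2 • x) := by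
      refine card_le_mul_card_image _ _ fun a ha => ?_
      obtain ⟨x₀, -, hx₀⟩ := mem_image.mp ha
      rw [← hV]
      refine card_le_card_of_injOn (fun x => x - x₀) ?_ ?_
      · intro x hx
        have hx' := (mem_filter.mp (mem_coe.mp hx)).2
        refine mem_coe.mpr ((Set.Finite.mem_toFinset _).mpr ?_)
        change 2 • (x - x₀) = 0
        rw [smul_sub, hx', ← hx₀, sub_self]
      · intro x _ x' _ h
        exact sub_left_injective h
    have h2 : ((hf (k + 1)).toFinset.image fun x => 2 • x) ⊆ (hf k).toFinset := by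
      intro a ha
      obtain ⟨x, hx, rfl⟩ := mem_image.mp ha
      refine (Set.Finite.mem_toFinset _).mpr ?_
      change 2 ^ k • (2 • x) = 0
      rw [smul_smul, ← pow_succ]
      exact (Set.Finite.mem_toFinset (hf (k + 1))).mp hx
    have h3 := card_le_card h2
    calc #(hf (k + 1)).toFinset ≤ 4 * #((hf (k + 1)).toFinset.image fun x => 2 • x) := h1
      _ ≤ 4 * 4 ^ k := by gcongr; exact h3.trans ih
      _ = 4 ^ (k + 1) := by rw [pow_succ']

theorem tVCrd : S_Bas → S_VCrd := by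
  intro hBas G N P ι _ _ _ _ _ _ D hD
  classical
  obtain ⟨-, hf, hV⟩ := hBas D hD
  have h1 := VCrd_one hV hf
  have hfin : ∀ k : ℕ, Finite {x : N // 2 ^ k • x = 0} := fun k => (hf k).to_subtype
  have hcard : ∀ k : ℕ, Nat.card {x : N // 2 ^ k • x = 0} ≤ 4 ^ k := by
    intro k
    have := h1 k
    rwa [← Nat.card_coe_set_eq] at this
  refine ⟨fun k => ⟨hf k, h1 k⟩, fun K Ξ => ?_, fun K Lam hLam => ?_⟩
  · have := hfin K
    let φ : {θ : D.J ι → N | 2 ^ K • θ = 0 ∧ ∀ k, k ∉ Ξ → θ k = 0} →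
        ({k // k ∈ Ξ} → {x : N // 2 ^ K • x = 0}) :=
      fun θ k => ⟨θ.1 k.1, congrFun θ.2.1 k.1⟩
    have hφ : Function.Injective φ := by
      intro θ θ' h
      apply Subtype.ext
      funext k
      by_cases hk : k ∈ Ξ
      · exact congrArg (fun z => z.1) (congrFun h ⟨k, hk⟩)
      · rw [θ.2.2 k hk, θ'.2.2 k hk]
    have hfi : Finite {θ : D.J ι → N | 2 ^ K • θ = 0 ∧ ∀ k, k ∉ Ξ → θ k = 0} :=
      Finite.of_injective φ hφ
    refine ⟨hfi, ?_⟩
    rw [← Nat.card_coe_set_eq]
    refine (Nat.card_le_card_of_injective φ hφ).trans ?_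
    rw [Nat.card_fun, Nat.card_eq_fintype_card (α := {k // k ∈ Ξ}), Fintype.card_coe, pow_mul]
    exact Nat.pow_le_pow_left (hcard K) _
  · have := hfin (K - 1)
    let φ : {ξ : D.J ι → N // 2 ^ (K - 1) • ξ = 0} → (D.J ι → {x : N // 2 ^ (K - 1) • x = 0}) :=
      fun θ k => ⟨θ.1 k, congrFun θ.2 k⟩
    have hφ : Function.Injective φ := by
      intro θ θ' h
      apply Subtype.ext
      funext k
      exact congrArg (fun z => z.1) (congrFun h k)
    have hfi : Finite {ξ : D.J ι → N // 2 ^ (K - 1) • ξ = 0} := Finite.of_injective φ hφ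
    have hL : Finite {ν : D.J ι → N // ν ∈ Lam} := hLam
    refine ⟨inferInstance, ?_⟩
    rw [Nat.card_prod, Nat.card_fun, Nat.card_zmod]
    refine Nat.mul_le_mul_right _ ((Nat.card_le_card_of_injective φ hφ).trans ?_)
    rw [Nat.card_fun, Nat.card_eq_fintype_card (α := D.J ι), pow_mul]
    refine Nat.pow_le_pow_left ((hcard (K - 1)).trans ?_) _
    exact Nat.pow_le_pow_right (by norm_num) (Nat.sub_le K 1)

end Pool.Agent.MP72S
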