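import Pool.Agent.Lib.MP_72e2e6_nt.Sm.N.SpecD

/-!
# MP_72e2e6_nt, `Sm/N/VEnd`: the uniform main theorem, abstract form
-/

namespace Pool.Agent.MP72S

open Finset

private theorem VEnd_fs {α : Type} {S : Set α} (hS : S.Finite) (p : α → Prop) [DecidablePred p]
    (f : α → ℝ) :
    ∑ᶠ z ∈ {z ∈ S | p z}, f z = ∑ z ∈ hS.toFinset.filter p, f z := by
  have h : {z ∈ S | p z} = ↑(hS.toFinset.filter p) := by
    ext z
    simp
  rw [h, finsum_mem_coe_finset]

private theorem VEnd_ncard {α : Type} {S : Set α} (hS : S.Finite) (p : α → Prop)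
    [DecidablePred p] : {z ∈ S | p z}.ncard = #(hS.toFinset.filter p) := by
  have h : {z ∈ S | p z} = ↑(hS.toFinset.filter p) := by
    ext z
    simp
  rw [h, Set.ncard_coe_finset]

private theorem VEnd_tup {P ι : Type} [Fintype ι] [DecidableEq ι] (S : ι → Finset P) :
    (tup S).Finite := by
  refine (Fintype.piFinset S).finite_toSet.subset fun z hz => ?_
  rw [mem_coe, Fintype.mem_piFinset]
  exact hz.1

/-- The iteration of the inequality for the potential. -/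
private theorem VEnd_iter (Φ : ℕ → ℝ) (C δ W : ℝ) (hδ : 0 ≤ δ) (hW : 0 ≤ W) (L : ℕ)
    (h1 : Φ 1 ≤ C * W) (h2 : ∀ K, 1 ≤ K → K ≤ L → Φ (K + 1) ≤ 61 / 64 * Φ K + δ * W) :
    ∀ k, k ≤ L → Φ (k + 1) ≤ ((61 / 64) ^ k * C + k * δ) * W := by
  intro k
  induction k with
  | zero =>
    intro _
    simpa using h1
  | succ k ih =>
    intro hk
    have h3 := ih (by omega)
    have h4 := h2 (k + 1) (by omega) hk
    have h5 : 0 ≤ (k : ℝ) * δ * W := by positivity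
    have h6 : (((61 : ℝ) / 64) ^ (k + 1) * C + ((k + 1 : ℕ) : ℝ) * δ) * W =
        61 / 64 * (((61 / 64) ^ k * C + k * δ) * W) + 3 / 64 * (k * δ * W) + δ * W := by
      push_cast
      ring
    rw [h6]
    linarith

/-- The final count. -/
private theorem VEnd_cnt {α : Type} (T : Finset α) (A B B' Q : α → Prop) [DecidablePred A]
    [DecidablePred B] [DecidablePred B'] [DecidablePred Q]
    (h : ∀ z ∈ T, ¬ A z → ¬ B z → ¬ B' z → Q z) :
    (#T : ℝ) ≤ #(T.filter A) + #(T.filter B) + #(T.filter B') + #(T.filter Q) := by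
  classical
  have h1 : T ⊆ T.filter A ∪ T.filter B ∪ T.filter B' ∪ T.filter Q := by
    intro z hz
    simp only [mem_union, mem_filter]
    by_cases hA : A z
    · exact Or.inl (Or.inl (Or.inl ⟨hz, hA⟩))
    by_cases hB : B z
    · exact Or.inl (Or.inl (Or.inr ⟨hz, hB⟩))
    by_cases hB' : B' z
    · exact Or.inl (Or.inr ⟨hz, hB'⟩)
    exact Or.inr ⟨hz, h z hz hA hB hB'⟩
  have h2 : #T ≤ #(T.filter A) + #(T.filter B) + #(T.filter B') + #(T.filter Q) := by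
    have e1 := card_le_card h1
    have e2 := card_union_le (T.filter A ∪ T.filter B ∪ T.filter B') (T.filter Q)
    have e3 := card_union_le (T.filter A ∪ T.filter B) (T.filter B')
    have e4 := card_union_le (T.filter A) (T.filter B)
    omega
  exact_mod_cast h2

/-- The size conditions for a smaller exponent. -/
private theorem VEnd_szc {G N P : Type} [Group G] [TopologicalSpace G] [AddCommGroup N]
    [DistribMulAction G N] {D : Dat G N P} {ι : Type} [Fintype ι] [DecidableEq ι]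
    {Gb : Subgroup G} {E E' L : ℕ} {b : ι} {S : ι → Finset P} (h : D.Szc Gb E L b S)
    (hE : E' ≤ E) : D.Szc Gb E' L b S := by
  have hL : 1 ≤ L := by
    have := h.card
    omega
  refine ⟨h.card, h.big, h.ok, h.nS, fun A hA hAS H hH hHo hHi hHt => ?_⟩
  have h1 : L ^ E' ≤ L ^ E := Nat.pow_le_pow_right hL hE
  exact h.few A (hA.trans h1) hAS H hH hHo
    (hHi.trans (Nat.pow_le_pow_right (by norm_num) h1)) hHt

theorem tVEnd : S_Dk1 → S_Evn → S_VStp → S_VInj → S_VEnd := by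
  intro _ hEvn hStp hInj C₀ ε hε
  classical
  obtain ⟨C, hC⟩ : ∃ C : ℝ, C = max C₀ 0 := ⟨_, rfl⟩
  have hC0 : 0 ≤ C := by rw [hC]; exact le_max_right _ _
  obtain ⟨l, hl⟩ : ∃ l : ℕ, (61 / 64 : ℝ) ^ l * C ≤ ε := by
    have h1 : (0 : ℝ) < ε / (C + 1) := by positivity
    obtain ⟨l, hl⟩ := exists_pow_lt_of_lt_one h1 (by norm_num : (61 / 64 : ℝ) < 1)
    refine ⟨l, ?_⟩
    have h2 : (61 / 64 : ℝ) ^ l * (C + 1) < ε := by rwa [lt_div_iff₀ (by positivity)] at hl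
    have h3 : (0 : ℝ) ≤ (61 / 64) ^ l := by positivity
    nlinarith
  refine ⟨l + 1, by omega, fun d => ?_⟩
  obtain ⟨δ, hδdef⟩ : ∃ δ : ℝ, δ = ε / (l + 1) := ⟨_, rfl⟩
  have hδ : 0 < δ := by rw [hδdef]; positivity
  have hlδ : (l : ℝ) * δ ≤ ε := by
    rw [hδdef, mul_div_assoc', div_le_iff₀ (by positivity)]
    nlinarith
  obtain ⟨L₂, hL₂⟩ := exists_pow_lt_of_lt_one hε (by norm_num : (1 / 2 : ℝ) < 1)
  choose! E1 L1 hEL using hStp
  refine ⟨(Finset.Icc 1 l).sup fun K => E1 K (l + 1) d δ,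
    max L₂ ((Finset.Icc 1 l).sup fun K => L1 K (l + 1) d δ), ?_⟩
  intro L hL G N P R ι _ _ _ _ _ _ _ _ _ D E' hf Gb hA hA2 hA3 htau hcom b S hS h4 hS1 hS2 hS3
  have hLL₂ : L₂ ≤ L := (le_max_left _ _).trans hL
  have hfin := VEnd_tup S
  obtain ⟨W, hW⟩ : ∃ W : ℝ, W = ∏ i, (#(S i) : ℝ) := ⟨_, rfl⟩
  have hW0 : 0 ≤ W := by
    rw [hW]
    exact prod_nonneg fun i _ => Nat.cast_nonneg _
  rw [← hW] at hS1 hS2 hS3 ⊢
  -- the potential
  obtain ⟨Φ, hΦ⟩ : ∃ Φ : ℕ → ℝ, Φ = fun K => ∑ᶠ z ∈ {z ∈ tup S |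
      D.Pat (D.Dk z 1) b (l + 1) ∧ Nat.card (D.Dk z 1) ≤ 2 ^ d ∧ 16 ≤ Nat.card (D.Dk z K)},
      (Nat.card (D.Dk z K) : ℝ) := ⟨_, rfl⟩
  have hΦ1 : Φ 1 ≤ C * W := by
    rw [finsum_mem_eq_finite_toFinset_sum _ hfin] at hS1
    have h2 : C₀ * W ≤ C * W := mul_le_mul_of_nonneg_right (by rw [hC]; exact le_max_left _ _) hW0
    refine le_trans ?_ (hS1.trans h2)
    rw [hΦ]
    simp only
    rw [VEnd_fs hfin]
    exact sum_le_sum_of_subset_of_nonneg (filter_subset _ _) fun z _ _ => Nat.cast_nonneg _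
  have hΦs : ∀ K, 1 ≤ K → K ≤ l → Φ (K + 1) ≤ 61 / 64 * Φ K + δ * W := by
    intro K hK1 hK2
    have hKm := mem_Icc.mpr ⟨hK1, hK2⟩
    rw [hΦ, hW]
    refine hEL K (l + 1) d hK1 (by omega) δ hδ L ?_ D Gb hA hA2 htau hcom b S
      (VEnd_szc hS (le_sup (f := fun K => E1 K (l + 1) d δ) hKm))
    exact (le_sup (f := fun K => L1 K (l + 1) d δ) hKm).trans ((le_max_right _ _).trans hL)
  have hΦL : Φ (l + 1) ≤ 2 * ε * W := by
    refine (VEnd_iter Φ C δ W hδ.le hW0 l hΦ1 hΦs l le_rfl).trans ?_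
    exact mul_le_mul_of_nonneg_right (by linarith) hW0
  -- the exceptional sets
  have hA16 : (16 : ℝ) * #(hfin.toFinset.filter fun z => D.Pat (D.Dk z 1) b (l + 1) ∧
      Nat.card (D.Dk z 1) ≤ 2 ^ d ∧ 16 ≤ Nat.card (D.Dk z (l + 1))) ≤ 2 * ε * W := by
    refine le_trans ?_ hΦL
    rw [hΦ]
    simp only
    rw [VEnd_fs hfin, mul_comm, ← nsmul_eq_mul]
    refine card_nsmul_le_sum _ _ _ fun z hz => ?_
    have h1 := (mem_filter.mp hz).2.2.2
    exact_mod_cast h1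
  have hone : ∀ z ∈ hfin.toFinset, (1 : ℝ) ≤ (Nat.card (D.Dk z 1) : ℝ) := by
    intro z hz
    obtain ⟨s, hs⟩ := h4 z (hfin.mem_toFinset.mp hz)
    rw [hs]
    exact_mod_cast Nat.one_le_pow _ _ (by norm_num)
  have hB1 : (#(hfin.toFinset.filter fun z => ¬ D.Pat (D.Dk z 1) b (l + 1)) : ℝ) ≤ ε * W := by
    rw [VEnd_fs hfin] at hS3
    refine le_trans ?_ hS3
    rw [← nsmul_one]
    exact card_nsmul_le_sum _ _ _ fun z hz => hone z (mem_filter.mp hz).1
  have hB2 : (#(hfin.toFinset.filter fun z => 2 ^ d < Nat.card (D.Dk z 1)) : ℝ) ≤ ε * W := by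
    rw [VEnd_fs hfin] at hS2
    refine le_trans ?_ hS2
    rw [← nsmul_one]
    exact card_nsmul_le_sum _ _ _ fun z hz => hone z (mem_filter.mp hz).1
  have hTc : (1 - ε) * W ≤ (hfin.toFinset.card : ℝ) := by
    have h1 := (hInj (P := P) (ι := ι) (2 ^ (4 * L)) (Nat.one_le_two_pow) S hS.big).2
    rw [← hW, Set.ncard_eq_toFinset_card _ hfin] at h1
    refine le_trans (mul_le_mul_of_nonneg_right ?_ hW0) h1
    have hcard : Fintype.card ι ≤ L := by
      have h2 := hS.card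
      have h3 : Fintype.card ι ≤ Fintype.card (D.J ι) :=
        Fintype.card_le_of_injective (Sum.inr : ι → D.J ι) Sum.inr_injective
      omega
    have h5 : (Fintype.card ι : ℝ) ^ 2 ≤ 2 ^ (2 * L) := by
      have h6 : Fintype.card ι ≤ 2 ^ L := hcard.trans Nat.lt_two_pow_self.le
      have h7 : (Fintype.card ι : ℝ) ≤ 2 ^ L := by exact_mod_cast h6
      calc (Fintype.card ι : ℝ) ^ 2 ≤ (2 ^ L) ^ 2 := by gcongr
        _ = 2 ^ (2 * L) := by rw [← pow_mul, mul_comm]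
    have h8 : (Fintype.card ι : ℝ) ^ 2 / ((2 ^ (4 * L) : ℕ) : ℝ) ≤ ε := by
      push_cast
      rw [div_le_iff₀ (by positivity)]
      have h9 : (1 / 2 : ℝ) ^ (2 * L) ≤ ε := by
        refine le_trans ?_ hL₂.le
        exact pow_le_pow_of_le_one (by norm_num) (by norm_num) (by omega)
      calc (Fintype.card ι : ℝ) ^ 2 ≤ 2 ^ (2 * L) := h5
        _ = (1 / 2) ^ (2 * L) * 2 ^ (4 * L) := by
            rw [show 4 * L = 2 * L + 2 * L by ring, pow_add, ← mul_assoc, ← mul_pow]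
            norm_num
        _ ≤ ε * 2 ^ (4 * L) := by gcongr
    linarith
  have hfinal := VEnd_cnt hfin.toFinset
    (fun z => D.Pat (D.Dk z 1) b (l + 1) ∧ Nat.card (D.Dk z 1) ≤ 2 ^ d ∧
      16 ≤ Nat.card (D.Dk z (l + 1)))
    (fun z => ¬ D.Pat (D.Dk z 1) b (l + 1)) (fun z => 2 ^ d < Nat.card (D.Dk z 1))
    (fun z => D.Dk z (l + 1) = D.T ι) (fun z hz hnA hnB hnB' => by
      have hz' := hfin.mem_toFinset.mp hz
      have h1 : Nat.card (D.Dk z (l + 1)) < 16 := by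
        by_contra h2
        exact hnA ⟨not_not.mp hnB, not_lt.mp hnB', not_lt.mp h2⟩
      exact hEvn D E' hf hA hA2 hA3 z (hS.ok z hz') (h4 z hz') (l + 1) (by omega) h1)
  rw [VEnd_ncard hfin]
  nlinarith [mul_nonneg hε.le hW0]

end Pool.Agent.MP72S
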