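import Pool.Agent.Lib.MP_72e2e6_nt.Sm.N.SpecB

/-!
# MP_72e2e6_nt, `Sm/N`: module VHg (the completion rule for the partial functions)
-/

namespace Pool.Agent.MP72S

open Finset
open Pool.Agent.Lib.MP_72e2e6_nt.Sm.Cnt (vtx Corner CodingData)

open Classical in
private theorem VHg_main (hE : S_VLemE) (hCf : S_Cf) (hGdc : S_Gdc) (hV : S_VGfx)
    {G N P ι : Type} [Group G] [TopologicalSpace G]
    [AddCommGroup N] [DistribMulAction G N] [Fintype ι] [DecidableEq ι] {M : ℕ} (D : Dat G N P)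
    (hD : Ax D) (S : ι → Finset P) (g : Grd P ι M) (s : D.ST ι) (hg : D.Gok S g)
    (Lam : AddSubgroup (D.J ι → N)) (Ξ : Finset (D.J ι))
    (hLam : ∀ c p, D.Gp S g s c p → D.Dk (g.cf c p) 1 = Lam)
    (hSep : ∀ c p, D.Gp S g s c p → D.Sep (g.cf c p) (insert g.b g.I) Ξ)
    (θ : D.J ι → N) (h2 : 2 ≤ #g.I)
    (hθ : ∀ i ∈ g.I, 2 ^ (#g.I - 2) • θ (Sum.inr i) = 0)
    (c : P) (x p : {i // i ∈ g.I} → Fin M) (hxp : ∀ i, x i < p i)
    (hv : ∀ w, D.Gp S g s c (vtx x p w))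
    (hn : ∀ w, w ≠ (fun _ => true) → D.gfx S g s #g.I Lam Ξ θ c (vtx x p w) ≠ none) :
    ∃ v, D.gfx S g s #g.I Lam Ξ θ c p = some v ∧
      v.1.1 = -∑ w ∈ g.I.powerset.erase ∅, (-1 : ℤ) ^ #w •
        (D.gfx S g s #g.I Lam Ξ θ c (vtx x p fun i => decide (i.1 ∉ w))).elim 0
          (fun v => v.1.1) ∧
      ∀ ν, v.2 ν = ∑ w ∈ g.I.powerset.erase ∅,
        (D.gfx S g s #g.I Lam Ξ θ c (vtx x p fun i => decide (i.1 ∉ w))).elim 0
          (fun v => v.2 ν) := by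
  have hb := hg.hb
  have hmx : ∀ w : Finset ι, mx (g.cf c p) (g.cf c x) w =
      g.cf c (vtx x p fun i => decide (i.1 ∉ w)) := by
    intro w
    have h1 := (hCf g hb c c x p).1 w
    rw [ite_self] at h1
    exact h1
  have hGd : D.Gd (g.cf c p) (g.cf c x) g.I := (hGdc D S g s hg c c x p hxp).1 hv
  have htop : vtx x p (fun _ => true) = p := by
    funext i
    simp [vtx]
  have hp : D.Gp S g s c p := by
    have := hv (fun _ => true)
    rwa [htop] at this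
  have hinj : ∀ q q' : {i // i ∈ g.I} → Fin M, g.cf c q = g.cf c q' → q = q' := by
    intro q q' hqq
    funext i
    have e1 := (hCf g hb c c x q).2.2.1 i.1 i.2
    have e2 := (hCf g hb c c x q').2.2.1 i.1 i.2
    rw [hqq, e2] at e1
    have e3 := hg.inj e1
    exact (Prod.ext_iff.1 e3).2.symm
  have hex : ∀ w ⊆ g.I, w.Nonempty → ∃ v : D.GV #g.I Lam,
      D.gfx S g s #g.I Lam Ξ θ c (vtx x p fun i => decide (i.1 ∉ w)) = some v ∧
      D.Gv g #g.I Lam Ξ θ c (vtx x p fun i => decide (i.1 ∉ w)) v := by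
    intro w hw hwn
    obtain ⟨i, hi⟩ := hwn
    have hne : (fun i : {i // i ∈ g.I} => decide (i.1 ∉ w)) ≠ fun _ => true := by
      intro h
      have h3 := congrFun h ⟨i, hw hi⟩
      simp [hi] at h3
    obtain ⟨v, hvv⟩ := Option.ne_none_iff_exists'.1 (hn _ hne)
    exact ⟨v, hvv, ((hV D hD S g s hg #g.I Lam Ξ hLam hSep θ c _).1 v hvv).2⟩
  obtain ⟨ξ, hξ⟩ : ∃ ξ : (ι → P) → D.J ι → N, ∀ q, ξ (g.cf c q) =
      (D.gfx S g s #g.I Lam Ξ θ c q).elim 0 (fun v => v.1.1) := by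
    refine ⟨fun z => if h : ∃ q, g.cf c q = z then
      (D.gfx S g s #g.I Lam Ξ θ c h.choose).elim 0 (fun v => v.1.1) else 0, fun q => ?_⟩
    have h5 : ∃ q', g.cf c q' = g.cf c q := ⟨q, rfl⟩
    dsimp only
    rw [dif_pos h5, hinj _ _ h5.choose_spec]
  have hξw : ∀ w ⊆ g.I, w.Nonempty → ∃ v : D.GV #g.I Lam,
      D.gfx S g s #g.I Lam Ξ θ c (vtx x p fun i => decide (i.1 ∉ w)) = some v ∧
      D.Gv g #g.I Lam Ξ θ c (vtx x p fun i => decide (i.1 ∉ w)) v ∧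
      ξ (mx (g.cf c p) (g.cf c x) w) = v.1.1 := by
    intro w hw hwn
    obtain ⟨v, hv1, hv2⟩ := hex w hw hwn
    refine ⟨v, hv1, hv2, ?_⟩
    rw [hmx, hξ, hv1]
    rfl
  obtain ⟨η, hη⟩ : ∃ η : (ι → P) → G → N, ∀ w ⊆ g.I, w.Nonempty →
      D.IsH (mx (g.cf c p) (g.cf c x) w) (ξ (mx (g.cf c p) (g.cf c x) w))
        (η (mx (g.cf c p) (g.cf c x) w)) := by
    refine ⟨fun z => if h : ∃ η, D.IsH z (ξ z) η then h.choose else 0, fun w hw hwn => ?_⟩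
    have h5 : ∃ η, D.IsH (mx (g.cf c p) (g.cf c x) w) (ξ (mx (g.cf c p) (g.cf c x) w)) η := by
      obtain ⟨v, hv1, hv2, hv3⟩ := hξw w hw hwn
      rw [hv3, hmx]
      exact hv2.hf
    dsimp only
    rw [dif_pos h5]
    exact h5.choose_spec
  have hk1 : ∀ w ⊆ g.I, w.Nonempty → 2 ^ (#g.I - 1) • ξ (mx (g.cf c p) (g.cf c x) w) = 0 := by
    intro w hw hwn
    obtain ⟨v, hv1, hv2, hv3⟩ := hξw w hw hwn
    rw [hv3]
    exact v.1.2
  have hk2 : ∀ w ⊆ g.I, w.Nonempty → ∀ k ∈ Ξ, ξ (mx (g.cf c p) (g.cf c x) w) k = θ k := by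
    intro w hw hwn
    obtain ⟨v, hv1, hv2, hv3⟩ := hξw w hw hwn
    rw [hv3]
    exact hv2.rc
  obtain ⟨η', h6, h7⟩ := hE D hD (g.cf c p) (g.cf c x) g.I (insert g.b g.I) Ξ hGd h2
    (Finset.subset_insert _ _) (hSep c p hp) θ ξ hk1 hk2 hθ η hη
  have hmem : ∀ w ∈ g.I.powerset.erase ∅, w ⊆ g.I ∧ w.Nonempty := by
    intro w hw
    rw [Finset.mem_erase, Finset.mem_powerset] at hw
    exact ⟨hw.2, Finset.nonempty_of_ne_empty hw.1⟩
  have hc1 : 2 ^ (#g.I - 1) • cpl (g.cf c p) (g.cf c x) g.I ξ = 0 := by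
    unfold cpl
    rw [smul_neg, Finset.smul_sum, neg_eq_zero]
    refine Finset.sum_eq_zero fun w hw => ?_
    rw [smul_comm, hk1 w (hmem w hw).1 (hmem w hw).2, smul_zero]
  have hc2 : ∀ k ∈ Ξ, cpl (g.cf c p) (g.cf c x) g.I ξ k = θ k := by
    intro k hk
    unfold cpl
    rw [Pi.neg_apply, Finset.sum_apply]
    have h8 : ∀ w ∈ g.I.powerset.erase ∅, ((-1 : ℤ) ^ #w • ξ (mx (g.cf c p) (g.cf c x) w)) k =
        (-1 : ℤ) ^ #w • θ k := by
      intro w hw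
      rw [Pi.smul_apply, hk2 w (hmem w hw).1 (hmem w hw).2 k hk]
    rw [Finset.sum_congr rfl h8, ← Finset.sum_smul]
    have h9 : ∑ w ∈ g.I.powerset, (-1 : ℤ) ^ #w = 0 := by
      apply Finset.sum_powerset_neg_one_pow_card_of_nonempty
      rw [← Finset.card_pos]
      omega
    rw [← Finset.add_sum_erase _ _ (Finset.empty_mem_powerset g.I), Finset.card_empty,
      pow_zero] at h9
    have h10 : ∑ w ∈ g.I.powerset.erase ∅, (-1 : ℤ) ^ #w = -1 := by linarith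
    rw [h10, neg_smul, one_smul, neg_neg]
  obtain ⟨v, hv1, hv2⟩ := (hV D hD S g s hg #g.I Lam Ξ hLam hSep θ c p).2.1 hp _ η' hc1 hc2 h6
  have hGv := ((hV D hD S g s hg #g.I Lam Ξ hLam hSep θ c p).1 v hv1).2
  refine ⟨v, hv1, ?_, ?_⟩
  · rw [hv2]
    unfold cpl
    congr 1
    refine Finset.sum_congr rfl fun w hw => ?_
    rw [hmx, hξ]
  · intro ν
    by_cases hν : ∀ i ∈ g.I, ν.1 (Sum.inr i) = 0
    · have h11 := hGv.ob η' (by rw [hv2]; exact h6) ν hν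
      rw [h11, hv2, h7 ν.1 (fun w _ => by rw [hmx, hLam c _ (hv _)]; exact ν.2) hν]
      refine Finset.sum_congr rfl fun w hw => ?_
      obtain ⟨u, hu1, hu2, hu3⟩ := hξw w (hmem w hw).1 (hmem w hw).2
      have h12 := hη w (hmem w hw).1 (hmem w hw).2
      rw [hu3, hmx] at h12
      rw [hu3, hmx, hu1, ← hu2.ob _ h12 ν hν]
      rfl
    · rw [hGv.ob0 ν hν]
      symm
      refine Finset.sum_eq_zero fun w hw => ?_
      obtain ⟨u, hu1, hu2, hu3⟩ := hξw w (hmem w hw).1 (hmem w hw).2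
      rw [hu1]
      exact hu2.ob0 ν hν

theorem tVHg : S_VLemE → S_ObA → S_Cf → S_Gdc → S_VGfx → S_VHg := by
  classical
  intro hE _ hCf hGdc hV G N P ι _ _ _ _ _ _ M D hD S g s hg Lam Ξ hLam hSep θ h2 hθ c c' x p
    hxp hv hv' hn
  obtain ⟨v, a1, a2, a3⟩ := VHg_main hE hCf hGdc hV D hD S g s hg Lam Ξ hLam hSep θ h2 hθ c x p
    hxp hv (fun w hw => (hn w hw).1)
  obtain ⟨v', b1, b2, b3⟩ := VHg_main hE hCf hGdc hV D hD S g s hg Lam Ξ hLam hSep θ h2 hθ c' x p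
    hxp hv' (fun w hw => by rw [← (hn w hw).2]; exact (hn w hw).1)
  have hne : ∀ w ∈ g.I.powerset.erase ∅,
      D.gfx S g s #g.I Lam Ξ θ c (vtx x p fun i => decide (i.1 ∉ w)) =
        D.gfx S g s #g.I Lam Ξ θ c' (vtx x p fun i => decide (i.1 ∉ w)) := by
    intro w hw
    rw [Finset.mem_erase, Finset.mem_powerset] at hw
    obtain ⟨i, hi⟩ := Finset.nonempty_of_ne_empty hw.1
    refine (hn _ ?_).2
    intro h
    have h3 := congrFun h ⟨i, hw.2 hi⟩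
    simp [hi] at h3
  have e1 : v.1.1 = v'.1.1 := by
    rw [a2, b2]
    congr 1
    refine Finset.sum_congr rfl fun w hw => ?_
    rw [hne w hw]
  have e2 : v.2 = v'.2 := by
    funext ν
    rw [a3, b3]
    refine Finset.sum_congr rfl fun w hw => ?_
    rw [hne w hw]
  rw [a1, b1, Prod.ext (Subtype.ext e1) e2]

end Pool.Agent.MP72S
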