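import Pool.Agent.Lib.MP_72e2e6_nt.Sm.N.SpecB

/-!
# MP_72e2e6_nt, `Sm/N`: module VHz (the state is determined by the code and the partial functions)
-/

namespace Pool.Agent.MP72S

open Finset
open Pool.Agent.Lib.MP_72e2e6_nt.Sm.Cnt (vtx Corner CodingData)

theorem tVHz : S_Det → S_O1 → S_ObA → S_Dom → S_VGfx → S_VHz := by
  classical
  intro hDet hO1 _ hDom hV G N P ι _ _ _ _ _ _ _ M D hD hD2 S g s hg K Lam f γ t' Ξ hCho hLam
    hSep c c' hcod hgf p hZ
  obtain ⟨hXt, hXs, hXD, hXO⟩ := hZ
  have hGp : D.Gp S g s c p := ⟨hXt, hXs⟩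
  have hGp' : D.Gp S g s c' p := hDom D hD S g s hg c c' hcod p hGp
  have hok := hg.ok _ hXt
  have hok' := hg.ok _ hGp'.1
  have hL := hLam c p hGp
  have hL' := hLam c' p hGp'
  have hLL : D.Dk (g.cf c p) 1 = D.Dk (g.cf c' p) 1 := by rw [hL, hL']
  have key : D.Dk (g.cf c p) K = D.Dk (g.cf c' p) K ∧ D.O (g.cf c p) K = D.O (g.cf c' p) K := by
    by_cases hK : K = 1
    · subst hK
      exact ⟨hLL, by rw [hO1 D hD _ hok, hO1 D hD _ hok']⟩
    · have hK2 : 2 ≤ K := by
        have := hCho.hK
        omega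
      have hIn : g.I.Nonempty := by
        rw [← Finset.card_pos, hCho.cK]
        omega
      refine hDet D hD hD2 _ _ hok hok' hLL g.I hIn ?_ K hK2 ?_
      · intro ν hν
        rw [hL] at hν
        exact hCho.com ν hν
      · intro ξ hξ hξ'
        obtain ⟨θ, hθ⟩ : ∃ θ : D.J ι → N, θ = fun k => if k ∈ Ξ then ξ k else 0 := ⟨_, rfl⟩
        have t1 : 2 ^ (K - 1) • θ = 0 := by
          funext k
          rw [hθ]
          simp only [Pi.smul_apply, Pi.zero_apply]
          split_ifs
          · exact congrFun hξ k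
          · exact smul_zero _
        have t2 : ∀ k, k ∉ Ξ → θ k = 0 := by
          intro k hk
          rw [hθ]
          exact if_neg hk
        have t3 : ∀ i ∈ g.I, 2 ^ (K - 2) • θ (Sum.inr i) = 0 := by
          intro i hi
          rw [hθ]
          dsimp only
          split_ifs
          · exact hξ' i hi
          · exact smul_zero _
        have t4 : ∀ k ∈ Ξ, ξ k = θ k := by
          intro k hk
          rw [hθ]
          exact (if_pos hk).symm
        have h1 := congrFun (hgf θ hK2 t1 t2 t3) p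
        obtain ⟨A, B, -⟩ := hV D hD S g s hg K Lam Ξ hLam hSep θ c p
        obtain ⟨A', B', -⟩ := hV D hD S g s hg K Lam Ξ hLam hSep θ c' p
        refine ⟨⟨?_, ?_⟩, ?_⟩
        · rintro ⟨η, hη⟩
          obtain ⟨v, hv, hvx⟩ := B hGp ξ η hξ t4 hη
          rw [h1] at hv
          have h2 := (A' v hv).2.hf
          rwa [hvx] at h2
        · rintro ⟨η, hη⟩
          obtain ⟨v, hv, hvx⟩ := B' hGp' ξ η hξ t4 hη
          rw [← h1] at hv
          have h2 := (A v hv).2.hf
          rwa [hvx] at h2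
        · intro η η' hη hη' ν hν hνI
          obtain ⟨v, hv, hvx⟩ := B hGp ξ η hξ t4 hη
          have a1 := (A v hv).2
          rw [h1] at hv
          have a2 := (A' v hv).2
          rw [hL] at hν
          have b1 := a1.ob η (by rw [hvx]; exact hη) ⟨ν, hν⟩ hνI
          have b2 := a2.ob η' (by rw [hvx]; exact hη') ⟨ν, hν⟩ hνI
          rw [hvx] at b1 b2
          exact b1.symm.trans b2
  exact ⟨hGp'.1, hGp'.2, by rw [← key.1, hXD], by rw [← key.2, hXO]⟩

end Pool.Agent.MP72S
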