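import Pool.Agent.Lib.MP_72e2e6_nt.Sm.N.SpecA

/-!
# MP_72e2e6_nt, `Sm/N/VLemB`: alternating sums of Selmer cocycles over good cubes, families of
types (helper7)
-/

namespace Pool.Agent.MP72S

open Finset

private theorem VLemB_lc_sum {X A κ : Type} [TopologicalSpace X] [AddCommGroup A] (s : Finset κ)
    (f : κ → X → A) (h : ∀ i ∈ s, IsLocallyConstant (f i)) :
    IsLocallyConstant (fun x => ∑ i ∈ s, f i x) := by
  classical
  induction s using Finset.induction_on with
  | empty =>
    simp only [sum_empty]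
    exact IsLocallyConstant.const (0 : A)
  | insert i s hi ih =>
    have h1 := ih fun k hk => h k (mem_insert_of_mem hk)
    have h2 := h i (mem_insert_self i s)
    have h3 := h2.comp₂ h1 (fun a b => a + b)
    simpa [sum_insert hi] using h3

private theorem VLemB_congr {P ι A : Type} [DecidableEq ι] [AddCommGroup A] (x y : ι → P)
    (U : Finset ι) (f g : (ι → P) → A) (h : ∀ w ⊆ U, f (mx x y w) = g (mx x y w)) :
    alt x y U f = alt x y U g := by
  unfold alt
  exact sum_congr rfl fun w hw => by rw [h w (mem_powerset.mp hw)]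

private theorem VLemB_zero {P ι A : Type} [DecidableEq ι] [AddCommGroup A] (x y : ι → P)
    (U : Finset ι) (f : (ι → P) → A) (h : ∀ w ⊆ U, f (mx x y w) = 0) :
    alt x y U f = 0 := by
  unfold alt
  exact sum_eq_zero fun w hw => by rw [h w (mem_powerset.mp hw), smul_zero]

private theorem VLemB_const (hAlt : S_Alt) {P ι A : Type} [DecidableEq ι] [AddCommGroup A]
    (x y : ι → P) (U : Finset ι) (f : (ι → P) → A) (a : A) (h : ∀ w ⊆ U, f (mx x y w) = a)
    (hU : U.Nonempty ∨ a = 0) : alt x y U f = 0 := by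
  rcases hU with hU | rfl
  · rw [VLemB_congr x y U f (fun _ => a) h]
    exact (hAlt x y U f f).2.2.2.2.2.2.2 a hU
  · exact VLemB_zero x y U f h

private theorem VLemB_pow {A : Type} [AddCommGroup A] {t : A} {j a : ℕ} (h : 2 ^ j • t = 0)
    (hj : j ≤ a) : 2 ^ a • t = 0 := by
  obtain ⟨b, rfl⟩ := Nat.exists_eq_add_of_le hj
  rw [pow_add, mul_comm, mul_smul, h, smul_zero]

section

variable {G N P ι : Type} [Group G] [TopologicalSpace G] [AddCommGroup N] [DistribMulAction G N]
  [Fintype ι] [DecidableEq ι]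

omit [TopologicalSpace G] in
private theorem VLemB_tw {χ χ' : G → ZMod 2} {g : G} (h : χ g = χ' g) (Q : N) :
    tw χ g Q = tw χ' g Q := by
  rw [tw, tw, h]

/-- the places of the fixed indices are tame -/
private theorem VLemB_tame (hTai : S_Tai) {D : Dat G N P} (hD : Ax D) {x : ι → P} (hx : D.Ok x)
    (j : D.J ι) {R : N} (h1 : tw (D.chi x) (D.tau (D.pl x j)) R = R)
    (h2 : tw (D.chi x) (D.phi (D.pl x j)) R = R) : 2 • R = 0 := by
  rcases j with s | i
  · exact hx.tame s.1 s.2 R h1 h2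
  · have h3 : D.chi x (D.tau (x i)) = 1 := (hTai D hD x hx).1 i
    have h4 : tw (D.chi x) (D.tau (x i)) R = R := h1
    rw [tw, h3, sg_one', hD.unr (x i) (hx.nS i)] at h4
    rw [two_nsmul]
    nth_rewrite 1 [← h4]
    exact neg_add_cancel R

/-- the local data of the alternating sum at an index outside the cube -/
private theorem VLemB_loc (hChi : S_Chi) {D : Dat G N P} (hD : Ax D) {x y : ι → P}
    {U : Finset ι} (hG : D.Gd x y U) {t : (ι → P) → D.J ι → N}
    (hZ : ∀ w ⊆ U, t (mx x y w) ∈ D.Z (mx x y w)) (j : D.J ι) (hj : ∀ i ∈ U, j ≠ Sum.inr i) :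
    ∃ Q : N, 2 • Q = alt x y U (fun z => t z j) ∧
      D.Lo x (D.pl x j) Q (fun σ => alt x y U (fun z => D.coc z (t z) σ)) := by
  have hex : ∀ w, ∃ Q : N, w ⊆ U → (2 • Q = t (mx x y w) j ∧
      D.Lo (mx x y w) (D.pl (mx x y w) j) Q (D.coc (mx x y w) (t (mx x y w)))) := by
    intro w
    by_cases hw : w ⊆ U
    · obtain ⟨Q, h1, h2⟩ := (D.coc_spec (hZ w hw)).lo j
      exact ⟨Q, fun _ => ⟨h1, h2⟩⟩
    · exact ⟨0, fun h => absurd h hw⟩
  choose Q hQ using hex
  have hpl : ∀ w ⊆ U, D.pl (mx x y w) j = D.pl x j := by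
    intro w hw
    rcases j with s | i
    · rfl
    · have hi : i ∉ w := fun h => hj i (hw h) rfl
      exact if_neg hi
  have hchi : ∀ w ⊆ U, D.chi (mx x y w) (D.tau (D.pl x j)) = D.chi x (D.tau (D.pl x j)) ∧
      D.chi (mx x y w) (D.phi (D.pl x j)) = D.chi x (D.phi (D.pl x j)) := by
    intro w hw
    rcases j with s | i
    · exact (hChi D hD x y U hG w hw).1 s.1 s.2
    · have hi : i ∉ w := fun h => hj i (hw h) rfl
      exact (hChi D hD x y U hG w hw).2.1 i hi
  refine ⟨∑ w ∈ U.powerset, (-1 : ℤ) ^ #w • Q w, ?_, ?_, ?_⟩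
  · unfold alt
    rw [smul_sum]
    refine sum_congr rfl fun w hw => ?_
    show 2 • (-1 : ℤ) ^ #w • Q w = (-1 : ℤ) ^ #w • t (mx x y w) j
    rw [← (hQ w (mem_powerset.1 hw)).1, smul_comm]
  · unfold alt
    rw [tw_sum, ← sum_sub_distrib]
    refine sum_congr rfl fun w hw => ?_
    have hw' := mem_powerset.1 hw
    have h1 := (hQ w hw').2.1
    rw [hpl w hw'] at h1
    beta_reduce
    rw [h1, VLemB_tw (hchi w hw').1, tw_zsmul, smul_sub]
  · unfold alt
    rw [tw_sum, ← sum_sub_distrib]
    refine sum_congr rfl fun w hw => ?_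
    have hw' := mem_powerset.1 hw
    have h1 := (hQ w hw').2.2
    rw [hpl w hw'] at h1
    beta_reduce
    rw [h1, VLemB_tw (hchi w hw').2, tw_zsmul, smul_sub]

/-- the first claim -/
private theorem VLemB_main (hAlt : S_Alt) (hDif : S_Dif) (hGdf : S_Gdf) (hUq : S_Uq)
    (hTai : S_Tai) (hChi : S_Chi) (hSepF : S_SepF) {D : Dat G N P} (hD : Ax D)
    {I₀ : Finset ι} {Ξ : Finset (D.J ι)} (j : ℕ) :
    ∀ (x y : ι → P) (U : Finset ι), D.Gd x y U → U ⊆ I₀ → D.Sep x I₀ Ξ →
    ∀ (θ : D.J ι → N) (t : (ι → P) → D.J ι → N), j ≤ #U →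
    (∀ w ⊆ U, 2 ^ j • t (mx x y w) = 0) → (∀ w ⊆ U, ∀ k ∈ Ξ, t (mx x y w) k = θ k) →
    (∀ i ∈ U, 2 ^ (j - 1) • θ (Sum.inr i) = 0) →
    (∀ w ⊆ U, t (mx x y w) ∈ D.Z (mx x y w)) →
    ∀ σ, alt x y U (fun z => D.coc z (t z) σ) = 0 := by
  induction j using Nat.strong_induction_on with
  | _ j IH =>
  intro x y U hG hUI hSep θ t hj ht htθ hti hZ
  have hsp : ∀ w ⊆ U, D.IsZ (mx x y w) (t (mx x y w)) (D.coc (mx x y w) (t (mx x y w))) :=
    fun w hw => D.coc_spec (hZ w hw)
  have hmx0 : mx x y ∅ = x := (hAlt x y U (fun _ => (0 : ℤ)) (fun _ => 0)).1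
  have hmxi : ∀ i w, mx (Function.update x i (y i)) y w = mx x y (insert i w) :=
    (hAlt x y U (fun _ => (0 : ℤ)) (fun _ => 0)).2.2.1
  have hmxu : ∀ W w, mx (mx x y W) y w = mx x y (W ∪ w) :=
    (hAlt x y U (fun _ => (0 : ℤ)) (fun _ => 0)).2.2.2.1
  rcases Nat.eq_zero_or_pos j with rfl | hj1
  · intro σ
    refine VLemB_zero _ _ _ _ fun w hw => ?_
    have ht0 : t (mx x y w) = 0 := by simpa using ht w hw
    rw [ht0]
    exact (hUq D hD _).2.2.2.1 σ
  have hUne : U.Nonempty := card_pos.mp (lt_of_lt_of_le hj1 hj)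
  -- the values at higher levels
  have key : ∀ W ⊆ U, W.Nonempty → ∀ τ,
      2 ^ #W • alt (mx x y W) y (U \ W) (fun z => D.coc z (t z) τ) = 0 := by
    intro W hW hWn τ
    have h1 := (hAlt (mx x y W) y (U \ W) (fun z => D.coc z (t z) τ)
      (fun z => D.coc z (t z) τ)).2.2.2.2.2.2.1 (2 ^ #W)
    rw [← h1]
    have h2 : alt (mx x y W) y (U \ W) (fun z => 2 ^ #W • D.coc z (t z) τ) =
        alt (mx x y W) y (U \ W) (fun z => D.coc z (2 ^ #W • t z) τ) := by
      refine VLemB_congr _ _ _ _ _ fun w hw => ?_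
      rw [hmxu]
      exact ((hUq D hD _).2.2.1 _ (hZ _ (union_subset hW (hw.trans sdiff_subset))) _ τ).symm
    rw [h2]
    have hcW : 1 ≤ #W := card_pos.mpr hWn
    have hcU : #(U \ W) = #U - #W := card_sdiff_of_subset hW
    refine IH (j - #W) (by omega) (mx x y W) y (U \ W)
      ((hGdf D x y U hG).1 W hW (U \ W) sdiff_subset disjoint_sdiff) (sdiff_subset.trans hUI)
      (hSepF D hD x y U I₀ Ξ hG hUI hSep W hW) (2 ^ #W • θ) (fun z => 2 ^ #W • t z)
      ?_ ?_ ?_ ?_ ?_ τ
    · rw [hcU]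
      omega
    · intro w hw
      rw [hmxu, ← mul_smul, ← pow_add]
      exact VLemB_pow (ht _ (union_subset hW (hw.trans sdiff_subset))) (by omega)
    · intro w hw k hk
      rw [hmxu, Pi.smul_apply, Pi.smul_apply,
        htθ _ (union_subset hW (hw.trans sdiff_subset)) k hk]
    · intro i hi
      rw [Pi.smul_apply, ← mul_smul, ← pow_add]
      exact VLemB_pow (hti i (mem_sdiff.mp hi).1) (by omega)
    · intro w hw
      rw [hmxu]
      exact (D.Z _).nsmul_mem (hZ _ (union_subset hW (hw.trans sdiff_subset))) _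
  -- (i)
  have htwo : ∀ σ, 2 • alt x y U (fun z => D.coc z (t z) σ) = 0 := by
    intro σ
    have h1 := (hAlt x y U (fun z => D.coc z (t z) σ)
      (fun z => D.coc z (t z) σ)).2.2.2.2.2.2.1 2
    rw [← h1]
    have h2 : alt x y U (fun z => 2 • D.coc z (t z) σ) =
        alt x y U (fun z => D.coc z (2 • t z) σ) :=
      VLemB_congr _ _ _ _ _ fun w hw => ((hUq D hD _).2.2.1 _ (hZ w hw) 2 σ).symm
    rw [h2]
    refine IH (j - 1) (by omega) x y U hG hUI hSep (2 • θ) (fun z => 2 • t z) (by omega)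
      ?_ ?_ ?_ ?_ σ
    · intro w hw
      have : (2 : ℕ) ^ (j - 1) * 2 = 2 ^ j := by
        rw [← pow_succ]
        congr 1
        omega
      rw [← mul_smul, this, ht w hw]
    · intro w hw k hk
      rw [Pi.smul_apply, Pi.smul_apply, htθ w hw k hk]
    · intro i hi
      have : (2 : ℕ) ^ (j - 1 - 1) * 2 = 2 ^ (j - 1 - 1 + 1) := (pow_succ _ _).symm
      rw [Pi.smul_apply, ← mul_smul, this]
      exact VLemB_pow (hti i hi) (by omega)
    · intro w hw
      exact (D.Z _).nsmul_mem (hZ w hw) _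
  -- (ii)
  have hmul : ∀ σ τ, alt x y U (fun z => D.coc z (t z) (σ * τ)) =
      alt x y U (fun z => D.coc z (t z) σ) + alt x y U (fun z => D.coc z (t z) τ) := by
    intro σ τ
    have h1 := hDif D (fun z => D.coc z (t z)) x y U σ τ
    have h2 : alt x y U (fun z => D.coc z (t z) σ + tw (D.chi z) σ (D.coc z (t z) τ) -
        D.coc z (t z) (σ * τ)) = 0 := by
      refine VLemB_zero _ _ _ _ fun w hw => ?_
      rw [(hsp w hw).u.co σ τ, sub_self]
    have h3 : (∑ W ∈ (U.filter fun i => D.ch (x i) σ + D.ch (y i) σ = 1).powerset,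
          2 ^ #W • alt (mx x y W) y (U \ W) fun z => D.coc z (t z) τ) =
        alt x y U (fun z => D.coc z (t z) τ) := by
      rw [sum_eq_single_of_mem ∅ (empty_mem_powerset _)]
      · rw [card_empty, pow_zero, one_smul, sdiff_empty, hmx0]
      · intro W hW hWn
        exact key W ((mem_powerset.mp hW).trans (filter_subset _ _)) (nonempty_iff_ne_empty.mpr hWn) τ
    rw [h2, h3, tw_two hD.tri (htwo τ)] at h1
    have h4 := h1.symm
    rw [sub_add_eq_add_sub, sub_eq_zero] at h4
    exact h4.symm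
  have hHo : IsHo fun σ => alt x y U (fun z => D.coc z (t z) σ) := by
    refine ⟨?_, htwo, hmul⟩
    have h1 := VLemB_lc_sum U.powerset
      (fun w σ => (-1 : ℤ) ^ #w • D.coc (mx x y w) (t (mx x y w)) σ)
      (fun w hw => (hsp w (mem_powerset.mp hw)).u.lc.comp (fun a => (-1 : ℤ) ^ #w • a))
    exact h1
  have hok0 : D.Ok x := by
    have := hG.ok ∅ (empty_subset U)
    rwa [hmx0] at this
  -- the recorded indices outside the cube
  have hrec : ∀ k ∈ Ξ, (∀ i ∈ U, k ≠ Sum.inr i) →
      alt x y U (fun z => D.coc z (t z) (D.tau (D.pl x k))) = 0 ∧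
      alt x y U (fun z => D.coc z (t z) (D.phi (D.pl x k))) = 0 := by
    intro k hk hkU
    obtain ⟨Q, h1, h2⟩ := VLemB_loc hChi hD hG hZ k hkU
    rw [VLemB_const hAlt x y U (fun z => t z k) (θ k) (fun w hw => htθ w hw k hk)
      (Or.inl hUne)] at h1
    refine ⟨?_, ?_⟩
    · have h3 := h2.1
      rw [tw_two hD.tri h1, sub_self] at h3
      exact h3
    · have h3 := h2.2
      rw [tw_two hD.tri h1, sub_self] at h3
      exact h3
  have hlast : ∀ i ∈ U, (U.erase i).Nonempty ∨ -θ (Sum.inr i) = 0 := by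
    intro i hi
    rcases (U.erase i).eq_empty_or_nonempty with he | hne
    · right
      have h1 : #(U.erase i) = #U - 1 := card_erase_of_mem hi
      rw [he, card_empty] at h1
      have h2 : j - 1 = 0 := by omega
      have h3 := hti i hi
      rw [h2, pow_zero, one_smul] at h3
      rw [h3, neg_zero]
    · exact Or.inl hne
  -- (iii)
  have hur : ∀ v, v ∉ D.S → (∀ i, i ∉ I₀ → v ≠ x i) →
      alt x y U (fun z => D.coc z (t z) (D.tau v)) = 0 := by
    intro v hv hvI
    by_cases hx : ∃ i, v = x i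
    · obtain ⟨i, rfl⟩ := hx
      have hiI : i ∈ I₀ := by
        by_contra h
        exact hvI i h rfl
      by_cases hi : i ∈ U
      · have hU' : U = insert i (U.erase i) := (insert_erase hi).symm
        rw [hU', (hAlt x y (U.erase i) (fun z => D.coc z (t z) (D.tau (x i)))
          (fun z => D.coc z (t z) (D.tau (x i)))).2.2.2.2.1 i (notMem_erase i U)]
        rw [VLemB_const hAlt x y (U.erase i) _ (-θ (Sum.inr i)) ?_ (hlast i hi),
          VLemB_zero (Function.update x i (y i)) y (U.erase i) _ ?_, sub_zero]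
        · intro w hw
          rw [hmxi]
          have hwU : insert i w ⊆ U := insert_subset hi (hw.trans (erase_subset i U))
          refine (hsp _ hwU).u.ur _ ?_
          rintro ⟨jj, hjj⟩
          rcases jj with s | jj
          · exact hv (by rw [← hjj]; exact s.2)
          · by_cases hji : jj ∈ insert i w
            · have h1 : D.pl (mx x y (insert i w)) (Sum.inr jj) = y jj := if_pos hji
              rw [h1] at hjj
              exact (hGdf D x y U hG).2.1 jj (hwU hji) i hjj
            · have h1 : D.pl (mx x y (insert i w)) (Sum.inr jj) = x jj := if_neg hji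
              rw [h1] at hjj
              have h2 := hok0.inj hjj
              subst h2
              exact hji (mem_insert_self _ _)
        · intro w hw
          have hiw : i ∉ w := fun h => notMem_erase i U (hw h)
          have hwU : w ⊆ U := hw.trans (erase_subset i U)
          have h1 := (hTai D hD (mx x y w) (hG.ok w hwU)).2.2.2.2.1 i _ _ (hsp w hwU)
          have h2 : mx x y w i = x i := if_neg hiw
          rw [h2, htθ w hwU _ (hSep.sub i hiI)] at h1
          exact h1
      · exact (hrec (Sum.inr i) (hSep.sub i hiI) fun k hk h => hi (by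
          rw [Sum.inr.inj h]
          exact hk)).1
    by_cases hy : ∃ i ∈ U, v = y i
    · obtain ⟨i, hi, rfl⟩ := hy
      have hU' : U = insert i (U.erase i) := (insert_erase hi).symm
      rw [hU', (hAlt x y (U.erase i) (fun z => D.coc z (t z) (D.tau (y i)))
        (fun z => D.coc z (t z) (D.tau (y i)))).2.2.2.2.1 i (notMem_erase i U)]
      rw [VLemB_zero x y (U.erase i) _ ?_,
        VLemB_const hAlt (Function.update x i (y i)) y (U.erase i) _ (-θ (Sum.inr i)) ?_
          (hlast i hi), sub_zero]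
      · intro w hw
        rw [hmxi]
        have hwU : insert i w ⊆ U := insert_subset hi (hw.trans (erase_subset i U))
        have h1 := (hTai D hD (mx x y (insert i w)) (hG.ok _ hwU)).2.2.2.2.1 i _ _ (hsp _ hwU)
        have h2 : mx x y (insert i w) i = y i := if_pos (mem_insert_self i w)
        rw [h2, htθ _ hwU _ (hSep.sub i (hUI hi))] at h1
        exact h1
      · intro w hw
        have hiw : i ∉ w := fun h => notMem_erase i U (hw h)
        have hwU : w ⊆ U := hw.trans (erase_subset i U)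
        refine (hsp _ hwU).u.ur _ ?_
        rintro ⟨jj, hjj⟩
        rcases jj with s | jj
        · exact hv (by rw [← hjj]; exact s.2)
        · by_cases hji : jj ∈ w
          · have h1 : D.pl (mx x y w) (Sum.inr jj) = y jj := if_pos hji
            rw [h1] at hjj
            have hne : i ≠ jj := fun h => hiw (h ▸ hji)
            exact (hGdf D x y U hG).2.2.2 i hi jj (hwU hji) hne hjj.symm
          · have h1 : D.pl (mx x y w) (Sum.inr jj) = x jj := if_neg hji
            rw [h1] at hjj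
            exact (hGdf D x y U hG).2.1 i hi jj hjj.symm
    · refine VLemB_zero _ _ _ _ fun w hw => (hsp w hw).u.ur _ ?_
      rintro ⟨jj, hjj⟩
      rcases jj with s | jj
      · exact hv (by rw [← hjj]; exact s.2)
      · by_cases hji : jj ∈ w
        · have h1 : D.pl (mx x y w) (Sum.inr jj) = y jj := if_pos hji
          rw [h1] at hjj
          exact hy ⟨jj, hw hji, hjj.symm⟩
        · have h1 : D.pl (mx x y w) (Sum.inr jj) = x jj := if_neg hji
          rw [h1] at hjj
          exact hx ⟨jj, hjj.symm⟩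
  have hW : D.IsW x I₀ fun σ => alt x y U (fun z => D.coc z (t z) σ) := by
    refine ⟨hHo, hur, fun k hk => ?_⟩
    obtain ⟨Q, h1, h2⟩ := VLemB_loc hChi hD hG hZ k fun i hi => hk i (hUI hi)
    refine ⟨Q, ?_, h2⟩
    have h3 : ∀ g, alt x y U (fun z => D.coc z (t z) g) = tw (D.chi x) g Q - Q →
        tw (D.chi x) g (2 • Q) = 2 • Q := by
      intro g hg
      have h4 := htwo g
      rw [hg, smul_sub, ← tw_nsmul, sub_eq_zero] at h4
      exact h4
    have h4 := VLemB_tame hTai hD hok0 k (h3 _ h2.1) (h3 _ h2.2)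
    rwa [← mul_smul] at h4
  exact hSep.sep _ hW fun k hk hkF => hrec k hk fun i hi => hkF i (hUI hi)

end

theorem tVLemB : S_Alt → S_Dif → S_Gdf → S_Hom → S_Uq → S_Tai → S_Chi → S_Lfx → S_SepF →
    S_VLemB := by
  intro hAlt hDif hGdf _ hUq hTai hChi _ hSepF G N P ι _ _ _ _ _ _ D hD x y U I₀ Ξ hG hUI hSep j
    θ t hj ht htθ hti hZ
  have hmain := VLemB_main hAlt hDif hGdf hUq hTai hChi hSepF hD j x y U hG hUI hSep θ t hj ht
    htθ hti hZ
  refine ⟨hmain, fun hUne => ?_⟩
  have hmx0 : mx x y ∅ = x := (hAlt x y U (fun _ => (0 : ℤ)) (fun _ => 0)).1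
  have hok0 : D.Ok x := by
    have := hG.ok ∅ (empty_subset U)
    rwa [hmx0] at this
  funext k
  have h0 : alt x y U t k = alt x y U (fun z => t z k) := by
    unfold alt
    rw [Finset.sum_apply]
    rfl
  rw [h0, Pi.zero_apply]
  by_cases hk : ∃ i ∈ U, k = Sum.inr i
  · obtain ⟨i, hi, rfl⟩ := hk
    exact VLemB_const hAlt x y U _ (θ (Sum.inr i))
      (fun w hw => htθ w hw _ (hSep.sub i (hUI hi))) (Or.inl hUne)
  · push Not at hk
    obtain ⟨Q, h1, h2⟩ := VLemB_loc hChi hD hG hZ k hk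
    rw [← h1]
    have h3 : alt x y U (fun z => D.coc z (t z) (D.tau (D.pl x k))) = _ := h2.1
    have h4 : alt x y U (fun z => D.coc z (t z) (D.phi (D.pl x k))) = _ := h2.2
    rw [hmain, eq_comm, sub_eq_zero] at h3 h4
    exact VLemB_tame hTai hD hok0 k h3 h4

end Pool.Agent.MP72S
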