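import Pool.Agent.Lib.MP_72e2e6_nt.Sm.N.SpecA

/-!
# MP_72e2e6_nt, `Sm/N/VLemD`: completion of a cube, families of types
-/

namespace Pool.Agent.MP72S

open Finset

private theorem VLemD_lc_sum {X A κ : Type} [TopologicalSpace X] [AddCommGroup A] (s : Finset κ)
    (f : κ → X → A) (h : ∀ i ∈ s, IsLocallyConstant (f i)) :
    IsLocallyConstant (fun x => ∑ i ∈ s, f i x) := by
  classical
  induction s using Finset.induction_on with
  | empty =>
    simp only [sum_empty]
    exact IsLocallyConstant.const (0 : A)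
  | insert i s hi ih =>
    have h1 := ih fun k hk => h k (mem_insert_of_mem hk)
    have h2 := h i (mem_insert_self i s)
    have h3 := h2.comp₂ h1 (fun a b => a + b)
    simpa [sum_insert hi] using h3

private theorem VLemD_congr {P ι A : Type} [DecidableEq ι] [AddCommGroup A] (x y : ι → P)
    (U : Finset ι) (f g : (ι → P) → A) (h : ∀ w ⊆ U, f (mx x y w) = g (mx x y w)) :
    alt x y U f = alt x y U g := by
  unfold alt
  exact sum_congr rfl fun w hw => by rw [h w (mem_powerset.mp hw)]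

private theorem VLemD_pow {A : Type} [AddCommGroup A] {t : A} {j a : ℕ} (h : 2 ^ j • t = 0)
    (hj : j ≤ a) : 2 ^ a • t = 0 := by
  obtain ⟨b, rfl⟩ := Nat.exists_eq_add_of_le hj
  rw [pow_add, mul_comm, mul_smul, h, smul_zero]

private theorem VLemD_const {P ι A : Type} [DecidableEq ι] [AddCommGroup A] (hAlt : S_Alt)
    (x y : ι → P) (U : Finset ι) (hU : U.Nonempty) (Q : Finset ι → A) (a : A)
    (hQ : ∀ w ⊆ U, w.Nonempty → Q w = a) :
    -∑ w ∈ U.powerset.erase ∅, (-1 : ℤ) ^ #w • Q w = a := by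
  have h1 : ∑ w ∈ U.powerset, (-1 : ℤ) ^ #w • a = 0 :=
    (hAlt x y U (fun _ => a) (fun _ => a)).2.2.2.2.2.2.2 a hU
  have h2 := sum_erase_eq_sub (s := U.powerset) (a := ∅)
    (f := fun w => (-1 : ℤ) ^ #w • a) (empty_mem_powerset U)
  rw [h1, card_empty, pow_zero, one_smul, zero_sub] at h2
  have h3 : ∑ w ∈ U.powerset.erase ∅, (-1 : ℤ) ^ #w • Q w =
      ∑ w ∈ U.powerset.erase ∅, (-1 : ℤ) ^ #w • a := by
    refine sum_congr rfl fun w hw => ?_
    rw [mem_erase, mem_powerset] at hw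
    rw [hQ w hw.2 (nonempty_iff_ne_empty.mpr hw.1)]
  rw [h3, h2, neg_neg]

private theorem VLemD_half {ι A : Type} [DecidableEq ι] [AddCommGroup A]
    (U : Finset ι) (Q a : Finset ι → A) (hQ : ∀ w ⊆ U, w.Nonempty → 2 • Q w = a w) :
    2 • (-∑ w ∈ U.powerset.erase ∅, (-1 : ℤ) ^ #w • Q w) =
      -∑ w ∈ U.powerset.erase ∅, (-1 : ℤ) ^ #w • a w := by
  rw [smul_neg, smul_sum]
  congr 1
  refine sum_congr rfl fun w hw => ?_
  rw [mem_erase, mem_powerset] at hw
  rw [smul_comm, hQ w hw.2 (nonempty_iff_ne_empty.mpr hw.1)]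

private theorem VLemD_cpl {P ι κ A : Type} [DecidableEq ι] [AddCommGroup A] (x y : ι → P)
    (U : Finset ι) (t : (ι → P) → κ → A) (k : κ) :
    cpl x y U t k = -∑ w ∈ U.powerset.erase ∅, (-1 : ℤ) ^ #w • t (mx x y w) k := by
  unfold cpl
  rw [Pi.neg_apply, Finset.sum_apply]
  rfl

theorem tVLemD : S_Alt → S_Gdf → S_Uq → S_Tai → S_Chi → S_Cmp → S_CmL → S_SepF → S_VLemB →
    S_VLemD := by
  intro hAlt hGdf hUq hTai hChi hCmp hCmL hSepF hVLemB G N P ι _ _ _ _ _ _ D hD x y U I₀ Ξ hG
    hUne hUI hSep θ t ht hθ hti hZ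
  have hn1 : 1 ≤ #U := card_pos.mpr hUne
  have f1 : ∀ k ∈ Ξ, cpl x y U t k = θ k := by
    intro k hk
    rw [VLemD_cpl]
    exact VLemD_const hAlt x y U hUne (fun w => t (mx x y w) k) (θ k)
      fun w hw hwn => hθ w hw hwn k hk
  have f2 : 2 ^ (#U - 1) • cpl x y U t = 0 := by
    unfold cpl
    rw [smul_neg, smul_sum, sum_eq_zero, neg_zero]
    intro w hw
    rw [mem_erase, mem_powerset] at hw
    rw [smul_comm, ht w hw.2 (nonempty_iff_ne_empty.mpr hw.1), smul_zero]
  suffices hmain : D.IsZ x (cpl x y U t) (cmp x y U (fun z => D.coc z (t z))) from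
    ⟨⟨_, hmain⟩, f2, f1, (hUq D hD x).1 _ _ hmain⟩
  rcases Nat.eq_or_lt_of_le hn1 with hn | hn
  · rw [← hn] at ht
    have ht0 : ∀ w ⊆ U, w.Nonempty → t (mx x y w) = 0 := by
      intro w hw hwn
      simpa using ht w hw hwn
    have e1 : cpl x y U t = 0 := by
      unfold cpl
      rw [sum_eq_zero, neg_zero]
      intro w hw
      rw [mem_erase, mem_powerset] at hw
      rw [ht0 w hw.2 (nonempty_iff_ne_empty.mpr hw.1), smul_zero]
    have e2 : cmp x y U (fun z => D.coc z (t z)) = fun _ => 0 := by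
      funext σ
      unfold cmp
      rw [sum_eq_zero, neg_zero]
      intro w hw
      rw [mem_erase, mem_powerset] at hw
      beta_reduce
      rw [ht0 w hw.2 (nonempty_iff_ne_empty.mpr hw.1), (hUq D hD _).2.2.2.1, smul_zero]
    rw [e1, e2]
    exact D.isZ_zero x
  have hsp : ∀ w ⊆ U, w.Nonempty →
      D.IsZ (mx x y w) (t (mx x y w)) (D.coc (mx x y w) (t (mx x y w))) := fun w hw hwn =>
    D.coc_spec (hZ w hw hwn)
  have hmxi : ∀ i w, mx (Function.update x i (y i)) y w = mx x y (insert i w) :=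
    (hAlt x y U (fun _ => (0 : ℤ)) (fun _ => 0)).2.2.1
  have hmxu : ∀ W w, mx (mx x y W) y w = mx x y (W ∪ w) :=
    (hAlt x y U (fun _ => (0 : ℤ)) (fun _ => 0)).2.2.2.1
  have hupd : ∀ i, Function.update x i (y i) = mx x y {i} := by
    intro i
    have h1 := hmxi i ∅
    rw [(hAlt (Function.update x i (y i)) y U (fun _ => (0 : ℤ)) (fun _ => 0)).1] at h1
    simpa using h1
  -- the values at higher levels
  have key : ∀ W ⊆ U, W.Nonempty → ∀ τ,
      2 ^ #W • alt (mx x y W) y (U \ W) (fun z => D.coc z (t z) τ) = 0 := by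
    intro W hW hWn τ
    have h1 := (hAlt (mx x y W) y (U \ W) (fun z => D.coc z (t z) τ)
      (fun z => D.coc z (t z) τ)).2.2.2.2.2.2.1 (2 ^ #W)
    rw [← h1]
    have hne : ∀ w, (W ∪ w).Nonempty := fun w => hWn.mono subset_union_left
    have h2 : alt (mx x y W) y (U \ W) (fun z => 2 ^ #W • D.coc z (t z) τ) =
        alt (mx x y W) y (U \ W) (fun z => D.coc z (2 ^ #W • t z) τ) := by
      refine VLemD_congr _ _ _ _ _ fun w hw => ?_
      rw [hmxu]
      exact ((hUq D hD _).2.2.1 (t _) (hZ _ (union_subset hW (hw.trans sdiff_subset)) (hne w)) _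
        τ).symm
    rw [h2]
    have hcW : 1 ≤ #W := card_pos.mpr hWn
    have hcU : #(U \ W) = #U - #W := card_sdiff_of_subset hW
    refine (hVLemB D hD (mx x y W) y (U \ W) I₀ Ξ
      ((hGdf D x y U hG).1 W hW (U \ W) sdiff_subset disjoint_sdiff)
      (sdiff_subset.trans hUI) (hSepF D hD x y U I₀ Ξ hG hUI hSep W hW) (#U - 1 - #W)
      (2 ^ #W • θ) (fun z => 2 ^ #W • t z) ?_ ?_ ?_ ?_ ?_).1 τ
    · rw [hcU]
      omega
    · intro w hw
      rw [hmxu, ← mul_smul, ← pow_add]
      exact VLemD_pow (ht _ (union_subset hW (hw.trans sdiff_subset)) (hne w)) (by omega)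
    · intro w hw k hk
      rw [hmxu, Pi.smul_apply, Pi.smul_apply,
        hθ _ (union_subset hW (hw.trans sdiff_subset)) (hne w) k hk]
    · intro i hi
      rw [Pi.smul_apply, ← mul_smul, ← pow_add]
      exact VLemD_pow (hti i (mem_sdiff.mp hi).1) (by omega)
    · intro w hw
      rw [hmxu]
      exact (D.Z _).nsmul_mem (hZ _ (union_subset hW (hw.trans sdiff_subset)) (hne w)) _
  have hface : ∀ i ∈ U, ∀ g,
      alt (Function.update x i (y i)) y (U.erase i) (fun z => D.coc z (t z) g) = 0 := by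
    intro i hi g
    have hc : #(U.erase i) = #U - 1 := card_erase_of_mem hi
    have hins : ∀ w ⊆ U.erase i, insert i w ⊆ U := fun w hw =>
      insert_subset hi (hw.trans (erase_subset i U))
    refine (hVLemB D hD (Function.update x i (y i)) y (U.erase i) I₀ Ξ ?_
      ((erase_subset i U).trans hUI) ?_ (#U - 1) θ t ?_ ?_ ?_ ?_ ?_).1 g
    · rw [hupd]
      exact (hGdf D x y U hG).1 {i} (singleton_subset_iff.mpr hi) (U.erase i) (erase_subset i U)
        (disjoint_singleton_left.mpr (notMem_erase i U))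
    · rw [hupd]
      exact hSepF D hD x y U I₀ Ξ hG hUI hSep {i} (singleton_subset_iff.mpr hi)
    · rw [hc]
    · intro w hw
      rw [hmxi]
      exact ht _ (hins w hw) (insert_nonempty i w)
    · intro w hw k hk
      rw [hmxi]
      exact hθ _ (hins w hw) (insert_nonempty i w) k hk
    · intro k hk
      exact VLemD_pow (hti k (mem_of_mem_erase hk)) (by omega)
    · intro w hw
      rw [hmxi]
      exact hZ _ (hins w hw) (insert_nonempty i w)
  have hex : ∀ (w : Finset ι) (j : D.J ι), ∃ Q : N, w ⊆ U → w.Nonempty →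
      2 • Q = t (mx x y w) j ∧
        D.Lo (mx x y w) (D.pl (mx x y w) j) Q (D.coc (mx x y w) (t (mx x y w))) := by
    intro w j
    by_cases h : w ⊆ U ∧ w.Nonempty
    · obtain ⟨Q, hQ⟩ := (hsp w h.1 h.2).lo j
      exact ⟨Q, fun _ _ => hQ⟩
    · exact ⟨0, fun h1 h2 => absurd ⟨h1, h2⟩ h⟩
  choose Q hQ using hex
  obtain ⟨c1, c2, -, c4, c5⟩ := hCmL D hD x y U hG (fun z => D.coc z (t z)) Q
    (fun w hw hwn => (hsp w hw hwn).u) (fun w hw hwn j _ => (hQ w j hw hwn).2)
  refine ⟨⟨?_, ?_, ⟨#U - 1, fun σ => ?_⟩, fun v hv => ?_⟩, fun j => ?_⟩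
  · have h1 := VLemD_lc_sum (U.powerset.erase ∅)
      (fun w σ => (-1 : ℤ) ^ #w • D.coc (mx x y w) (t (mx x y w)) σ) (fun w hw => ?_)
    · exact h1.comp (fun a => -a)
    · rw [mem_erase, mem_powerset] at hw
      exact (hsp w hw.2 (nonempty_iff_ne_empty.mpr hw.1)).u.lc.comp (fun a => (-1 : ℤ) ^ #w • a)
  · exact hCmp D (fun z => D.coc z (t z)) x y U hG.ne (fun w hw hwn => (hsp w hw hwn).u.co) key
  · unfold cmp
    rw [smul_neg, smul_sum, sum_eq_zero, neg_zero]
    intro w hw
    rw [mem_erase, mem_powerset] at hw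
    rw [smul_comm, (hUq D hD _).2.2.2.2 (t _)
      (hZ w hw.2 (nonempty_iff_ne_empty.mpr hw.1)) _
      (ht w hw.2 (nonempty_iff_ne_empty.mpr hw.1)), smul_zero]
  · by_cases h : ∃ i ∈ U, v = y i
    · obtain ⟨i, hi, rfl⟩ := h
      rw [c4 i hi]
      exact hface i hi _
    · exact c5 v hv fun i hi h' => h ⟨i, hi, h'⟩
  · by_cases h : ∃ i ∈ U, j = Sum.inr i
    · obtain ⟨i, hi, rfl⟩ := h
      have hne : (U.erase i).Nonempty := by
        rw [← card_pos, card_erase_of_mem hi]
        omega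
      have hiX : Sum.inr i ∈ Ξ := hSep.sub i (hUI hi)
      refine ⟨-∑ w ∈ (U.erase i).powerset.erase ∅, (-1 : ℤ) ^ #w • Q w (Sum.inr i), ?_, ?_⟩
      · rw [f1 _ hiX, VLemD_half (U.erase i) (fun w => Q w (Sum.inr i))
          (fun _ => θ (Sum.inr i))]
        · exact VLemD_const hAlt x y (U.erase i) hne (fun _ => θ (Sum.inr i)) _
            fun w _ _ => rfl
        · intro w hw hwn
          rw [(hQ w _ (hw.trans (erase_subset i U)) hwn).1]
          exact hθ w (hw.trans (erase_subset i U)) hwn _ hiX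
      · have h1 : ∀ g, g = D.tau (x i) ∨ g = D.phi (x i) →
            cmp x y U (fun z => D.coc z (t z)) g =
            tw (D.chi x) g
              (-∑ w ∈ (U.erase i).powerset.erase ∅, (-1 : ℤ) ^ #w • Q w (Sum.inr i)) -
            (-∑ w ∈ (U.erase i).powerset.erase ∅, (-1 : ℤ) ^ #w • Q w (Sum.inr i)) := by
          intro g hg
          have h2 := c2 i hi g hg ?_
          · rw [hface i hi g, add_zero] at h2
            exact h2
          · intro w hw hwn
            have hwU : w ⊆ U := hw.trans (erase_subset i U)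
            have hiw : i ∉ w := fun h => notMem_erase i U (hw h)
            have h3 := (hQ w (Sum.inr i) hwU hwn).2
            have h4 : D.pl (mx x y w) (Sum.inr i) = x i := if_neg hiw
            rw [h4] at h3
            have h5 := (hChi D hD x y U hG w hwU).2.1 i hiw
            rcases hg with rfl | rfl
            · have h6 := h3.1
              unfold tw at h6 ⊢
              rw [h5.1] at h6
              exact h6
            · have h6 := h3.2
              unfold tw at h6 ⊢
              rw [h5.2] at h6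
              exact h6
        exact ⟨h1 _ (Or.inl rfl), h1 _ (Or.inr rfl)⟩
    · have hj : ∀ i ∈ U, j ≠ Sum.inr i := fun i hi h' => h ⟨i, hi, h'⟩
      refine ⟨_, ?_, c1 j hj⟩
      rw [VLemD_cpl]
      exact VLemD_half U (fun w => Q w j) (fun w => t (mx x y w) j)
        fun w hw hwn => (hQ w j hw hwn).1

end Pool.Agent.MP72S
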