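import Pool.Agent.Lib.MP_72e2e6_nt.Sm.N.SpecD

/-!
# The number of the classes of primes (proof of `S_VNcl`)
-/

namespace Pool.Agent.MP72S

open Finset

theorem tVNcl : S_Bas → S_VCrd → S_VNcl := by
  intro _ h2 G N P ι _ _ _ _ _ _ D hA I₀ z
  classical
  obtain ⟨hM, hM'⟩ := (@h2 G N P ι _ _ _ _ _ _ D hA).1 2
  have e4 : ((2 : ℕ) ^ 2) = 4 := by norm_num
  rw [e4] at hM hM'
  have hMf : Finite {u : N // 4 • u = 0} := hM.to_subtype
  have hMc : Nat.card {u : N // 4 • u = 0} ≤ 16 := by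
    have : Nat.card {u : N // 4 • u = 0} = {x : N | 4 • x = 0}.ncard := rfl
    rw [this]
    exact hM'.trans (by norm_num)
  set F : (ι → ZMod 2) × ({v // v ∈ D.S} → ZMod 2 × ZMod 2 × ZMod 2) × (ZMod 2 × ZMod 2) ×
      ({u : N // 4 • u = 0} → {u : N // 4 • u = 0}) → D.CL ι :=
    fun t => (t.1, t.2.1, t.2.2.1, fun u => (t.2.2.2 u).1) with hF
  have hsub : Set.range (D.kap I₀ z) ⊆ Set.range F := by
    rintro _ ⟨c, rfl⟩
    refine ⟨(fun j => if j ∈ I₀ then 0 else D.ch c (D.phi (z j)),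
      fun s => (D.ch c (D.tau s.1), D.ch c (D.phi s.1),
        if s.1 = D.inf then 0 else D.ch s.1 (D.phi c)),
      (D.cst (D.phi c), D.ch0 (D.phi c)), fun u => ⟨D.phi c • u.1, ?_⟩), ?_⟩
    · rw [← smul_comm, u.2, smul_zero]
    · simp only [hF, Dat.kap]
  have hfr : (Set.range F).Finite := Set.finite_range F
  refine ⟨hfr.subset hsub, (Set.ncard_le_ncard hsub hfr).trans ?_⟩
  have h1 : (Set.range F).ncard ≤ Nat.card ((ι → ZMod 2) ×
      ({v // v ∈ D.S} → ZMod 2 × ZMod 2 × ZMod 2) × (ZMod 2 × ZMod 2) ×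
      ({u : N // 4 • u = 0} → {u : N // 4 • u = 0})) := by
    rw [← Set.image_univ, ← Set.ncard_univ]
    exact Set.ncard_image_le Set.finite_univ
  refine h1.trans ?_
  have h2c : Nat.card (ZMod 2) = 2 := Nat.card_zmod 2
  rw [Nat.card_prod, Nat.card_prod, Nat.card_prod, Nat.card_prod, Nat.card_fun, Nat.card_fun,
    Nat.card_fun, Nat.card_prod, Nat.card_prod, h2c]
  have hJ : Fintype.card (D.J ι) = Nat.card {v // v ∈ D.S} + Nat.card ι := by
    rw [Fintype.card_sum, Nat.card_eq_fintype_card, Nat.card_eq_fintype_card]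
  rw [hJ]
  set a := Nat.card ι
  set b := Nat.card {v // v ∈ D.S}
  set m := Nat.card {u : N // 4 • u = 0}
  have hm : m ^ m ≤ 2 ^ 64 := by
    rcases Nat.eq_zero_or_pos m with h0 | h0
    · rw [h0]; norm_num
    · calc m ^ m ≤ 16 ^ m := Nat.pow_le_pow_left hMc m
        _ ≤ 16 ^ 16 := Nat.pow_le_pow_right (by norm_num) hMc
        _ = 2 ^ 64 := by norm_num
  calc 2 ^ a * ((2 * (2 * 2)) ^ b * (2 * 2 * m ^ m))
      ≤ 2 ^ a * ((2 * (2 * 2)) ^ b * (2 * 2 * 2 ^ 64)) := by gcongr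
    _ = 2 ^ (a + 3 * b + 66) := by
        rw [show (2 * (2 * 2) : ℕ) = 2 ^ 3 by norm_num, ← pow_mul,
          show (2 * 2 * 2 ^ 64 : ℕ) = 2 ^ 66 by norm_num, ← pow_add, ← pow_add]
        congr 1
    _ ≤ 2 ^ (3 * (b + a) + 66) := Nat.pow_le_pow_right (by norm_num) (by omega)

end Pool.Agent.MP72S
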