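import Pool.Agent.Lib.MP_72e2e6_nt.Sm.N.SpecA

/-!
# MP_72e2e6_nt, `Sm/N/VPsi0`: values of the face functions (families of types)
-/

namespace Pool.Agent.MP72S

open Finset

private theorem vpsi0_aux (hAlt : S_Alt) (hChi : S_Chi) (hLfx : S_Lfx)
    {G N P ι : Type} [Group G] [TopologicalSpace G] [AddCommGroup N] [DistribMulAction G N]
    [Fintype ι] [DecidableEq ι] (D : Dat G N P) (hA : Ax D) (x y : ι → P) (U : Finset ι)
    (hG : D.Gd x y U) (F' : Finset ι) (hF : F' ⊆ U) (b : ι) (hb : b ∉ F')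
    (s : (ι → P) → D.J ι → N) (q : N)
    (hZ : ∀ w ⊆ F', s (mx x y w) ∈ D.Z (mx x y w))
    (hq : ∀ w ⊆ F', s (mx x y w) (Sum.inr b) = q) (he : F' = ∅ → q = 0) (g : G)
    (hg : g = D.tau (x b) ∨ g = D.phi (x b)) :
    alt x y F' (fun z => D.coc z (s z) g) = 0 := by
  have h0 : mx x y ∅ = x := (hAlt (A := ℤ) x y ∅ (fun _ => 0) (fun _ => 0)).1
  have hx : s x ∈ D.Z x := by
    have := hZ ∅ (empty_subset _)
    rwa [h0] at this
  have hqx : s x (Sum.inr b) = q := by
    have := hq ∅ (empty_subset _)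
    rwa [h0] at this
  obtain ⟨Q, hQ, hl⟩ := (Dat.coc_spec hx).lo (Sum.inr b)
  have hpl : D.pl x (Sum.inr b) = x b := rfl
  rw [hpl] at hl
  rw [hqx] at hQ
  rcases F'.eq_empty_or_nonempty with rfl | hne
  · rw [(hAlt x y ∅ (fun z => D.coc z (s z) g) (fun _ => 0)).2.1]
    rw [he rfl] at hQ
    rcases hg with rfl | rfl
    · rw [hl.1, tw_two hA.tri hQ, sub_self]
    · rw [hl.2, tw_two hA.tri hQ, sub_self]
  · have hs : alt x y F' (fun z => D.coc z (s z) g) = alt x y F' (fun _ => D.coc x (s x) g) := by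
      rw [alt, alt]
      apply Finset.sum_congr rfl
      intro w hw
      have hwF := mem_powerset.1 hw
      have hbw : b ∉ w := fun h => hb (hwF h)
      obtain ⟨Q', hQ', hl'⟩ := (Dat.coc_spec (hZ w hwF)).lo (Sum.inr b)
      have hpl' : D.pl (mx x y w) (Sum.inr b) = x b := if_neg hbw
      rw [hpl'] at hl'
      rw [hq w hwF] at hQ'
      have hc := (hChi D hA x y U hG w (hwF.trans hF)).2.1 b hbw
      have h1 := hLfx D hA (mx x y w) x (x b) Q' Q _ _ hl' hl (by rw [hQ, hQ']) hc.1 hc.2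
      congr 1
      rcases hg with rfl | rfl
      · exact h1.1
      · exact h1.2
    rw [hs]
    exact (hAlt x y F' (fun _ => (0 : N)) (fun _ => 0)).2.2.2.2.2.2.2 _ hne

theorem tVPsi0 : S_Alt → S_Gdf → S_Uq → S_Tai → S_Chi → S_Lfx → S_VPar → S_VPsi0 := by
  intro hAlt _ _ _ hChi hLfx hPar
  refine ⟨?_, ?_, ?_⟩
  · intro G N P ι _ _ _ _ _ _ D hA x y U I₀ Ξ b hG hb hU hUI hSep θ t ht hθ F' hF hF'
    have hFU : F' ⊆ U := hF.trans (erase_subset _ _)
    have hbF : b ∉ F' := fun h => (mem_erase.1 (hF h)).1 rfl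
    have hc : #(U.erase b) = #U - 1 := card_erase_of_mem hb
    have hlt : #F' < #(U.erase b) := card_lt_card (hF.ssubset_of_ne hF')
    have hmx : mx x y {b} = Function.update x b (y b) := by
      funext k
      by_cases hk : k = b
      · subst hk
        simp [mx]
      · simp [mx, hk]
    obtain ⟨m, hm⟩ : ∃ m, #(U.erase b) - #F' = m + 1 := ⟨#(U.erase b) - #F' - 1, by omega⟩
    rw [Dat.vfc, ← hmx, hm]
    have hval : ∀ w ⊆ U, ∀ k ∈ Ξ, (2 ^ (m + 1) • t (mx x y w)) k = (2 ^ m • θ) k := by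
      intro w hw k hk
      rw [Pi.smul_apply, Pi.smul_apply, pow_succ, mul_smul, (ht w hw).2.2 k hk]
    have hp := hPar D hA x y U I₀ Ξ hG hUI hSep F' hFU {b} (singleton_subset_iff.2 hb)
      (disjoint_singleton_right.2 hbF) (2 ^ m • θ) (fun z => 2 ^ (m + 1) • t z)
      (by
        intro w hw
        show 2 ^ (#F' + 1) • (2 ^ (m + 1) • t (mx x y w)) = 0
        rw [← mul_smul, ← pow_add, show #F' + 1 + (m + 1) = (#U - 1) + 1 by omega, pow_succ,
          mul_smul]
        exact (ht w hw).2.1)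
      hval
      (fun i hi => by
        rw [Pi.smul_apply, ← mul_smul, ← pow_add, show #F' + m = #U - 2 by omega]
        exact hθ i hi)
      (fun w hw => (D.Z _).nsmul_mem (ht w hw).1 _) (D.phi (x b))
    rw [hp]
    apply vpsi0_aux hAlt hChi hLfx D hA x y U hG F' hFU b hbF (fun z => 2 ^ (m + 1) • t z)
      ((2 ^ m • θ) (Sum.inr b)) (fun w hw => (D.Z _).nsmul_mem (ht w (hw.trans hFU)).1 _)
      (fun w hw => hval w (hw.trans hFU) _ (hSep.sub b (hUI hb))) _ _ (Or.inr rfl)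
    rintro rfl
    rw [Pi.smul_apply]
    rw [card_empty] at hm
    rw [show m = #U - 2 by omega]
    exact hθ b hb
  · intro G N P ι _ _ _ _ _ _ D hA x y I b hG hb hI c t hcc ht F' hF hF'
    have hbF : b ∉ F' := fun h => hb (hF h)
    have hlt : #F' < #I := card_lt_card (hF.ssubset_of_ne hF')
    obtain ⟨m, hm⟩ : ∃ m, #I - #F' = m + 1 := ⟨#I - #F' - 1, by omega⟩
    have h1 : ∀ g, (g = D.tau (x b) ∨ g = D.phi (x b)) → D.vfc x y I t F' g = 0 := by
      intro g hg
      rw [Dat.vfc, hm]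
      apply vpsi0_aux hAlt hChi hLfx D hA x y I hG F' hF b hbF (fun z => 2 ^ (m + 1) • t z)
        (2 ^ m • c) (fun w hw => (D.Z _).nsmul_mem (ht w (hw.trans hF)).1 _)
        (fun w hw => by
          show (2 ^ (m + 1) • t (mx x y w)) (Sum.inr b) = 2 ^ m • c
          rw [Pi.smul_apply, pow_succ, mul_smul, (ht w (hw.trans hF)).2]) _ _ hg
      rintro rfl
      rw [card_empty] at hm
      rw [show m = #I - 1 by omega]
      exact hcc
    exact ⟨h1 _ (Or.inr rfl), h1 _ (Or.inl rfl)⟩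
  · intro G N P ι _ _ _ _ _ _ D hA x y I hG t hZ F' hF v hvS hvx hvy
    have hr : ∀ w ⊆ I, v ∉ Set.range (D.pl (mx x y w)) := by
      rintro w hw ⟨j, hj⟩
      rcases j with s | k
      · exact hvS (hj ▸ s.2)
      · by_cases hk : k ∈ w
        · apply hvy k (hw hk)
          rw [← hj]
          exact if_pos hk
        · apply hvx k
          rw [← hj]
          exact if_neg hk
    rw [Dat.vfc, alt]
    apply Finset.sum_eq_zero
    intro w hw
    have hwI := (mem_powerset.1 hw).trans hF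
    rw [(Dat.coc_spec ((D.Z _).nsmul_mem (hZ w hwI) _)).u.ur v (hr w hwI), smul_zero]

end Pool.Agent.MP72S
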