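import Pool.Agent.Lib.MP_72e2e6_nt.Sm.N.SpecA

/-!
# MP_72e2e6_nt, `Sm/N/VRulL`: completion of cubes of liftable types, families of types
-/

namespace Pool.Agent.MP72S

open Finset

private theorem VRulL_lc_sum {X A κ : Type} [TopologicalSpace X] [AddCommGroup A] (s : Finset κ)
    (f : κ → X → A) (h : ∀ i ∈ s, IsLocallyConstant (f i)) :
    IsLocallyConstant (fun x => ∑ i ∈ s, f i x) := by
  classical
  induction s using Finset.induction_on with
  | empty =>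
    simp only [sum_empty]
    exact IsLocallyConstant.const (0 : A)
  | insert i s hi ih =>
    have h1 := ih fun k hk => h k (mem_insert_of_mem hk)
    have h2 := h i (mem_insert_self i s)
    have h3 := h2.comp₂ h1 (fun a b => a + b)
    simpa [sum_insert hi] using h3

private theorem VRulL_congr {P ι A : Type} [DecidableEq ι] [AddCommGroup A] (x y : ι → P)
    (U : Finset ι) (f g : (ι → P) → A) (h : ∀ w ⊆ U, f (mx x y w) = g (mx x y w)) :
    alt x y U f = alt x y U g := by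
  unfold alt
  exact sum_congr rfl fun w hw => by rw [h w (mem_powerset.mp hw)]

private theorem VRulL_zero {P ι A : Type} [DecidableEq ι] [AddCommGroup A] (x y : ι → P)
    (U : Finset ι) (f : (ι → P) → A) (h : ∀ w ⊆ U, f (mx x y w) = 0) :
    alt x y U f = 0 := by
  unfold alt
  exact sum_eq_zero fun w hw => by rw [h w (mem_powerset.mp hw), smul_zero]

private theorem VRulL_pow {A : Type} [AddCommGroup A] {t : A} {j a : ℕ} (h : 2 ^ j • t = 0)
    (hj : j ≤ a) : 2 ^ a • t = 0 := by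
  obtain ⟨b, rfl⟩ := Nat.exists_eq_add_of_le hj
  rw [pow_add, mul_comm, mul_smul, h, smul_zero]

private theorem VRulL_neg {A : Type} [AddCommGroup A] {a : A} (h : 2 • a = 0) : -a = a := by
  rw [two_nsmul] at h
  exact neg_eq_of_add_eq_zero_left h

private theorem VRulL_42 {A : Type} [AddCommGroup A] (a : A) : 4 • a = 2 • (2 • a) := by
  rw [← mul_smul, show (2 : ℕ) * 2 = 4 from rfl]

/-- `f (mx x y w) = tw χ g (Q w) - Q w` for all vertices. -/
private theorem VRulL_tw {G N P ι : Type} [Group G] [AddCommGroup N] [DistribMulAction G N]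
    [DecidableEq ι] (χ : G → ZMod 2) (g : G) (x y : ι → P) (U : Finset ι) (f : (ι → P) → N)
    (Q : Finset ι → N) (h : ∀ w ⊆ U, f (mx x y w) = tw χ g (Q w) - Q w) :
    alt x y U f = tw χ g (∑ w ∈ U.powerset, (-1 : ℤ) ^ #w • Q w) -
      ∑ w ∈ U.powerset, (-1 : ℤ) ^ #w • Q w := by
  rw [tw_sum, ← sum_sub_distrib]
  unfold alt
  refine sum_congr rfl fun w hw => ?_
  rw [h w (mem_powerset.mp hw), smul_sub, tw_zsmul]

private theorem VRulL_four {P ι A : Type} [DecidableEq ι] [AddCommGroup A] (hAlt : S_Alt)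
    (x y : ι → P) (U : Finset ι) (hU : U.Nonempty) (Q : Finset ι → A) (a : A) (n : ℕ)
    (hQ : ∀ w ⊆ U, n • Q w = a) : n • (∑ w ∈ U.powerset, (-1 : ℤ) ^ #w • Q w) = 0 := by
  rw [smul_sum]
  have h1 : ∑ w ∈ U.powerset, (-1 : ℤ) ^ #w • a = 0 :=
    (hAlt x y U (fun _ => a) (fun _ => a)).2.2.2.2.2.2.2 a hU
  rw [← h1]
  refine sum_congr rfl fun w hw => ?_
  rw [smul_comm, hQ w (mem_powerset.mp hw)]

/-- the values at higher levels -/
private theorem VRulL_key (hAlt : S_Alt) (hGdf : S_Gdf) (hUq : S_Uq) (hSepF : S_SepF)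
    (hLemB : S_VLemB)
    {G N P ι : Type} [Group G] [TopologicalSpace G] [AddCommGroup N] [DistribMulAction G N]
    [Fintype ι] [DecidableEq ι] (D : Dat G N P) (hD : Ax D) (x y : ι → P) (U I₀ : Finset ι)
    (Ξ : Finset (D.J ι)) (hG : D.Gd x y U) (hI₀ : U ⊆ I₀) (hSep : D.Sep x I₀ Ξ)
    (ρ : D.J ι → N) (hρ : ∀ i ∈ U, 2 ^ (#U - 2) • ρ (Sum.inr i) = 0)
    (t : (ι → P) → D.J ι → N)
    (ht : ∀ w ⊆ U, w.Nonempty → t (mx x y w) ∈ D.Z (mx x y w) ∧
      2 ^ (#U - 1) • (2 • t (mx x y w)) = 0 ∧ ∀ k ∈ Ξ, 2 • t (mx x y w) k = ρ k) :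
    ∀ W ⊆ U, W.Nonempty → ∀ σ,
      2 ^ #W • alt (mx x y W) y (U \ W) (fun z => D.coc z (t z) σ) = 0 := by
  intro W hW hWn σ
  have hmxu : ∀ W w, mx (mx x y W) y w = mx x y (W ∪ w) :=
    (hAlt x y U (fun _ => (0 : ℤ)) (fun _ => 0)).2.2.2.1
  have h1 := (hAlt (mx x y W) y (U \ W) (fun z => D.coc z (t z) σ)
    (fun z => D.coc z (t z) σ)).2.2.2.2.2.2.1 (2 ^ #W)
  rw [← h1]
  have hne : ∀ w, (W ∪ w).Nonempty := fun w => hWn.mono subset_union_left
  have hcW : 1 ≤ #W := card_pos.mpr hWn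
  have hp : (2 : ℕ) ^ #W = 2 ^ (#W - 1) * 2 := by
    rw [← pow_succ]
    congr 1
    omega
  have hsub : ∀ w ⊆ U \ W, W ∪ w ⊆ U := fun w hw => union_subset hW (hw.trans sdiff_subset)
  have h2 : alt (mx x y W) y (U \ W) (fun z => 2 ^ #W • D.coc z (t z) σ) =
      alt (mx x y W) y (U \ W) (fun z => D.coc z (2 ^ (#W - 1) • (2 • t z)) σ) := by
    refine VRulL_congr _ _ _ _ _ fun w hw => ?_
    rw [hmxu]
    obtain ⟨h3, h4⟩ := ht _ (hsub w hw) (hne w)
    rw [← (hUq D hD _).2.2.1 _ h3, hp, mul_smul]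
  rw [h2]
  have hcU : #(U \ W) = #U - #W := card_sdiff_of_subset hW
  have hcle : #W ≤ #U := card_le_card hW
  refine (hLemB D hD (mx x y W) y (U \ W) I₀ Ξ
    ((hGdf D x y U hG).1 W hW (U \ W) sdiff_subset disjoint_sdiff) (sdiff_subset.trans hI₀)
    (hSepF D hD x y U I₀ Ξ hG hI₀ hSep W hW) (#U - #W)
    (fun k => 2 ^ (#W - 1) • ρ k) (fun z => 2 ^ (#W - 1) • (2 • t z)) ?_ ?_ ?_ ?_ ?_).1 σ
  · rw [hcU]
  · intro w hw
    rw [hmxu, ← mul_smul, ← pow_add]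
    exact VRulL_pow (ht _ (hsub w hw) (hne w)).2.1 (by omega)
  · intro w hw k hk
    rw [hmxu, Pi.smul_apply, Pi.smul_apply, (ht _ (hsub w hw) (hne w)).2.2 k hk]
  · intro i hi
    have hpos : 1 ≤ #(U \ W) := card_pos.mpr ⟨i, hi⟩
    rw [← mul_smul, ← pow_add]
    exact VRulL_pow (hρ i (mem_sdiff.mp hi).1) (by omega)
  · intro w hw
    rw [hmxu]
    exact (D.Z _).nsmul_mem ((D.Z _).nsmul_mem (ht _ (hsub w hw) (hne w)).1 _) _

/-- the homomorphism of `ν` is the same at the vertices `x` and `mx x y {i}` and vanishes there -/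
private theorem VRulL_nu (hAlt : S_Alt) (hGdf : S_Gdf) (hLemB : S_LemB) (hDk1 : S_Dk1)
    {G N P ι : Type} [Group G] [TopologicalSpace G] [AddCommGroup N] [DistribMulAction G N]
    [Fintype ι] [DecidableEq ι] (D : Dat G N P) (hD : Ax D) (x y : ι → P) (U : Finset ι)
    (hG : D.Gd x y U) (ν : D.J ι → N) (i : ι) (hi : i ∈ U) (h0 : ν ∈ D.Dk x 1)
    (h1 : ν ∈ D.Dk (mx x y {i}) 1) (hν : ν (Sum.inr i) = 0) :
    (D.coc x ν (D.tau (x i)) = 0 ∧ D.coc x ν (D.phi (x i)) = 0) ∧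
      D.coc x ν (D.tau (y i)) = 0 ∧ D.coc x ν (D.phi (y i)) = 0 := by
  have hmx0 : mx x y ∅ = x := (hAlt x y U (fun _ => (0 : ℤ)) (fun _ => 0)).1
  have hD1 := (hDk1 (ι := ι) D hD).1
  obtain ⟨hz0, h20⟩ := (hD1 _ _).1 h0
  obtain ⟨hz1, -⟩ := (hD1 _ _).1 h1
  have hG1 : D.Gd x y {i} := by
    have := (hGdf D x y U hG).1 ∅ (empty_subset U) {i} (singleton_subset_iff.mpr hi)
      (disjoint_empty_left _)
    rwa [hmx0] at this
  have heq : ∀ σ, D.coc x ν σ = D.coc (mx x y {i}) ν σ := by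
    intro σ
    have h2 := hLemB D hD x y {i} hG1 1 ν (by rw [card_singleton]) (by rwa [pow_one])
      (fun k hk => by rw [mem_singleton.mp hk, hν, smul_zero]) ?_ σ
    · have h3 := (hAlt x y ∅ (fun z => D.coc z ν σ) (fun z => D.coc z ν σ)).2.2.2.2.1 i
        (notMem_empty i)
      have h4 := (hAlt x y ∅ (fun z => D.coc z ν σ) (fun z => D.coc z ν σ)).2.1
      have h5 := (hAlt (Function.update x i (y i)) y ∅ (fun z => D.coc z ν σ)
        (fun z => D.coc z ν σ)).2.1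
      have h6 := (hAlt x y U (fun _ => (0 : ℤ)) (fun _ => 0)).2.2.1 i ∅
      have h7 := (hAlt (Function.update x i (y i)) y U (fun _ => (0 : ℤ)) (fun _ => 0)).1
      rw [h7] at h6
      rw [insert_empty_eq] at h3 h6
      rw [h2, h4, h5, h6] at h3
      exact (sub_eq_zero.mp h3.symm)
    · intro w hw
      rcases subset_singleton_iff.mp hw with rfl | rfl
      · rwa [hmx0]
      · exact hz1
  have hval : ∀ (z : ι → P), D.IsZ z ν (D.coc z ν) → D.coc z ν (D.tau (z i)) = 0 ∧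
      D.coc z ν (D.phi (z i)) = 0 := by
    intro z hz
    obtain ⟨Q, hQ, hL⟩ := hz.lo (Sum.inr i)
    rw [hν] at hQ
    have hL' : D.Lo z (z i) Q (D.coc z ν) := hL
    exact ⟨by rw [hL'.1, tw_two hD.tri hQ, sub_self], by rw [hL'.2, tw_two hD.tri hQ, sub_self]⟩
  refine ⟨hval x (D.coc_spec hz0), ?_⟩
  have h8 := hval _ (D.coc_spec hz1)
  have h9 : mx x y {i} i = y i := if_pos (mem_singleton_self i)
  rw [h9] at h8
  rw [heq, heq]
  exact h8


private theorem VRulL_neg4 {P ι A : Type} [DecidableEq ι] [AddCommGroup A] (hAlt : S_Alt)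
    (x y : ι → P) (U : Finset ι) (hU : U.Nonempty) (Q : Finset ι → A) (a : A) (n : ℕ)
    (hQ : ∀ w ⊆ U, w.Nonempty → n • Q w = a) :
    n • (-∑ w ∈ U.powerset.erase ∅, (-1 : ℤ) ^ #w • Q w) = a := by
  have h1 : ∑ w ∈ U.powerset, (-1 : ℤ) ^ #w • a = 0 :=
    (hAlt x y U (fun _ => a) (fun _ => a)).2.2.2.2.2.2.2 a hU
  have h2 := sum_erase_eq_sub (s := U.powerset) (a := ∅)
    (f := fun w => (-1 : ℤ) ^ #w • a) (empty_mem_powerset U)
  rw [h1, card_empty, pow_zero, one_smul, zero_sub] at h2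
  have h3 : n • (∑ w ∈ U.powerset.erase ∅, (-1 : ℤ) ^ #w • Q w) =
      ∑ w ∈ U.powerset.erase ∅, (-1 : ℤ) ^ #w • a := by
    rw [smul_sum]
    refine sum_congr rfl fun w hw => ?_
    rw [mem_erase, mem_powerset] at hw
    rw [smul_comm, hQ w hw.2 (nonempty_iff_ne_empty.mpr hw.1)]
  rw [smul_neg, h3, h2, neg_neg]

private theorem VRulL_mxinj {P ι : Type} [DecidableEq ι] {x y : ι → P} {U w w' : Finset ι}
    (hne : ∀ i ∈ U, x i ≠ y i) (hw : w ⊆ U) (hw' : w' ⊆ U) (h : mx x y w = mx x y w') :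
    w = w' := by
  ext i
  have h1 := congrFun h i
  unfold mx at h1
  constructor
  · intro hi
    by_contra hi'
    rw [if_pos hi, if_neg hi'] at h1
    exact hne i (hw hi) h1.symm
  · intro hi
    by_contra hi'
    rw [if_neg hi', if_pos hi] at h1
    exact hne i (hw' hi) h1

/-- adjust the type at the vertex `{b}` -/
private theorem VRulL_adj (hAlt : S_Alt) (hGdf : S_Gdf) (hUq : S_Uq) (hTin : S_Tin)
    (hTai : S_Tai) (hDk1 : S_Dk1)
    {G N P ι : Type} [Group G] [TopologicalSpace G] [AddCommGroup N] [DistribMulAction G N]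
    [Fintype ι] [DecidableEq ι] (D : Dat G N P) (hD : Ax D) (x y : ι → P) (U : Finset ι) (b : ι)
    (hG : D.Gd x y U) (hb : b ∈ U) (τ : (ι → P) → D.J ι → N) (τ₀ : D.J ι → N) (hτZ : τ₀ ∈ D.Z x)
    (hτc : ∀ σ, D.coc x τ₀ σ = cmp x y U (fun z => D.coc z (τ z)) σ)
    (t : (ι → P) → D.J ι → N)
    (ht : ∀ w ⊆ U, w.Nonempty → t (mx x y w) ∈ D.Z (mx x y w) ∧
      2 • t (mx x y w) = τ (mx x y w)) :
    (∀ t : (ι → P) → D.J ι → N,
      (∀ w ⊆ U, w.Nonempty → t (mx x y w) ∈ D.Z (mx x y w) ∧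
        2 • t (mx x y w) = τ (mx x y w)) →
      ∀ σ, 2 • cmp x y U (fun z => D.coc z (t z)) σ = D.coc x τ₀ σ) ∧
    ∃ t₁ : (ι → P) → D.J ι → N,
      (∀ w ⊆ U, w.Nonempty → t₁ (mx x y w) ∈ D.Z (mx x y w) ∧
        2 • t₁ (mx x y w) = τ (mx x y w)) ∧
      cmp x y U (fun z => D.coc z (t₁ z)) (D.tau (y b)) = 0 := by
  classical
  have hmx0 : mx x y ∅ = x := (hAlt x y U (fun _ => (0 : ℤ)) (fun _ => 0)).1
  have hfirst : ∀ t : (ι → P) → D.J ι → N,
      (∀ w ⊆ U, w.Nonempty → t (mx x y w) ∈ D.Z (mx x y w) ∧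
        2 • t (mx x y w) = τ (mx x y w)) →
      ∀ σ, 2 • cmp x y U (fun z => D.coc z (t z)) σ = D.coc x τ₀ σ := by
    intro t ht σ
    rw [hτc]
    unfold cmp
    rw [smul_neg, smul_sum]
    refine congrArg _ (sum_congr rfl fun w hw => ?_)
    rw [mem_erase, mem_powerset] at hw
    obtain ⟨h3, h4⟩ := ht w hw.2 (nonempty_iff_ne_empty.mpr hw.1)
    rw [smul_comm, ← (hUq D hD _).2.2.1 _ h3, h4]
  refine ⟨hfirst, ?_⟩
  have hok0 : D.Ok x := by
    have := hG.ok ∅ (empty_subset U)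
    rwa [hmx0] at this
  obtain ⟨s, hs⟩ : ∃ s : N, s = cmp x y U (fun z => D.coc z (t z)) (D.tau (y b)) := ⟨_, rfl⟩
  have hyr : D.coc x τ₀ (D.tau (y b)) = 0 := by
    refine (D.coc_spec hτZ).u.ur _ ?_
    rintro ⟨jj, hjj⟩
    rcases jj with v | jj
    · exact (hGdf D x y U hG).2.2.1 b hb (by rw [← hjj]; exact v.2)
    · exact (hGdf D x y U hG).2.1 b hb jj hjj.symm
  have hs2 : 2 • s = 0 := by
    rw [hs, hfirst t ht, hyr]
  have hbU : ({b} : Finset ι) ⊆ U := singleton_subset_iff.mpr hb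
  have hokb : D.Ok (mx x y {b}) := hG.ok _ hbU
  obtain ⟨-, -, -, -, -, -, -, hhalf, -, -⟩ := hDk1 (ι := ι) D hD
  have hsZ : D.IsZ (mx x y {b}) (fun _ => s) _ :=
    hTin D hD (mx x y {b}) hokb s (half s) (hhalf s)
  have hsZ' : (fun _ => s : D.J ι → N) ∈ D.Z (mx x y {b}) := ⟨_, hsZ⟩
  refine ⟨fun z => if z = mx x y {b} then t z + (fun _ => s) else t z, fun w hw hwn => ?_, ?_⟩
  · dsimp only
    split_ifs with h
    · refine ⟨(D.Z _).add_mem (ht w hw hwn).1 (by rw [h]; exact hsZ'), ?_⟩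
      rw [smul_add, (ht w hw hwn).2]
      funext j
      show τ (mx x y w) j + 2 • s = τ (mx x y w) j
      rw [hs2, add_zero]
    · exact ht w hw hwn
  · have hbmem : ({b} : Finset ι) ∈ U.powerset.erase ∅ :=
      mem_erase.mpr ⟨singleton_ne_empty b, mem_powerset.mpr hbU⟩
    have h1 : cmp x y U (fun z => D.coc z (if z = mx x y {b} then t z + (fun _ => s) else t z))
        (D.tau (y b)) = cmp x y U (fun z => D.coc z (t z)) (D.tau (y b)) +
          D.coc (mx x y {b}) (fun _ => s) (D.tau (y b)) := by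
      unfold cmp
      beta_reduce
      rw [← add_sum_erase _ _ hbmem, ← add_sum_erase (U.powerset.erase ∅)
        (fun w => (-1 : ℤ) ^ #w • D.coc (mx x y w) (t (mx x y w)) (D.tau (y b))) hbmem]
      have h2 : ∑ w ∈ (U.powerset.erase ∅).erase {b}, (-1 : ℤ) ^ #w • D.coc (mx x y w)
          (if mx x y w = mx x y {b} then t (mx x y w) + (fun _ => s) else t (mx x y w))
          (D.tau (y b)) = ∑ w ∈ (U.powerset.erase ∅).erase {b}, (-1 : ℤ) ^ #w •
            D.coc (mx x y w) (t (mx x y w)) (D.tau (y b)) := by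
        refine sum_congr rfl fun w hw => ?_
        rw [mem_erase, mem_erase, mem_powerset] at hw
        rw [if_neg fun h => hw.1 (VRulL_mxinj hG.ne hw.2.2 hbU h)]
      rw [h2, if_pos rfl, (hUq D hD _).2.1 _ (ht {b} hbU (singleton_nonempty b)).1 _ hsZ',
        card_singleton, pow_one, neg_one_smul, neg_one_smul]
      abel
    have h3 : mx x y {b} b = y b := if_pos (mem_singleton_self b)
    have h4 := (hTai D hD _ hokb).2.2.2.2.1 b _ _ (D.coc_spec hsZ')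
    rw [h3] at h4
    dsimp only at h1 ⊢
    rw [h1, h4, ← hs, ← sub_eq_add_neg, sub_self]

theorem tVRulL : S_Alt → S_Gdf → S_Hom → S_Uq → S_Tin → S_Tai → S_Chi → S_LemB → S_Cmp → S_CmL →
    S_Rcv → S_Dk1 → S_ObR → S_ObA → S_Tre → S_Dua → S_SepF → S_VLemB → S_VLemD → S_VRulL := by
  intro hAlt hGdf hHom hUq hTin hTai hChi hLemB hCmp hCmL hRcv hDk1 hObR hObA hTre hDua hSepF
    hVLemB hVLemD G N P ι _ _ _ _ _ _ _ D hD hD2 x y U I₀ Ξ b hG hb hn hI₀ hSep ρ f t₀ ht₀ hf2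
    hf0 hf hDk γ t' ht' γadd γT γout hνs hνb hγ
  classical
  have hmx0 : mx x y ∅ = x := (hAlt x y U (fun _ => (0 : ℤ)) (fun _ => 0)).1
  have hmxi : ∀ i w, mx (Function.update x i (y i)) y w = mx x y (insert i w) :=
    (hAlt x y U (fun _ => (0 : ℤ)) (fun _ => 0)).2.2.1
  obtain ⟨hd1, hd2, -, -, -, -, hquar, -, -, hplinj⟩ := hDk1 (ι := ι) D hD
  have hok0 : D.Ok x := by
    have := hG.ok ∅ (empty_subset U)
    rwa [hmx0] at this
  have hUne : U.Nonempty := ⟨b, hb⟩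
  have hIne : (U.erase b).Nonempty := by
    rw [← card_pos, card_erase_of_mem hb]
    omega
  have hΞ : ∀ i ∈ U, (Sum.inr i : D.J ι) ∈ Ξ := fun i hi => hSep.sub i (hI₀ hi)
  have e1 : (2 : ℕ) ^ (#U - 1) = 2 * 2 ^ (#U - 2) := by
    rw [← pow_succ']
    congr 1
    omega
  have h20 : ∀ w ⊆ U, w.Nonempty → 2 ^ (#U - 1) • (2 • t₀ (mx x y w)) = 0 := by
    intro w hw hwn
    rw [e1, mul_smul, (ht₀ w hw hwn).2.1, hf2]
  have hρ : ∀ i ∈ U, 2 ^ (#U - 2) • ρ (Sum.inr i) = 0 := by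
    intro i hi
    have h1 := ht₀ {i} (singleton_subset_iff.mpr hi) (singleton_nonempty i)
    rw [← h1.2.2 _ (hΞ i hi), ← hf0 i hi]
    exact congrFun h1.2.1 (Sum.inr i)
  obtain ⟨τ₀, hτ₀⟩ : ∃ τ₀ : D.J ι → N, τ₀ = cpl x y U (fun z => 2 • t₀ z) := ⟨_, rfl⟩
  have hld := hVLemD D hD x y U I₀ Ξ hG hUne hI₀ hSep ρ (fun z => 2 • t₀ z) h20
    (fun w hw hwn => (ht₀ w hw hwn).2.2) hρ
    (fun w hw hwn => (D.Z _).nsmul_mem (ht₀ w hw hwn).1 2)
  rw [← hτ₀] at hld ⊢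
  obtain ⟨hτZ, -, hτρ, hτc⟩ := hld
  have hτf : 2 ^ (#U - 2) • τ₀ = f := by
    rw [hτ₀]
    exact VRulL_neg4 hAlt x y U hUne (fun w => 2 • t₀ (mx x y w)) f (2 ^ (#U - 2))
      fun w hw hwn => (ht₀ w hw hwn).2.1
  obtain ⟨hadj1, t, ht, htb⟩ := VRulL_adj hAlt hGdf hUq hTin hTai hDk1 D hD x y U b hG hb
    (fun z => 2 • t₀ z) τ₀ hτZ hτc t₀ (fun w hw hwn => ⟨(ht₀ w hw hwn).1, rfl⟩)
  have h2ψ := hadj1 t ht
  have htk : ∀ w ⊆ U, w.Nonempty → t (mx x y w) ∈ D.Z (mx x y w) ∧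
      2 ^ (#U - 1) • (2 • t (mx x y w)) = 0 ∧ ∀ k ∈ Ξ, 2 • t (mx x y w) k = ρ k := by
    intro w hw hwn
    refine ⟨(ht w hw hwn).1, ?_, fun k hk => ?_⟩
    · rw [(ht w hw hwn).2]
      exact h20 w hw hwn
    · rw [← (ht₀ w hw hwn).2.2 k hk]
      exact congrFun (ht w hw hwn).2 k
  have hsp : ∀ w ⊆ U, w.Nonempty →
      D.IsZ (mx x y w) (t (mx x y w)) (D.coc (mx x y w) (t (mx x y w))) :=
    fun w hw hwn => D.coc_spec (ht w hw hwn).1
  have he0 : ∀ a : N, 2 • a = 0 → D.e 0 a = 0 := by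
    intro a ha
    have h1 := hD.e_add 0 0 a (smul_zero _) (smul_zero _) ha
    rw [add_zero] at h1
    exact left_eq_add.mp h1
  have he0' : ∀ a : N, 2 • a = 0 → D.e a 0 = 0 := fun a ha => by
    rw [hD.e_sym a 0 ha (smul_zero _), he0 a ha]
  -- the type `ω`
  obtain ⟨ω, hωZ, hω⟩ : ∃ ω, ω ∈ D.Z x ∧ 2 ^ (#U - 1) • ω = 2 ^ (#U - 2) • τ₀ := by
    obtain ⟨ω, ⟨h1, h2⟩, h3⟩ := hf
    exact ⟨ω, h1, h3.trans hτf.symm⟩
  obtain ⟨ξ, hξ⟩ : ∃ ξ : D.J ι → N, ξ = 2 • ω - τ₀ := ⟨_, rfl⟩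
  have hξZ : ξ ∈ D.Z x := by
    rw [hξ]
    exact (D.Z x).sub_mem ((D.Z x).nsmul_mem hωZ _) hτZ
  have hξn : 2 ^ (#U - 1 - 1) • ξ = 0 := by
    have e : (2 : ℕ) ^ (#U - 1 - 1) * 2 = 2 ^ (#U - 1) := by
      rw [← pow_succ]
      congr 1
      omega
    have e' : #U - 1 - 1 = #U - 2 := by omega
    rw [hξ, smul_sub, ← mul_smul, e, hω, e', sub_self]
  obtain ⟨ψ', hψ'⟩ : ∃ ψ' : G → N, ψ' = cmp x y U (fun z => D.coc z (t z)) := ⟨_, rfl⟩
  rw [← hψ'] at h2ψ htb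
  have key := VRulL_key hAlt hGdf hUq hSepF hVLemB D hD x y U I₀ Ξ hG hI₀ hSep ρ hρ t htk
  have hψco : IsCo (D.chi x) ψ' := by
    rw [hψ']
    exact hCmp D (fun z => D.coc z (t z)) x y U hG.ne (fun w hw hwn => (hsp w hw hwn).u.co) key
  have hψlc : IsLocallyConstant ψ' := by
    rw [hψ']
    have h1 := VRulL_lc_sum (U.powerset.erase ∅)
      (fun w σ => (-1 : ℤ) ^ #w • D.coc (mx x y w) (t (mx x y w)) σ) (fun w hw => ?_)
    · exact h1.comp (fun a => -a)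
    · rw [mem_erase, mem_powerset] at hw
      exact (hsp w hw.2 (nonempty_iff_ne_empty.mpr hw.1)).u.lc.comp (fun a => (-1 : ℤ) ^ #w • a)
  obtain ⟨η₁, hη₁⟩ : ∃ η₁ : G → N, ∀ σ, η₁ σ = D.coc x ω σ - ψ' σ := ⟨_, fun _ => rfl⟩
  have hη₁2 : ∀ σ, 2 • η₁ σ = D.coc x ξ σ := by
    intro σ
    have h1 : D.coc x (ξ + τ₀) σ = D.coc x ξ σ + D.coc x τ₀ σ :=
      (hUq D hD x).2.1 ξ hξZ τ₀ hτZ σ
    have h2 : ξ + τ₀ = 2 • ω := by
      rw [hξ, sub_add_cancel]
    rw [h2, (hUq D hD x).2.2.1 ω hωZ 2 σ] at h1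
    rw [hη₁, smul_sub, h2ψ, h1, add_sub_cancel_right]
  -- local data
  have hex : ∀ (w : Finset ι) (j : D.J ι), ∃ Q : N, w ⊆ U → w.Nonempty →
      2 • Q = t (mx x y w) j ∧
        D.Lo (mx x y w) (D.pl (mx x y w) j) Q (D.coc (mx x y w) (t (mx x y w))) := by
    intro w j
    by_cases h : w ⊆ U ∧ w.Nonempty
    · obtain ⟨Q, hQ⟩ := (hsp w h.1 h.2).lo j
      exact ⟨Q, fun _ _ => hQ⟩
    · exact ⟨0, fun h1 h2 => absurd ⟨h1, h2⟩ h⟩
  choose Q hQ using hex
  have hQ4 : ∀ w ⊆ U, w.Nonempty → ∀ j, 4 • Q w j = 2 • t (mx x y w) j := by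
    intro w hw hwn j
    rw [← (hQ w j hw hwn).1, VRulL_42]
  obtain ⟨c1, c2, c3, -, c5⟩ := hCmL D hD x y U hG (fun z => D.coc z (t z)) Q
    (fun w hw hwn => (hsp w hw hwn).u) (fun w hw hwn j _ => (hQ w j hw hwn).2)
  rw [← hψ'] at c1 c2 c5
  -- the homomorphism `θ`
  obtain ⟨A, hA⟩ : ∃ A : Finset P, A = (U.erase b).image y := ⟨_, rfl⟩
  have hinfA : D.inf ∉ A := by
    intro h
    rw [hA] at h
    obtain ⟨i, hi, h1⟩ := mem_image.mp h
    exact (hGdf D x y U hG).2.2.1 i (mem_of_mem_erase hi) (h1 ▸ hD.infS)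
  obtain ⟨θ, hθH, hθ1, hθ2, -⟩ := (hHom D hD).2.1 A
    (fun v => if 2 • η₁ (D.tau v) = 0 then η₁ (D.tau v) else 0) 0 hinfA
    (fun v => by
      split_ifs with h
      · exact h
      · exact smul_zero _) (smul_zero _)
  have hyx : ∀ i ∈ U, y i ∉ Set.range (D.pl x) := by
    rintro i hi ⟨jj, hjj⟩
    rcases jj with v | jj
    · exact (hGdf D x y U hG).2.2.1 i hi (by rw [← hjj]; exact v.2)
    · exact (hGdf D x y U hG).2.1 i hi jj hjj.symm
  have hθy : ∀ i ∈ U.erase b, θ (D.tau (y i)) = η₁ (D.tau (y i)) := by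
    intro i hi
    rw [hθ1 _ (by rw [hA]; exact mem_image_of_mem y hi), if_pos]
    rw [hη₁2]
    exact (D.coc_spec hξZ).u.ur _ (hyx i (mem_of_mem_erase hi))
  have hθ0 : ∀ v, v ∉ Set.range (D.pl x) → v ∉ A → θ (D.tau v) = 0 := fun v hv hvA =>
    hθ2 v hvA fun h => hv ⟨Sum.inl ⟨v, h ▸ hD.infS⟩, rfl⟩
  obtain ⟨η, hη⟩ : ∃ η : G → N, ∀ σ, η σ = η₁ σ - θ σ := ⟨_, fun _ => rfl⟩
  have hη2 : ∀ σ, 2 • η σ = D.coc x ξ σ := by
    intro σ
    rw [hη, smul_sub, hθH.two, sub_zero, hη₁2]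
  have hIsH : D.IsH x ξ η := by
    refine ⟨⟨?_, fun σ τ' => ?_, ⟨#U, fun σ => ?_⟩, fun v hv => ?_⟩, ?_⟩
    · have h1 : η = fun σ => D.coc x ω σ - ψ' σ - θ σ := funext fun σ => by rw [hη, hη₁]
      rw [h1]
      exact ((D.coc_spec hωZ).u.lc.comp₂ hψlc (fun a b => a - b)).comp₂ hθH.lc (fun a b => a - b)
    · rw [hη, hη, hη, hη₁, hη₁, hη₁, (D.coc_spec hωZ).u.co σ τ', hψco σ τ', hθH.mul, tw_sub, tw_sub,
        tw_two hD.tri (hθH.two τ')]
      abel
    · have e : (2 : ℕ) ^ #U = 2 ^ (#U - 1) * 2 := by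
        rw [← pow_succ]
        congr 1
        omega
      rw [e, mul_smul, hη2]
      exact (hUq D hD x).2.2.2.2 ξ hξZ _ (VRulL_pow hξn (by omega)) σ
    · by_cases hvA : v ∈ A
      · rw [hA] at hvA
        obtain ⟨i, hi, rfl⟩ := mem_image.mp hvA
        rw [hη, hθy i hi, sub_self]
      · have h1 : ψ' (D.tau v) = 0 := by
          by_cases hvb : v = y b
          · rw [hvb]
            exact htb
          · refine c5 v hv fun i hi h => ?_
            by_cases hib : i = b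
            · exact hvb (by rw [h, hib])
            · refine hvA ?_
              rw [hA, h]
              exact mem_image_of_mem y (mem_erase.mpr ⟨hib, hi⟩)
        rw [hη, hη₁, (D.coc_spec hωZ).u.ur v hv, h1, hθ0 v hv hvA, sub_zero, sub_zero]
    · have h1 : (fun σ => 2 • η σ) = D.coc x ξ := funext hη2
      rw [h1]
      exact D.coc_spec hξZ
  -- the value at `φ` of `x b`
  obtain ⟨α, hα⟩ : ∃ α : N, α = alt (Function.update x b (y b)) y (U.erase b)
    (fun z => D.coc z (t z) (D.phi (x b))) := ⟨_, rfl⟩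
  have hατ : alt (Function.update x b (y b)) y (U.erase b)
      (fun z => D.coc z (t z) (D.tau (x b))) = 0 := by
    refine VRulL_zero _ _ _ _ fun w hw => ?_
    rw [hmxi]
    exact c3 b hb (insert b w) (insert_subset hb (hw.trans (erase_subset b U)))
      (mem_insert_self b w)
  choose Q₀ hQ₀ hL₀ using (D.coc_spec hωZ).lo
  have hR : ∀ j : D.J ι, ∃ R : N, 4 • R = ξ j ∧ ((∀ i ∈ U, j ≠ Sum.inr i) →
      η₁ (D.tau (D.pl x j)) = tw (D.chi x) (D.tau (D.pl x j)) R - R ∧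
      η₁ (D.phi (D.pl x j)) = tw (D.chi x) (D.phi (D.pl x j)) R - R) ∧
      (j = Sum.inr b → η₁ (D.tau (x b)) = tw (D.chi x) (D.tau (x b)) R - R ∧
        η₁ (D.phi (x b)) = tw (D.chi x) (D.phi (x b)) R - R - α) := by
    intro j
    have h4Q : 4 • Q₀ j = 2 • ω j := by
      rw [VRulL_42, hQ₀]
    have hξj : ξ j = 2 • ω j - τ₀ j := by
      rw [hξ]
      rfl
    by_cases hj : ∃ i ∈ U, j = Sum.inr i
    · obtain ⟨i, hi, rfl⟩ := hj
      by_cases hib : i = b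
      · subst hib
        obtain ⟨Q₁, hQ₁⟩ : ∃ Q₁ : N, Q₁ = -∑ w ∈ (U.erase i).powerset.erase ∅,
          (-1 : ℤ) ^ #w • Q w (Sum.inr i) := ⟨_, rfl⟩
        have h4 : 4 • Q₁ = τ₀ (Sum.inr i) := by
          rw [hQ₁, hτρ _ (hΞ i hi)]
          refine VRulL_neg4 hAlt x y (U.erase i) hIne (fun w => Q w (Sum.inr i)) _ 4
            fun w hw hwn => ?_
          rw [hQ4 w (hw.trans (erase_subset i U)) hwn _]
          exact (htk w (hw.trans (erase_subset i U)) hwn).2.2 _ (hΞ i hi)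
        have hL₀i : D.Lo x (x i) (Q₀ (Sum.inr i)) (D.coc x ω) := hL₀ (Sum.inr i)
        have hval : ∀ g, g = D.tau (x i) ∨ g = D.phi (x i) →
            ψ' g = tw (D.chi x) g Q₁ - Q₁ +
              alt (Function.update x i (y i)) y (U.erase i) (fun z => D.coc z (t z) g) := by
          intro g hg
          have h2 := c2 i hi g hg ?_
          · rw [← hQ₁] at h2
            exact h2
          · intro w hw hwn
            have hwU : w ⊆ U := hw.trans (erase_subset i U)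
            have hiw : i ∉ w := fun h => notMem_erase i U (hw h)
            have h3 := (hQ w (Sum.inr i) hwU hwn).2
            have h4 : D.pl (mx x y w) (Sum.inr i) = x i := if_neg hiw
            rw [h4] at h3
            have h5 := (hChi D hD x y U hG w hwU).2.1 i hiw
            rcases hg with rfl | rfl
            · have h6 := h3.1
              unfold tw at h6 ⊢
              rw [h5.1] at h6
              exact h6
            · have h6 := h3.2
              unfold tw at h6 ⊢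
              rw [h5.2] at h6
              exact h6
        refine ⟨Q₀ (Sum.inr i) - Q₁, by rw [smul_sub, h4Q, h4, hξj], fun h => absurd rfl (h i hi),
          fun _ => ⟨?_, ?_⟩⟩
        · rw [hη₁, hval _ (Or.inl rfl), hατ, hL₀i.1, tw_sub]
          abel
        · rw [hη₁, hval _ (Or.inr rfl), hL₀i.2, tw_sub, hα]
          abel
      · exact ⟨quar (ξ (Sum.inr i)), hquar _, fun h => absurd rfl (h i hi),
          fun h => absurd (Sum.inr_injective h) hib⟩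
    · have hj' : ∀ i ∈ U, j ≠ Sum.inr i := fun i hi h => hj ⟨i, hi, h⟩
      obtain ⟨Q₁, hQ₁⟩ : ∃ Q₁ : N, Q₁ = -∑ w ∈ U.powerset.erase ∅,
        (-1 : ℤ) ^ #w • Q w j := ⟨_, rfl⟩
      have h4 : 4 • Q₁ = τ₀ j := by
        rw [hQ₁, hτ₀, cpl, Pi.neg_apply, Finset.sum_apply, smul_neg, smul_sum]
        refine congrArg _ (sum_congr rfl fun w hw => ?_)
        rw [mem_erase, mem_powerset] at hw
        have hwn : w.Nonempty := nonempty_iff_ne_empty.mpr hw.1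
        rw [smul_comm, hQ4 w hw.2 hwn j]
        exact congrArg _ (congrFun (ht w hw.2 hwn).2 j)
      have h5 := c1 j hj'
      rw [← hQ₁] at h5
      refine ⟨Q₀ j - Q₁, by rw [smul_sub, h4Q, h4, hξj], fun _ => ⟨?_, ?_⟩,
        fun h => absurd h (hj' b hb)⟩
      · rw [hη₁, h5.1, (hL₀ j).1, tw_sub]
        abel
      · rw [hη₁, h5.2, (hL₀ j).2, tw_sub]
        abel
  choose R hR4 hRo hRb using hR
  obtain ⟨o1, o2⟩ := hObR D hD x ξ η hIsH R hR4
  have hδ2 : ∀ j g, g = D.tau (D.pl x j) ∨ g = D.phi (D.pl x j) →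
      2 • (η₁ g - (tw (D.chi x) g (R j) - R j)) = 0 := by
    intro j g hg
    have h1 := o1 j g hg
    have h2 : η₁ g - (tw (D.chi x) g (R j) - R j) =
        (η g - (tw (D.chi x) g (R j) - R j)) + θ g := by
      rw [hη]
      abel
    rw [h2, smul_add, h1, hθH.two, add_zero]
  have hα2 : 2 • α = 0 := by
    have h1 := hδ2 (Sum.inr b) (D.phi (x b)) (Or.inr rfl)
    rw [(hRb _ rfl).2, sub_sub_cancel_left, smul_neg, neg_eq_zero] at h1
    exact h1
  have hmain : ∀ ν ∈ D.Dk x 1, (∀ i ∈ U.erase b, ν (Sum.inr i) = 0) →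
      D.ob x ξ η ν = D.e α t' * γ ν := by
    intro ν hν hνi
    obtain ⟨hνZ, hν2⟩ := (hd1 _ _).1 hν
    have hνsp := D.coc_spec hνZ
    have hν2' : ∀ σ, 2 • D.coc x ν σ = 0 := by
      intro σ
      have := (hUq D hD x).2.2.2.2 ν hνZ 1 (by rwa [pow_one]) σ
      rwa [pow_one] at this
    have hνH : IsHo (D.coc x ν) := ⟨hνsp.u.lc, hν2', fun σ τ => by
      rw [hνsp.u.co σ τ, tw_two hD.tri (hν2' τ)]⟩
    have hνy := fun i (hi : i ∈ U.erase b) => VRulL_nu hAlt hGdf hLemB hDk1 D hD x y U hG ν i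
      (mem_of_mem_erase hi) hν
      (by rw [hDk {i} (singleton_subset_iff.mpr (mem_of_mem_erase hi))]; exact hν) (hνi i hi)
    have hrec : ∑ j, D.lp θ (D.coc x ν) (D.pl x j) = 0 := by
      have h1 := hRcv D hD θ (D.coc x ν) (univ.image (D.pl x)) hθH hνH ?_
      · rwa [sum_image (fun a _ b _ h => hplinj x hok0 h)] at h1
      · intro v hv
        have hvr : v ∉ Set.range (D.pl x) := fun ⟨j, hj⟩ =>
          hv (mem_image.mpr ⟨j, mem_univ _, hj⟩)
        have hντ : D.coc x ν (D.tau v) = 0 := hνsp.u.ur v hvr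
        by_cases hvA : v ∈ A
        · rw [hA] at hvA
          obtain ⟨i, hi, rfl⟩ := mem_image.mp hvA
          rw [Dat.lp, (hνy i hi).2.1, (hνy i hi).2.2, he0' _ (hθH.two _), he0' _ (hθH.two _),
            add_zero]
        · rw [Dat.lp, hθ0 v hvr hvA, hντ, he0 _ (hν2' _), he0' _ (hθH.two _), add_zero]
    have hsplit : ∀ j, D.lp (fun g => η g - (tw (D.chi x) g (R j) - R j)) (D.coc x ν) (D.pl x j) =
        D.lp (fun g => η₁ g - (tw (D.chi x) g (R j) - R j)) (D.coc x ν) (D.pl x j) +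
          D.lp θ (D.coc x ν) (D.pl x j) := by
      intro j
      have h1 : ∀ g, η g - (tw (D.chi x) g (R j) - R j) =
          (η₁ g - (tw (D.chi x) g (R j) - R j)) + θ g := by
        intro g
        have h2 : -θ g = θ g := VRulL_neg (hθH.two g)
        have h3 : η g - (tw (D.chi x) g (R j) - R j) =
            (η₁ g - (tw (D.chi x) g (R j) - R j)) + -θ g := by
          rw [hη]
          abel
        rw [h3, h2]
      unfold Dat.lp
      beta_reduce
      rw [h1, h1, hD.e_add _ _ _ (hδ2 j _ (Or.inl rfl)) (hθH.two _) (hν2' _),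
        hD.e_add _ _ _ (hδ2 j _ (Or.inr rfl)) (hθH.two _) (hν2' _)]
      abel
    rw [o2 ν hν, sum_congr rfl fun j _ => hsplit j, sum_add_distrib, hrec, add_zero,
      sum_eq_single_of_mem (Sum.inr b) (mem_univ _)]
    · unfold Dat.lp
      beta_reduce
      have h1 : D.pl x (Sum.inr b) = x b := rfl
      rw [h1, (hRb _ rfl).1, (hRb _ rfl).2, sub_self, sub_sub_cancel_left, he0 _ (hν2' _),
        zero_add, VRulL_neg hα2]
      have hντ : D.coc x ν (D.tau (x b)) = ν (Sum.inr b) := by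
        rw [(hTai D hD x hok0).2.2.2.2.1 b ν _ hνsp]
        exact VRulL_neg (congrFun hν2 (Sum.inr b))
      rw [hντ, hνb ν hν hνi]
      rcases zmod2 (γ ν) with h | h
      · rw [h, if_pos rfl, he0' _ hα2, mul_zero]
      · rw [h, if_neg one_ne_zero, mul_one]
    · intro j _ hjb
      by_cases hj : ∃ i ∈ U, j = Sum.inr i
      · obtain ⟨i, hi, rfl⟩ := hj
        have hiI : i ∈ U.erase b := mem_erase.mpr ⟨fun h => hjb (by rw [h]), hi⟩
        have h1 : D.pl x (Sum.inr i) = x i := rfl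
        unfold Dat.lp
        beta_reduce
        rw [h1, (hνy i hiI).1.1, (hνy i hiI).1.2, he0' _ (hδ2 (Sum.inr i) (D.tau (x i)) (Or.inl rfl)),
          he0' _ (hδ2 (Sum.inr i) (D.phi (x i)) (Or.inr rfl)), add_zero]
      · have hj' : ∀ i ∈ U, j ≠ Sum.inr i := fun i hi h => hj ⟨i, hi, h⟩
        unfold Dat.lp
        beta_reduce
        rw [(hRo j hj').1, (hRo j hj').2, sub_self, sub_self, he0 _ (hν2' _), he0 _ (hν2' _),
          add_zero]
  have hall : ∀ ν ∈ D.Dk x 1, D.ob x ξ η ν = D.e α t' * γ ν := by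
    intro ν hν
    obtain ⟨s, hs2, hs⟩ := hνs ν hν
    have hsT : (fun _ => s : D.J ι → N) ∈ D.T ι := ⟨s, hs2, rfl⟩
    have hsD : (fun _ => s : D.J ι → N) ∈ D.Dk x 1 := hd2 x hok0 1 le_rfl hsT
    have hν1 := (D.Dk x 1).add_mem hν hsD
    have e : (ν + fun _ => s) + (fun _ => s) = ν := by
      funext j
      show ν j + s + s = ν j
      rw [add_assoc, ← two_nsmul, hs2, add_zero]
    have h1 := (hObA D hD x hok0).1 ξ η hIsH _ hν1 _ hsD
    have h2 := γadd _ hν1 _ hsD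
    rw [e] at h1 h2
    rw [h1, h2, hTre D hD hD2 x hok0 ξ η hIsH _ hsT, γT _ hsT, add_zero, add_zero]
    refine hmain _ hν1 fun i hi => ?_
    show ν (Sum.inr i) + s = 0
    rw [hs i hi, ← two_nsmul, hs2]
  have hc : D.e α t' = 0 := by
    rcases zmod2 (D.e α t') with h | h
    · exact h
    · exact absurd ⟨ξ, η, hξn, hIsH, fun ν hν => by rw [hall ν hν, h, one_mul], γout⟩ hγ
  obtain ⟨ζ, hζZ, hζ⟩ := hDua D hD x hok0 ξ η hIsH fun ν hν => by rw [hall ν hν, hc, zero_mul]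
  refine ⟨ω - ζ, (D.Z x).sub_mem hωZ hζZ, ?_⟩
  rw [smul_sub, hζ, hξ, sub_sub_cancel]

end Pool.Agent.MP72S
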