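import Pool.Agent.Lib.MP_72e2e6_nt.Sm.N.SpecA

/-!
# MP_72e2e6_nt, `Sm/N/VStr0`: the splitting condition at the reference prime, families of types
-/

namespace Pool.Agent.MP72S

open Finset

theorem tVStr0 : S_Alt → S_Uq → S_Tin → S_Tai → S_Chi → S_VStr0 := by
  intro hAlt hUq hTin hTai hChi G N P ι _ _ _ _ _ _ D hA x y I b hG hb hI c t ht
  have h0 : mx x y ∅ = x := (hAlt (A := ℤ) x y ∅ (fun _ => 0) (fun _ => 0)).1
  have hxb : ∀ w ⊆ I, mx x y w b = x b := fun w hw => if_neg fun h => hb (hw h)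
  have hok : ∀ w ⊆ I, D.Ok (mx x y w) := hG.ok
  -- local data
  have hloc : ∀ w ⊆ I, ∃ Q : N, 2 • Q = t (mx x y w) (Sum.inr b) ∧
      D.coc (mx x y w) (t (mx x y w)) (D.phi (x b)) = tw (D.chi x) (D.phi (x b)) Q - Q := by
    intro w hw
    obtain ⟨Q, hQ, hl⟩ := (Dat.coc_spec (ht w hw).1).lo (Sum.inr b)
    refine ⟨Q, hQ, ?_⟩
    have hpl : D.pl (mx x y w) (Sum.inr b) = x b := hxb w hw
    rw [hpl] at hl
    have hc := ((hChi D hA x y I hG w hw).2.1 b fun h => hb (hw h)).2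
    rw [hl.2, tw, tw, hc]
  have htau : ∀ w ⊆ I, D.coc (mx x y w) (t (mx x y w)) (D.tau (x b)) =
      -t (mx x y w) (Sum.inr b) := by
    intro w hw
    have := (hTai D hA (mx x y w) (hok w hw)).2.2.2.2.1 b _ _ (Dat.coc_spec (ht w hw).1)
    rwa [hxb w hw] at this
  choose! Q hQ hQ' using hloc
  have hat : alt x y I (fun z => D.coc z (t z) (D.tau (x b))) =
      -(2 • ∑ w ∈ I.powerset, (-1 : ℤ) ^ #w • Q w) := by
    rw [alt, Finset.smul_sum, ← Finset.sum_neg_distrib]
    apply Finset.sum_congr rfl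
    intro w hw
    rw [htau w (mem_powerset.1 hw), ← hQ w (mem_powerset.1 hw), smul_neg, smul_comm]
  have hap : alt x y I (fun z => D.coc z (t z) (D.phi (x b))) =
      tw (D.chi x) (D.phi (x b)) (∑ w ∈ I.powerset, (-1 : ℤ) ^ #w • Q w) -
        ∑ w ∈ I.powerset, (-1 : ℤ) ^ #w • Q w := by
    rw [alt, tw_sum, ← Finset.sum_sub_distrib]
    apply Finset.sum_congr rfl
    intro w hw
    rw [hQ' w (mem_powerset.1 hw), tw_zsmul, smul_sub]
  refine ⟨fun h => ?_, ?_⟩
  · rw [hat, neg_eq_zero] at h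
    rw [hap, tw_two hA.tri h, sub_self]
  · have h4 : 2 • alt x y I (fun z => D.coc z (t z) (D.tau (x b))) = 0 := by
      have h5 : 2 • alt x y I (fun z => D.coc z (t z) (D.tau (x b))) =
          alt x y I (fun _ => -c) := by
        rw [alt, alt, Finset.smul_sum]
        apply Finset.sum_congr rfl
        intro w hw
        have h6 := (ht w (mem_powerset.1 hw)).2
        rw [htau w (mem_powerset.1 hw), smul_comm, smul_neg, h6]
      rw [h5]
      exact (hAlt x y I (fun _ => (0 : N)) (fun _ => 0)).2.2.2.2.2.2.2 _ hI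
    refine ⟨_, h4, fun t₁ h1 h2 => ?_⟩
    obtain ⟨R, hR⟩ := hA.dvs (alt x y I (fun z => D.coc z (t z) (D.tau (x b))))
    have hzx : D.IsZ x (fun _ => alt x y I (fun z => D.coc z (t z) (D.tau (x b))))
        fun σ => tw (D.chi x) σ R - R := by
      have := hTin D hA x (h0 ▸ hok ∅ (empty_subset I)) _ R hR
      exact this
    have hval : D.coc x (fun _ => alt x y I (fun z => D.coc z (t z) (D.tau (x b)))) (D.tau (x b)) =
        -alt x y I (fun z => D.coc z (t z) (D.tau (x b))) :=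
      (hTai D hA x (h0 ▸ hok ∅ (empty_subset I))).2.2.2.2.1 b _ _ (Dat.coc_spec ⟨_, hzx⟩)
    have htx : t x ∈ D.Z x := by
      have := (ht ∅ (empty_subset I)).1
      rwa [h0] at this
    have hsplit : ∀ f : (ι → P) → N, alt x y I f = f x +
        ∑ w ∈ I.powerset.erase ∅, (-1 : ℤ) ^ #w • f (mx x y w) := by
      intro f
      rw [alt, ← Finset.add_sum_erase _ _ (empty_mem_powerset I), h0]
      simp
    rw [hsplit]
    have h7 : ∑ w ∈ I.powerset.erase ∅, (-1 : ℤ) ^ #w •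
        D.coc (mx x y w) (t₁ (mx x y w)) (D.tau (x b)) =
        ∑ w ∈ I.powerset.erase ∅, (-1 : ℤ) ^ #w •
          D.coc (mx x y w) (t (mx x y w)) (D.tau (x b)) := by
      apply Finset.sum_congr rfl
      intro w hw
      rw [mem_erase, mem_powerset] at hw
      rw [h2 w hw.2 (nonempty_iff_ne_empty.2 hw.1)]
    rw [h7, h1, (hUq D hA x).2.1 _ htx _ ⟨_, hzx⟩, hval]
    have h8 := hsplit (fun z => D.coc z (t z) (D.tau (x b)))
    rw [add_right_comm, ← h8, add_neg_cancel]

end Pool.Agent.MP72S
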