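import Pool.Agent.Lib.MP_72e2e6_nt.Sm.N.SpecD

/-!
# MP_72e2e6_nt, `Sm/N`: module `VSum` (summation over the cells, pure counting)
-/

namespace Pool.Agent.MP72S

open Finset

/-- Elements in small classes. -/
private theorem VSum_cls {P Cl : Type} (k : P → Cl) (A T : Finset P) (Nc : ℕ) (l : ℝ)
    (hk : (Set.range k).Finite ∧ (Set.range k).ncard ≤ Nc) (hl : 0 ≤ l) (hTA : T ⊆ A)
    (hT : ∀ c ∈ T, ∀ B : Finset P, (∀ a, a ∈ B → a ∈ A ∧ k a = k c) → (#B : ℝ) ≤ l) :
    (#T : ℝ) ≤ Nc * l := by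
  classical
  have h1 : #T = ∑ b ∈ T.image k, #{a ∈ T | k a = b} :=
    card_eq_sum_card_fiberwise fun x hx => mem_image_of_mem k hx
  have h2 : #(T.image k) ≤ Nc := by
    refine le_trans ?_ hk.2
    rw [← Set.ncard_coe_finset]
    refine Set.ncard_le_ncard ?_ hk.1
    rw [coe_image]
    exact Set.image_subset_range _ _
  rw [h1, Nat.cast_sum]
  calc ∑ b ∈ T.image k, (#{a ∈ T | k a = b} : ℝ) ≤ ∑ _b ∈ T.image k, l := by
        refine sum_le_sum fun b hb => ?_
        obtain ⟨c, hc, rfl⟩ := mem_image.1 hb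
        refine hT c hc _ fun a ha => ?_
        rw [mem_filter] at ha
        exact ⟨hTA ha.1, ha.2⟩
    _ = #(T.image k) * l := by rw [sum_const, nsmul_eq_mul]
    _ ≤ Nc * l := mul_le_mul_of_nonneg_right (by exact_mod_cast h2) hl

section

variable {P ι Cl : Type} [DecidableEq ι] {S : ι → Finset P} {I₀ : Finset ι}
  {κ : (ι → P) → P → Cl}

private theorem VSum_mem (z : ι → P) (i : ι) (c : P) :
    c ∈ clS S I₀ κ z i ↔ (i ∈ I₀ ∧ c ∈ S i ∧ κ z c = κ z (z i)) ∨ (i ∉ I₀ ∧ c = z i) := by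
  classical
  by_cases hi : i ∈ I₀
  · simp [clS, hi]
  · simp [clS, hi]

private theorem VSum_eq (hκ : ∀ z z' : ι → P, (∀ i, i ∉ I₀ → z i = z' i) → κ z = κ z')
    (z z' : ι → P) (h : ∀ i, z' i ∈ clS S I₀ κ z i) : clS S I₀ κ z' = clS S I₀ κ z := by
  have h1 : κ z' = κ z := by
    apply hκ
    intro i hi
    rcases (VSum_mem z i (z' i)).1 (h i) with h2 | h2
    · exact absurd h2.1 hi
    · exact h2.2
  funext i
  ext c
  rw [VSum_mem, VSum_mem, h1]
  rcases (VSum_mem z i (z' i)).1 (h i) with h2 | h2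
  · rw [h2.2.2]
    simp [h2.1]
  · rw [h2.2]

/-- Tuples with a small class at `i`. -/
private theorem VSum_small [Fintype ι]
    (hκ : ∀ z z' : ι → P, (∀ i, i ∉ I₀ → z i = z' i) → κ z = κ z') (Nc : ℕ)
    (hN : ∀ z : ι → P, (Set.range (κ z)).Finite ∧ (Set.range (κ z)).ncard ≤ Nc) (i : ι)
    (hi : i ∈ I₀) (l : ℝ) (hl : 0 ≤ l) (B : Finset (ι → P))
    (hB : ∀ z ∈ B, (∀ j, z j ∈ S j) ∧ (#(clS S I₀ κ z i) : ℝ) < l) :
    (#B : ℝ) ≤ Nc * l * ∏ j ∈ univ.erase i, (#(S j) : ℝ) := by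
  classical
  let ρ : (ι → P) → ({j // j ≠ i} → P) := fun z j => z j.1
  have h1 : #B = ∑ b ∈ Fintype.piFinset fun j : {j // j ≠ i} => S j.1, #{z ∈ B | ρ z = b} := by
    refine card_eq_sum_card_fiberwise fun z hz => ?_
    simp only [Fintype.coe_piFinset, Set.mem_univ_pi, mem_coe]
    exact fun j => (hB z hz).1 j.1
  have h2 : ∀ b : {j // j ≠ i} → P, (#{z ∈ B | ρ z = b} : ℝ) ≤ Nc * l := by
    intro b
    by_cases hne : ({z ∈ B | ρ z = b} : Finset (ι → P)).Nonempty
    · obtain ⟨z₁, hz₁⟩ := hne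
      rw [mem_filter] at hz₁
      have hag : ∀ z ∈ ({z ∈ B | ρ z = b} : Finset (ι → P)), ∀ j, j ≠ i → z j = z₁ j := by
        intro z hz j hj
        rw [mem_filter] at hz
        have h3 := congrFun (hz.2.trans hz₁.2.symm) ⟨j, hj⟩
        exact h3
      have hkk : ∀ z ∈ ({z ∈ B | ρ z = b} : Finset (ι → P)), κ z = κ z₁ := by
        intro z hz
        exact hκ _ _ fun j hj => hag z hz j fun h => hj (h ▸ hi)
      have hinj : Set.InjOn (fun z : ι → P => z i)
          (({z ∈ B | ρ z = b} : Finset (ι → P)) : Set (ι → P)) := by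
        intro z hz z' hz' h
        funext j
        by_cases hj : j = i
        · rw [hj]
          exact h
        · rw [hag z hz j hj, hag z' hz' j hj]
      rw [← card_image_of_injOn hinj]
      refine VSum_cls (κ z₁) (S i) _ Nc l (hN z₁) hl ?_ ?_
      · intro c hc
        obtain ⟨z, hz, rfl⟩ := mem_image.1 hc
        exact (hB z (mem_filter.1 hz).1).1 i
      · intro c hc A hA
        obtain ⟨z, hz, rfl⟩ := mem_image.1 hc
        refine le_trans ?_ (hB z (mem_filter.1 hz).1).2.le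
        have h4 : A ⊆ clS S I₀ κ z i := by
          intro a ha
          rw [VSum_mem]
          refine Or.inl ⟨hi, (hA a ha).1, ?_⟩
          rw [hkk z hz]
          exact (hA a ha).2
        exact_mod_cast card_le_card h4
    · rw [not_nonempty_iff_eq_empty] at hne
      rw [hne, card_empty, Nat.cast_zero]
      positivity
  have h3 : (#(Fintype.piFinset fun j : {j // j ≠ i} => S j.1) : ℝ) =
      ∏ j ∈ univ.erase i, (#(S j) : ℝ) := by
    rw [Fintype.card_piFinset, Nat.cast_prod]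
    refine (prod_subtype (univ.erase i) (fun j => ?_) fun j => (#(S j) : ℝ)).symm
    simp
  rw [h1, Nat.cast_sum]
  calc ∑ b ∈ Fintype.piFinset fun j : {j // j ≠ i} => S j.1, (#{z ∈ B | ρ z = b} : ℝ)
      ≤ ∑ _b ∈ Fintype.piFinset fun j : {j // j ≠ i} => S j.1, (Nc * l : ℝ) :=
        sum_le_sum fun b _ => h2 b
    _ = Nc * l * ∏ j ∈ univ.erase i, (#(S j) : ℝ) := by
        rw [sum_const, nsmul_eq_mul, h3, mul_comm]

end

theorem tVSum : S_VSum := by
  intro P ι Cl _ _ S I₀ κ hκ Nc hN lam hlam F Gf C₀ ε hC₀ hε hF hG hcell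
  classical
  let L : (ι → P) → Prop := fun z => ∀ i ∈ I₀, lam i ≤ #(clS S I₀ κ z i)
  let h : (ι → P) → ℝ := fun z => if L z then F z - Gf z - ε else 0
  -- (1) the sum of `h`
  have h1 : ∑ z ∈ Fintype.piFinset S, h z ≤ 0 := by
    rw [← sum_fiberwise_of_maps_to (g := clS S I₀ κ)
      (t := (Fintype.piFinset S).image (clS S I₀ κ)) fun z hz => mem_image_of_mem _ hz]
    refine sum_nonpos fun c hc => ?_
    obtain ⟨z, hz, rfl⟩ := mem_image.1 hc
    have hfil : ({z' ∈ Fintype.piFinset S | clS S I₀ κ z' = clS S I₀ κ z} : Finset (ι → P)) =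
        Fintype.piFinset (clS S I₀ κ z) := by
      ext z'
      rw [mem_filter, Fintype.mem_piFinset, Fintype.mem_piFinset]
      constructor
      · rintro ⟨h2, h3⟩ i
        rw [← h3, VSum_mem]
        by_cases hi : i ∈ I₀
        · exact Or.inl ⟨hi, h2 i, rfl⟩
        · exact Or.inr ⟨hi, rfl⟩
      · intro h2
        refine ⟨fun i => ?_, VSum_eq hκ z z' h2⟩
        rcases (VSum_mem z i (z' i)).1 (h2 i) with h3 | h3
        · exact h3.2.1
        · rw [h3.2]
          exact Fintype.mem_piFinset.1 hz i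
    by_cases hL : L z
    · have h2 : ∀ z' ∈ ({z' ∈ Fintype.piFinset S | clS S I₀ κ z' = clS S I₀ κ z} :
          Finset (ι → P)), h z' = F z' - Gf z' - ε := by
        intro z' hz'
        have h3 := (mem_filter.1 hz').2
        have h4 : L z' := by
          intro i hi
          rw [h3]
          exact hL i hi
        exact if_pos h4
      rw [sum_congr rfl h2, hfil, sum_sub_distrib, sum_sub_distrib, sum_const, nsmul_eq_mul,
        Fintype.card_piFinset, Nat.cast_prod]
      have h5 := hcell z hz hL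
      linarith
    · refine (sum_eq_zero fun z' hz' => ?_).le
      have h3 := (mem_filter.1 hz').2
      have h4 : ¬ L z' := by
        intro h5
        apply hL
        intro i hi
        rw [← h3]
        exact h5 i hi
      exact if_neg h4
  -- (2) the small cells
  have h2 : (#{z ∈ Fintype.piFinset S | ¬ L z} : ℝ) ≤
      ∑ i ∈ I₀, Nc * lam i * ∏ j ∈ univ.erase i, (#(S j) : ℝ) := by
    have hsub : ({z ∈ Fintype.piFinset S | ¬ L z} : Finset (ι → P)) ⊆ I₀.biUnion fun i =>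
        {z ∈ Fintype.piFinset S | (#(clS S I₀ κ z i) : ℝ) < lam i} := by
      intro z hz
      rw [mem_filter] at hz
      have h3 : ∃ i ∈ I₀, (#(clS S I₀ κ z i) : ℝ) < lam i := by
        by_contra hcon
        push Not at hcon
        exact hz.2 hcon
      obtain ⟨i, hi, h4⟩ := h3
      rw [mem_biUnion]
      exact ⟨i, hi, mem_filter.2 ⟨hz.1, h4⟩⟩
    calc (#{z ∈ Fintype.piFinset S | ¬ L z} : ℝ)
        ≤ (#(I₀.biUnion fun i =>
            {z ∈ Fintype.piFinset S | (#(clS S I₀ κ z i) : ℝ) < lam i}) : ℝ) := by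
          exact_mod_cast card_le_card hsub
      _ ≤ ∑ i ∈ I₀, (#{z ∈ Fintype.piFinset S | (#(clS S I₀ κ z i) : ℝ) < lam i} : ℝ) := by
          exact_mod_cast card_biUnion_le
      _ ≤ ∑ i ∈ I₀, Nc * lam i * ∏ j ∈ univ.erase i, (#(S j) : ℝ) := by
          refine sum_le_sum fun i hi => ?_
          refine VSum_small hκ Nc hN i hi (lam i) (hlam i) _ fun z hz => ?_
          rw [mem_filter, Fintype.mem_piFinset] at hz
          exact hz
  -- (3) conclusion
  have h3 : ∀ z, F z ≤ h z + Gf z + ε + C₀ * (if ¬ L z then 1 else 0) := by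
    intro z
    by_cases hL : L z
    · have h4 : h z = F z - Gf z - ε := if_pos hL
      rw [h4, if_neg (not_not.2 hL)]
      linarith
    · have h4 : h z = 0 := if_neg hL
      rw [h4, if_pos hL]
      have h5 := (hF z).2
      have h6 := hG z
      linarith
  have h4 : (∑ _z ∈ Fintype.piFinset S, ε : ℝ) = ε * ∏ i, (#(S i) : ℝ) := by
    rw [sum_const, nsmul_eq_mul, Fintype.card_piFinset, Nat.cast_prod, mul_comm]
  have h5 : (∑ z ∈ Fintype.piFinset S, C₀ * (if ¬ L z then 1 else 0) : ℝ) =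
      C₀ * (#{z ∈ Fintype.piFinset S | ¬ L z} : ℝ) := by
    rw [← mul_sum, sum_boole]
  calc ∑ z ∈ Fintype.piFinset S, F z
      ≤ ∑ z ∈ Fintype.piFinset S, (h z + Gf z + ε + C₀ * (if ¬ L z then 1 else 0)) :=
        sum_le_sum fun z _ => h3 z
    _ = ∑ z ∈ Fintype.piFinset S, h z + ∑ z ∈ Fintype.piFinset S, Gf z +
          ε * ∏ i, (#(S i) : ℝ) + C₀ * (#{z ∈ Fintype.piFinset S | ¬ L z} : ℝ) := by
        rw [sum_add_distrib, sum_add_distrib, sum_add_distrib, h4, h5]
    _ ≤ 0 + ∑ z ∈ Fintype.piFinset S, Gf z + ε * ∏ i, (#(S i) : ℝ) +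
          C₀ * ∑ i ∈ I₀, Nc * lam i * ∏ j ∈ univ.erase i, (#(S j) : ℝ) := by
        have h6 := mul_le_mul_of_nonneg_left h2 hC₀
        linarith
    _ = _ := by rw [zero_add]

end Pool.Agent.MP72S
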