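import Pool.Agent.Lib.MP_72e2e6_nt.Sm.N.Defs

/-!
# MP_72e2e6_nt, `Sm/N`: statements with proofs, part A (cubes with families of types)

Every module proves one of the propositions `S_X` below: file `Sm/N/X.lean` (import this file only, and
`Mathlib` is included) with `theorem tX : S_Y → S_Z → .. → S_X` (the used statements in the order given
in the task), namespace `Pool.Agent.MP72S`, all other declarations `private`. The statements `S_VLemB` etc.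
are the old statements `S_LemB` etc. of `Sm/A/Spec1.lean`, `Spec2.lean`, `Spec3.lean` with a family of types
instead of a constant type; the proofs are the old proofs (files `Sm/A/LemB.lean` etc., copy and
change them) with the changes described in the docstrings. Notation: `n = #U`, a vertex is
`mx x y w`, `w ⊆ U`. A place with a fixed index is the same for all vertices of a cube with `U ⊆ I₀`, and
`chi` is the same for all vertices at `τ`, `φ` of it (`S_Chi`).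
-/

namespace Pool.Agent.MP72S

open Finset

/-- Module `SepF` (faces). PROOF. `sub` does not depend on `x`. Let `z = mx x y A`. For `i ∉ I₀` we have
`i ∉ A`, so `z i = x i`; for a fixed index `j` `pl z j = pl x j`, and `chi z`, `chi x` agree at `τ`, `φ` of
this place (`S_Chi` (1) for `inl s`, (2) for `inr i`, `i ∉ A`). So `IsW z I₀ ν` implies `IsW x I₀ ν` (`Lo z v Q ν` is
`Lo x v Q ν`), and the conditions at `Ξ` are the same. -/
def S_SepF : Prop :=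
  ∀ {G N P ι : Type} [Group G] [TopologicalSpace G] [AddCommGroup N] [DistribMulAction G N]
    [Fintype ι] [DecidableEq ι] (D : Dat G N P), Ax D → ∀ (x y : ι → P) (U I₀ : Finset ι)
    (Ξ : Finset (D.J ι)), D.Gd x y U → U ⊆ I₀ → D.Sep x I₀ Ξ → ∀ A ⊆ U, D.Sep (mx x y A) I₀ Ξ

/-- Module `SepS` (configurations with the same symbols and the same fixed places). PROOF. As
`SepF`. For a fixed index `j` `pl z j = pl x j`. `chi` at `τ_s`, `φ_s`, `s ∈ S`: second component of the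
symbols (`chi x g = ch0 g + ∑ ch (x i) g`). At `τ_(x j)`, `j ∉ I₀`: `chi = 1` for both (`S_Tai` (1)). At
`φ_(x j)`, `j ∉ I₀`, `x j = z j`: `ch (x i) (φ_(x j)) = ch (z i) (φ_(z j))` for `i ≠ j` is the entry `(i, j)` of the
first component, and for `i = j` it is the same element. -/
def S_SepS : Prop :=
  ∀ {G N P ι : Type} [Group G] [TopologicalSpace G] [AddCommGroup N] [DistribMulAction G N]
    [Fintype ι] [DecidableEq ι] (D : Dat G N P), Ax D → ∀ (x z : ι → P) (I₀ : Finset ι)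
    (Ξ : Finset (D.J ι)), D.Ok x → D.Ok z → (∀ i, i ∉ I₀ → x i = z i) → D.Sy x = D.Sy z →
    D.Sep x I₀ Ξ → D.Sep z I₀ Ξ

/-- Module `TyX` (a type is determined by its recorded coordinates). PROOF. Put `δ = t - t' ∈ Z x`,
`2^k δ = 0`, `δ = 0` on `Ξ`. Induction on `k` (for all such `δ`): `k = 0` clear. Let `k ≥ 1`, `δ' = 2^(k-1) δ`, `2 δ' = 0`.
`ψ = coc x δ'` is a homomorphism to `V` (`S_Uq` (5), `tw_two`), locally constant. `ψ (τ_v) = 0` for `v ∉ S`, `v ≠ x i`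
for all `i ∉ I₀`: if `v` is not a place of `x` by `ur`; if `v = x i`, `i ∈ I₀`: `ψ (τ_(x i)) = -δ' (inr i) = 0`
(`S_Tai`, `sub`). Local conditions at the fixed indices: `lo`, `4 Q = 2 δ' j = 0`. At `j ∈ Ξ` fixed:
`2 Q = δ' j = 0`, so `tw Q - Q = 0` (`tw_two`). So `ψ = 0` by `sep`, and `δ' = 0` by `S_TyU` (2). So `2^(k-1) δ = 0`
and the induction hypothesis applies to `δ`. -/
def S_TyX : Prop :=
  ∀ {G N P ι : Type} [Group G] [TopologicalSpace G] [AddCommGroup N] [DistribMulAction G N]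
    [Fintype ι] [DecidableEq ι] (D : Dat G N P), Ax D → ∀ (x : ι → P) (I₀ : Finset ι)
    (Ξ : Finset (D.J ι)), D.Ok x → D.Sep x I₀ Ξ → ∀ t ∈ D.Z x, ∀ t' ∈ D.Z x, ∀ k : ℕ,
    2 ^ k • t = 2 ^ k • t' → (∀ j ∈ Ξ, t j = t' j) → t = t'

/-- Module `Thx` (a small set of recorded indices exists). PROOF. Let `W` be the set of the `ν` with
`IsW x I₀ ν` (a finite group by `S_Hom` (3): unramified outside `S` and the `x i`; closed under addition: the
local data `Q` add up). (1) `#W ≤ 4 ^ #I₀ * #(Dk x 1)`: the fibres of the map `W → V ^ I₀`, `ν ↦ (ν (φ_(x i)))_i`, are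
translates of the kernel; for `ν` in the kernel `ν (φ_(x i)) = 0 = ν (τ_(x i))` for `i ∈ I₀` (`ur`: `x i ∉ S`,
`x i ≠ x j`), so `IsZ x t ν` for the type `t j = 2 Q_j` at the fixed indices, `t (inr i) = 0`, `i ∈ I₀` (`IsU`:
`tw_two`, `bd` with `k = 1`); `2 t = 0`, `t ∈ Dk x 1` (`S_Dk1` (1)), and `ν = coc x t` (`S_Uq`), so the kernel has
at most `#(Dk x 1)` elements. (2) Claim: if `W' ⊆ W` is a subgroup then there is a finite set `Θ` of fixed
indices with `2 ^ #Θ ≤ #W'` such that the `ν ∈ W'` which vanish at `τ`, `φ` of the `pl x j`, `j ∈ Θ`, are zero.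
Strong induction on `#W'`: if `W' = 0` take `Θ = ∅`. Otherwise let `0 ≠ ν ∈ W'`; there is a fixed index `j`
such that `ν` does not vanish at both `τ`, `φ` of `pl x j` (otherwise `ν (τ_v) = 0` for all `v` (`ur`, and the
fixed places are `S` and the `x i`, `i ∉ I₀`), `ν (φ_∞) = 0` as `∞ ∈ S`, and `ν = 0` by `S_Hom` (1)). The subgroup
`W''` of the elements of `W'` which vanish at `τ`, `φ` of `pl x j` is proper, so `2 #W'' ≤ #W'`; take
`Θ = insert j Θ''`. (3) `Ξ = (I₀.image inr) ∪ Θ`, `2 ^ #Ξ ≤ 2 ^ #I₀ * #W ≤ 2 ^ #I₀ * 4 ^ #I₀ * #(Dk x 1)`. -/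
def S_Thx : Prop :=
  ∀ {G N P ι : Type} [Group G] [TopologicalSpace G] [AddCommGroup N] [DistribMulAction G N]
    [Fintype ι] [DecidableEq ι] (D : Dat G N P), Ax D → ∀ (x : ι → P), D.Ok x →
    ∀ I₀ : Finset ι, ∃ Ξ : Finset (D.J ι), D.Sep x I₀ Ξ ∧
      2 ^ #Ξ ≤ 8 ^ #I₀ * Nat.card (D.Dk x 1)

/-- Module `VLemB`. PROOF (see `Sm/A/LemB.lean`). Strong induction on `j`, for all cubes and families.
`j = 0`: `t (mx x y w) = 0`, `coc z 0 = 0`. Let `j ≥ 1` (so `U` is not empty), `Φ σ = alt x y U (coc z (t z) σ)`.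
(i) `2 Φ = alt (coc z (2 t z)) = 0` by induction (`j - 1`, family `2 t`, recorded values `2 θ`). (ii) For
`∅ ≠ W ⊆ U`: `2^#W alt (mx x y W) y (U \ W) (coc z (t z)) = alt .. (coc z (2^#W t z)) = 0` by induction for the face
(`SepF`, `Gdf`), level `j - #W`. So `Φ` is a homomorphism to `V` by `Dif`, locally constant. (iii) `IsW x I₀ Φ`:
`Φ (τ_v) = 0` for `v = x i`, `y i` with `i ∈ U` and for the `v` which are not places of the cube exactly as in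
the old proof (there `t (inr i)` is replaced by `θ (inr i)`, the common value of the `t (mx x y w) (inr i)`,
`inr i ∈ Ξ`). For an index `j'` with `∀ i ∈ U, j' ≠ inr i` (place `v`) let `Q_w` be local data of
`coc (mx x y w) (t ..)` and `Q = ∑_{w ⊆ U} (-1)^#w Q_w` (`= alt x y U` of a function; choose `Q` as a function of the
vertices); by `Chi` `Φ g = tw (chi x) g Q - Q` for `g = τ_v, φ_v`, i.e. `Lo x v Q Φ`. `2 Φ = 0` gives
`tw (chi x) g (2 Q) = 2 Q` for both `g`, so `4 Q = 0` (`Ok.tame` if `j' = inl s`; if `j' = inr i` then `tw τ R = -R` by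
`unr` and `S_Tai` (1)). If moreover `j' ∈ Ξ` then `2 Q = ∑ (-1)^#w θ j' = 0` (`U` not empty), so
`Φ (τ_v) = 0 = Φ (φ_v)` (`tw_two`). This gives `lo` for the fixed indices, `ur` also for the places `x i`,
`i ∈ I₀ \ U` (index `inr i ∈ Ξ`), and the hypothesis of `sep`. So `Φ = 0`. SECOND CLAIM. Let `j'` be an index. If
`j' = inr i` with `i ∈ U` then `alt` of the constant `θ j'` is zero. Otherwise, with `Q` as above, `Φ = 0` gives
`tw (chi x) g Q = Q` for `g = τ_v, φ_v`, so `2 Q = 0` (same argument), and `2 Q = alt x y U (fun z => t z j')`. -/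
def S_VLemB : Prop :=
  ∀ {G N P ι : Type} [Group G] [TopologicalSpace G] [AddCommGroup N] [DistribMulAction G N]
    [Fintype ι] [DecidableEq ι] (D : Dat G N P), Ax D → ∀ (x y : ι → P) (U I₀ : Finset ι)
    (Ξ : Finset (D.J ι)), D.Gd x y U → U ⊆ I₀ → D.Sep x I₀ Ξ → ∀ (j : ℕ) (θ : D.J ι → N)
    (t : (ι → P) → D.J ι → N), j ≤ #U → (∀ w ⊆ U, 2 ^ j • t (mx x y w) = 0) →
    (∀ w ⊆ U, ∀ k ∈ Ξ, t (mx x y w) k = θ k) → (∀ i ∈ U, 2 ^ (j - 1) • θ (Sum.inr i) = 0) →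
    (∀ w ⊆ U, t (mx x y w) ∈ D.Z (mx x y w)) →
    (∀ σ, alt x y U (fun z => D.coc z (t z) σ) = 0) ∧ (U.Nonempty → alt x y U t = 0)

/-- Module `VPar` (parallel faces; see `Sm/A/Par.lean`). PROOF. Induction on `W`: for `W = insert i W'`
apply `VLemB` to the good cube `(mx x y W', y, insert i U)` (`Gdf`, `SepF`) with `j = #U + 1` and the recursion
of `Alt`. -/
def S_VPar : Prop :=
  ∀ {G N P ι : Type} [Group G] [TopologicalSpace G] [AddCommGroup N] [DistribMulAction G N]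
    [Fintype ι] [DecidableEq ι] (D : Dat G N P), Ax D → ∀ (x y : ι → P) (U₀ I₀ : Finset ι)
    (Ξ : Finset (D.J ι)), D.Gd x y U₀ → U₀ ⊆ I₀ → D.Sep x I₀ Ξ → ∀ U ⊆ U₀, ∀ W ⊆ U₀,
    Disjoint U W → ∀ (θ : D.J ι → N) (t : (ι → P) → D.J ι → N),
    (∀ w ⊆ U₀, 2 ^ (#U + 1) • t (mx x y w) = 0) →
    (∀ w ⊆ U₀, ∀ k ∈ Ξ, t (mx x y w) k = θ k) → (∀ i ∈ U₀, 2 ^ #U • θ (Sum.inr i) = 0) →
    (∀ w ⊆ U₀, t (mx x y w) ∈ D.Z (mx x y w)) →
    ∀ σ, alt (mx x y W) y U (fun z => D.coc z (t z) σ) = alt x y U (fun z => D.coc z (t z) σ)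

/-- Module `VLemD` (completion of a cube; see `Sm/A/LemD.lean`). PROOF. Let `n = #U`, `ψ z = coc z (t z)`,
`t₀ = cpl x y U t`. `∑_{w ≠ ∅} (-1)^#w = -1` (`U` not empty) gives `t₀ k = θ k` for `k ∈ Ξ`, and `2^(n-1) t₀ = 0` is
clear. If `n = 1` then `t (mx x y U) = 0`, so `t₀ = 0` and `cmp .. = 0` (`coc z 0 = 0`). Let `n ≥ 2`. `Cmp` applies: for
`∅ ≠ W ⊆ U`, `#W ≤ n - 1`: `2^#W alt (mx x y W) y (U \ W) ψ = alt .. (coc z (2^#W t z)) = 0` by `VLemB` with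
`j = n - 1 - #W` for the face (`SepF`; all its vertices are `mx x y w` with `w ≠ ∅`); `#W = n`: `2^n t = 0`. So
`ψ' = cmp x y U ψ` is a cocycle for `chi x`, locally constant, of bounded order. By `CmL` with local data
`2 Q w j = t (mx x y w) j`: at the `j` outside `U` `Lo x (pl x j) Q' ψ'` with
`2 Q' = -∑_{w ≠ ∅} (-1)^#w t (mx x y w) j = t₀ j`. At `x i`, `i ∈ U`: the last term is an alternating sum over
the good cube `(update x i (y i), y, U \ {i})` (`= (mx x y {i}, y, U \ {i})`), zero by `VLemB` with `j = n - 1`; so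
`Lo x (x i) Q' ψ'` with `2 Q' = -(∑_{w ⊆ U \ {i}, w ≠ ∅} (-1)^#w) θ (inr i) = θ (inr i) = t₀ (inr i)`. At `y i`: zero, the
same cube. At the other places unramified. So `IsZ x t₀ ψ'`; `t₀ ∈ Z x`, and `coc x t₀ = ψ'` by `Uq`. -/
def S_VLemD : Prop :=
  ∀ {G N P ι : Type} [Group G] [TopologicalSpace G] [AddCommGroup N] [DistribMulAction G N]
    [Fintype ι] [DecidableEq ι] (D : Dat G N P), Ax D → ∀ (x y : ι → P) (U I₀ : Finset ι)
    (Ξ : Finset (D.J ι)), D.Gd x y U → U.Nonempty → U ⊆ I₀ → D.Sep x I₀ Ξ → ∀ (θ : D.J ι → N)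
    (t : (ι → P) → D.J ι → N), (∀ w ⊆ U, w.Nonempty → 2 ^ (#U - 1) • t (mx x y w) = 0) →
    (∀ w ⊆ U, w.Nonempty → ∀ k ∈ Ξ, t (mx x y w) k = θ k) →
    (∀ i ∈ U, 2 ^ (#U - 2) • θ (Sum.inr i) = 0) →
    (∀ w ⊆ U, w.Nonempty → t (mx x y w) ∈ D.Z (mx x y w)) →
    cpl x y U t ∈ D.Z x ∧ 2 ^ (#U - 1) • cpl x y U t = 0 ∧ (∀ k ∈ Ξ, cpl x y U t k = θ k) ∧
      ∀ σ, D.coc x (cpl x y U t) σ = cmp x y U (fun z => D.coc z (t z)) σ

/-- Module `VLemE` (completion of halves; see `Sm/A/LemE.lean`). PROOF. Let `n = #U`, `ξ₀ = cpl x y U ξ`.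
`ξ (mx x y w) ∈ Z (mx x y w)` for `w ≠ ∅` (`IsH.hf`), so `VLemD` gives `ξ₀ ∈ Z x` and
`coc x ξ₀ = cmp x y U (coc z (ξ z))`; `2 η (mx x y w) = coc (mx x y w) (ξ ..)` (`Uq`). `η₁ = cmp x y U η`, so
`2 η₁ = coc x ξ₀`. `η₁` is a cocycle by `Cmp`: `2^#W alt (mx x y W) y (U \ W) η = alt .. (coc z (2^(#W-1) ξ z)) = 0` by
`VLemB` with `j = n - #W` for the face. The rest of the construction of `η' = η₁ - θ` is unchanged
(`Hom` (2), `θ (τ_(y i)) = η₁ (τ_(y i))`). Let `ν` be as in the statement. All the functions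
`coc (mx x y w) ν`, `w ⊆ U`, are equal by the OLD `LemB` (`S_LemB`, constant type `ν`, `j = 1`, one-dimensional
cubes), they vanish at `τ`, `φ` of `x i`, `y i`, `i ∈ U`. By `Rcv` `∑ j, lp θ (coc x ν) (pl x j) = 0`. Use `ObR` (2) for
`ob x ξ₀ η' ν` with `R j = -∑_{w ≠ ∅} (-1)^#w quar (ξ (mx x y w) j)` (`4 R j = ξ₀ j`; `Dk1` for `quar`). For
`j = inr i`, `i ∈ U`, the terms vanish, also for all other vertices. For the other `j` the character
and the place are the same for all vertices and `η₁ g - (tw g (R j) - R j) = -∑_{w ≠ ∅} (-1)^#w df (mx x y w)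
(ξ ..) (η ..) j g`, where the `df` have order two (`ObR` (1)); in `ZMod 2` the signs disappear. -/
def S_VLemE : Prop :=
  ∀ {G N P ι : Type} [Group G] [TopologicalSpace G] [AddCommGroup N] [DistribMulAction G N]
    [Fintype ι] [DecidableEq ι] (D : Dat G N P), Ax D → ∀ (x y : ι → P) (U I₀ : Finset ι)
    (Ξ : Finset (D.J ι)), D.Gd x y U → 2 ≤ #U → U ⊆ I₀ → D.Sep x I₀ Ξ → ∀ (θ : D.J ι → N)
    (ξ : (ι → P) → D.J ι → N), (∀ w ⊆ U, w.Nonempty → 2 ^ (#U - 1) • ξ (mx x y w) = 0) →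
    (∀ w ⊆ U, w.Nonempty → ∀ k ∈ Ξ, ξ (mx x y w) k = θ k) →
    (∀ i ∈ U, 2 ^ (#U - 2) • θ (Sum.inr i) = 0) → ∀ η : (ι → P) → G → N,
    (∀ w ⊆ U, w.Nonempty → D.IsH (mx x y w) (ξ (mx x y w)) (η (mx x y w))) →
    ∃ η' : G → N, D.IsH x (cpl x y U ξ) η' ∧ ∀ ν, (∀ w ⊆ U, ν ∈ D.Dk (mx x y w) 1) →
      (∀ i ∈ U, ν (Sum.inr i) = 0) →
      D.ob x (cpl x y U ξ) η' ν =
        ∑ w ∈ U.powerset.erase ∅, D.ob (mx x y w) (ξ (mx x y w)) (η (mx x y w)) ν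

/-- Module `VRulL` (completion of cubes of liftable types; see `Sm/A/RulL.lean`). `τ z = 2 t z`. PROOF. Let
`n = #U`, `τ₀ = cpl x y U τ`. The recorded values of `τ` at `inr i`, `i ∈ U`: `2^(n-2) θ (inr i) = f (inr i) = 0`
(take a vertex `w ≠ ∅`); `2^(n-1) τ (mx x y w) = 2 f = 0`. So `VLemD` applies to `τ`: `τ₀ ∈ Z x`,
`coc x τ₀ = cmp x y U (coc z (τ z))`, and `2^(n-2) τ₀ = -∑_{w ≠ ∅} (-1)^#w f = f`. Choose `ω ∈ Z x` with `2^n ω = 0`,
`2^(n-1) ω = f` and `ξ = 2 ω - τ₀`; `2^(n-2) ξ = 0`. Continue as in the old proof with `τ₀` instead of `τ`: change `t` at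
the vertex `{b}` by a constant `s ∈ V` such that `ψ' = cmp x y U (coc z (t z))` vanishes at `τ_(y b)` (`2 ψ' =
coc x τ₀`; this does not change `τ`); `ψ'` is a cocycle by `Cmp` and `VLemB` (`2^#W alt .. =
alt (coc z (2^(#W-1) τ z))`, `j = n - #W`). `η₁ = coc x ω - ψ'`, etc. In the computation of `ob x ξ η ν` use `ObR`
with `R j = Q₀ - Q₁`, `Q₁ = -∑_{w ≠ ∅} (-1)^#w Q w j`, `2 Q w j = t (mx x y w) j`:
`4 R j = 2 ω j + ∑_{w ≠ ∅} (-1)^#w τ (mx x y w) j = 2 ω j - τ₀ j = ξ j`; for `j = inr b`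
`Q₁ = -∑_{∅ ≠ w ⊆ U \ {b}} (-1)^#w Q w j`, `4 Q₁ = 2 θ (inr b)..`: all `τ (mx x y w) (inr b) = θ (inr b)`, so
`4 Q₁ = θ (inr b) = τ₀ (inr b)` and again `4 R j = ξ j`. All other steps are unchanged; `coc x ν = coc (mx x y {i}) ν` is
the OLD `LemB` (`j = 1`). Conclusion: `ξ = 2 ζ` (`Dua`), `t₀ = ω - ζ`, `2 t₀ = τ₀`. -/
def S_VRulL : Prop :=
  ∀ {G N P ι : Type} [Group G] [TopologicalSpace G] [IsTopologicalGroup G] [AddCommGroup N]
    [DistribMulAction G N] [Fintype ι] [DecidableEq ι] (D : Dat G N P), Ax D → Ax2 D →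
    ∀ (x y : ι → P) (U I₀ : Finset ι) (Ξ : Finset (D.J ι)) (b : ι), D.Gd x y U → b ∈ U →
    2 ≤ #U → U ⊆ I₀ → D.Sep x I₀ Ξ → ∀ (θ f : D.J ι → N) (t : (ι → P) → D.J ι → N),
    (∀ w ⊆ U, w.Nonempty → t (mx x y w) ∈ D.Z (mx x y w) ∧
      2 ^ (#U - 2) • (2 • t (mx x y w)) = f ∧ ∀ k ∈ Ξ, 2 • t (mx x y w) k = θ k) →
    2 • f = 0 → (∀ i ∈ U, f (Sum.inr i) = 0) →
    f ∈ D.Dk x #U → (∀ w ⊆ U, D.Dk (mx x y w) 1 = D.Dk x 1) →
    ∀ (γ : (D.J ι → N) → ZMod 2) (t' : N), 2 • t' = 0 →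
    (∀ ν ∈ D.Dk x 1, ∀ ν' ∈ D.Dk x 1, γ (ν + ν') = γ ν + γ ν') → (∀ ν ∈ D.T ι, γ ν = 0) →
    (∀ ν, ν ∉ D.Dk x 1 → γ ν = 0) →
    (∀ ν ∈ D.Dk x 1, ∃ s : N, 2 • s = 0 ∧ ∀ i ∈ U.erase b, ν (Sum.inr i) = s) →
    (∀ ν ∈ D.Dk x 1, (∀ i ∈ U.erase b, ν (Sum.inr i) = 0) →
      ν (Sum.inr b) = if γ ν = 0 then 0 else t') →
    γ ∉ D.O x (#U - 1) → ∃ t₀ ∈ D.Z x, 2 • t₀ = cpl x y U (fun z => 2 • t z)

/-- Module `VStar` (see `Sm/A/Star.lean`). PROOF. `τ z = 2 t z`. `θ' = alt x y U (coc z (t z))`: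
`2 θ' = alt (coc z (τ z)) = 0` (`VLemB` for `τ`, `j = n - 1`, `n = #U`); by `Dif` and `VLemB` for the faces
(`2^#W alt .. = alt (coc z (2^(#W-1) τ z))`, `j = n - #W`) it is a homomorphism to `V`. Reciprocity `Rcv` for
`θ'` and `coc x ν` as in the old proof. At `pl x j`, `j` outside `U`: `θ' = tw Q - Q` with `Q = ∑ (-1)^#w Q w j`,
`4 Q = ∑_{w ⊆ U} (-1)^#w τ (mx x y w) j = 0` by the SECOND CLAIM of `VLemB` for `τ`; then `Iso`. At `x b`:
`Q = ∑_{w ⊆ U \ {b}} (-1)^#w Q w (inr b)`, `4 Q = ∑ (-1)^#w θ (inr b) = 0` (`U \ {b}` is not empty). All `coc (mx x y w) ν`,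
`w ⊆ U \ {b}`, are equal: OLD `LemB` (`j = 1`). Everything else is unchanged. -/
def S_VStar : Prop :=
  ∀ {G N P ι : Type} [Group G] [TopologicalSpace G] [AddCommGroup N]
    [DistribMulAction G N] [Fintype ι] [DecidableEq ι] (D : Dat G N P), Ax D →
    ∀ (x y : ι → P) (U I₀ : Finset ι) (Ξ : Finset (D.J ι)) (b : ι), D.Gd x y U → b ∈ U →
    2 ≤ #U → U ⊆ I₀ → D.Sep x I₀ Ξ → ∀ (θ : D.J ι → N) (t : (ι → P) → D.J ι → N),
    (∀ w ⊆ U, t (mx x y w) ∈ D.Z (mx x y w) ∧ 2 ^ (#U - 1) • (2 • t (mx x y w)) = 0 ∧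
      ∀ k ∈ Ξ, 2 • t (mx x y w) k = θ k) → (∀ i ∈ U, 2 ^ (#U - 2) • θ (Sum.inr i) = 0) →
    alt (Function.update x b (y b)) y (U.erase b) (fun z => D.coc z (t z) (D.tau (y b))) = 0 →
    ∀ ν, (∀ w ⊆ U, ν ∈ D.Dk (mx x y w) 1) → (∀ i ∈ U.erase b, ν (Sum.inr i) = 0) →
    D.e (alt (Function.update x b (y b)) y (U.erase b) fun z => D.coc z (t z) (D.phi (x b)))
      (ν (Sum.inr b)) = 0

/-- Module `VStr0` (the same for `x b = y b`; see `Sm/A/Str0.lean`, same proof: only the value of `2 t` at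
`inr b` is used). PROOF. At `v = x b`, `b ∉ I`: all vertices have this place with index `inr b` and the
same character (`Chi`), so `α g = tw g Q - Q` at `g = τ, φ` with `Q = ∑ (-1)^#w Q w`,
`2 Q = ∑ (-1)^#w (t (mx x y w)) (inr b)`. `α τ = -(2 Q)` (`Tai`), so `2 Q = 0` and `α φ = tw φ Q - Q = 0`. The second
statement: `α τ ∈ V` since `4 Q = ∑ (-1)^#w c = 0`, and adding the constant function `s = α τ` to `t x`
changes `α τ` by `-s`. -/
def S_VStr0 : Prop :=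
  ∀ {G N P ι : Type} [Group G] [TopologicalSpace G] [AddCommGroup N]
    [DistribMulAction G N] [Fintype ι] [DecidableEq ι] (D : Dat G N P), Ax D →
    ∀ (x y : ι → P) (I : Finset ι) (b : ι), D.Gd x y I → b ∉ I → I.Nonempty → ∀ c : N,
    ∀ t : (ι → P) → D.J ι → N,
    (∀ w ⊆ I, t (mx x y w) ∈ D.Z (mx x y w) ∧ 2 • t (mx x y w) (Sum.inr b) = c) →
    (alt x y I (fun z => D.coc z (t z) (D.tau (x b))) = 0 →
      alt x y I (fun z => D.coc z (t z) (D.phi (x b))) = 0) ∧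
    ∃ s : N, 2 • s = 0 ∧ ∀ t₁ : (ι → P) → D.J ι → N, t₁ x = t x + (fun _ => s) →
      (∀ w ⊆ I, w.Nonempty → t₁ (mx x y w) = t (mx x y w)) →
      alt x y I (fun z => D.coc z (t₁ z) (D.tau (x b))) = 0

/-- Module `VFac` (see `Sm/A/Fac.lean`). PROOF. `n = #I ≥ 1`, `F U = vfc x y I t U = alt x y U (coc z (2^(n-#U) t z))`,
`τ z = 2 t z`. (1) `two`: `2 F U = alt x y U (coc z (2^(n-#U) τ z))`, `VLemB` with `j = #U` (recorded values
`2^(n-#U) θ`; `2^(#U-1) 2^(n-#U) θ (inr i) = 2^(n-1) θ (inr i) = 0` for `i ∈ U`; the face `(x, y, U)` is good, `Gdf` with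
`A = ∅`). (2) `mul`: `Dif` (the left side is zero, the values are in `V`), and for `∅ ≠ W ⊆ U`, `m = #(U \ W)`:
`2^#W coc z (2^(n-#U) t z) = coc z (2^(n-m) t z)`, and `alt (mx x y W) y (U \ W)` of it is `alt x y (U \ W)` of it by
`VPar` (type `2^(n-m) t = 2^(n-m-1) τ` as `m < n`; `2^(m+1) 2^(n-m-1) τ = 2^n τ = 0`, `2^m 2^(n-m-1) θ (inr i) = 0`), which
is `F (U \ W)`. `n - #∅ = n`. Locally constant: finite sums of cocycles. -/
def S_VFac : Prop :=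
  ∀ {G N P ι : Type} [Group G] [TopologicalSpace G] [AddCommGroup N] [DistribMulAction G N]
    [Fintype ι] [DecidableEq ι] (D : Dat G N P), Ax D → ∀ (x y : ι → P) (I I₀ : Finset ι)
    (Ξ : Finset (D.J ι)), D.Gd x y I → I.Nonempty → I ⊆ I₀ → D.Sep x I₀ Ξ →
    ∀ (θ : D.J ι → N) (t : (ι → P) → D.J ι → N),
    (∀ w ⊆ I, t (mx x y w) ∈ D.Z (mx x y w) ∧ 2 ^ #I • (2 • t (mx x y w)) = 0 ∧
      ∀ k ∈ Ξ, 2 • t (mx x y w) k = θ k) → (∀ i ∈ I, 2 ^ (#I - 1) • θ (Sum.inr i) = 0) →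
    Sys I (fun i σ => D.ch (x i) σ + D.ch (y i) σ) (D.vfc x y I t) ∧
    (∀ U ⊆ I, IsLocallyConstant (D.vfc x y I t U)) ∧
    ∀ σ, D.vfc x y I t ∅ σ = D.coc x (2 ^ #I • t x) σ

/-- Module `VPsi0` (values at the prime `b` and ramification; see `Sm/A/Psi0.lean`). PROOF of (A): `I = U \ {b}`,
`F' ⊂ I` proper, `k = #I - #F' ≥ 1`, family `2^k t = 2^(k-1) τ`, `τ = 2 t`. `VPar` (for `F'`, `W = {b}`;
`2^(#F'+1) 2^(k-1) τ = 2^#I τ = 0`, `#I = #U - 1`) `alt (update x b (y b)) y F' (coc z (2^k t z)) = alt x y F' (..)`. At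
`v = x b` the `coc (mx x y w) (2^k t ..)`, `w ⊆ F'`, are `tw g Q_w - Q_w` with the same character and
`2 Q_w = 2^(k-1) θ (inr b)` for all `w`; if `F' ≠ ∅` then all values are equal (`Lfx`) and the alternating sum
is zero; if `F' = ∅` then `k = #I` and `2 Q = 2^(#I-1) θ (inr b) = 2^(#U-2) θ (inr b) = 0`, so the value is zero.
(B): the same at `φ_(x b)` and `τ_(x b)` for the cube at the prime `x b` itself. (C): all vertices are
unramified outside `S`, `x`, `y`. -/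
def S_VPsi0 : Prop :=
  (∀ {G N P ι : Type} [Group G] [TopologicalSpace G] [AddCommGroup N] [DistribMulAction G N]
    [Fintype ι] [DecidableEq ι] (D : Dat G N P), Ax D → ∀ (x y : ι → P) (U I₀ : Finset ι)
    (Ξ : Finset (D.J ι)) (b : ι), D.Gd x y U → b ∈ U → 2 ≤ #U → U ⊆ I₀ → D.Sep x I₀ Ξ →
    ∀ (θ : D.J ι → N) (t : (ι → P) → D.J ι → N),
    (∀ w ⊆ U, t (mx x y w) ∈ D.Z (mx x y w) ∧ 2 ^ (#U - 1) • (2 • t (mx x y w)) = 0 ∧
      ∀ k ∈ Ξ, 2 • t (mx x y w) k = θ k) → (∀ i ∈ U, 2 ^ (#U - 2) • θ (Sum.inr i) = 0) →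
    ∀ F' ⊆ U.erase b, F' ≠ U.erase b →
    D.vfc (Function.update x b (y b)) y (U.erase b) t F' (D.phi (x b)) = 0) ∧
  (∀ {G N P ι : Type} [Group G] [TopologicalSpace G] [AddCommGroup N] [DistribMulAction G N]
    [Fintype ι] [DecidableEq ι] (D : Dat G N P), Ax D → ∀ (x y : ι → P) (I : Finset ι) (b : ι),
    D.Gd x y I → b ∉ I → I.Nonempty → ∀ (c : N) (t : (ι → P) → D.J ι → N),
    2 ^ (#I - 1) • c = 0 →
    (∀ w ⊆ I, t (mx x y w) ∈ D.Z (mx x y w) ∧ 2 • t (mx x y w) (Sum.inr b) = c) →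
    ∀ F' ⊆ I, F' ≠ I →
    D.vfc x y I t F' (D.phi (x b)) = 0 ∧ D.vfc x y I t F' (D.tau (x b)) = 0) ∧
  (∀ {G N P ι : Type} [Group G] [TopologicalSpace G] [AddCommGroup N] [DistribMulAction G N]
    [Fintype ι] [DecidableEq ι] (D : Dat G N P), Ax D → ∀ (x y : ι → P) (I : Finset ι),
    D.Gd x y I → ∀ t : (ι → P) → D.J ι → N, (∀ w ⊆ I, t (mx x y w) ∈ D.Z (mx x y w)) →
    ∀ F' ⊆ I, ∀ v, v ∉ D.S →
    (∀ i, v ≠ x i) → (∀ i ∈ I, v ≠ y i) → D.vfc x y I t F' (D.tau v) = 0)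

end Pool.Agent.MP72S
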