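import Pool.Agent.Lib.MP_72e2e6_nt.Sm.Cnt.Final

/-!
# MP_72e2e6_nt, `Sm/N`: statements with proofs, part C (the counting theorem, uniform version)

Modules `Cst`, `Cod2`, `Min2`: file `Sm/N/X.lean` (import this file only) with `theorem tX : .. → S_X`, namespace
`Pool.Agent.Lib.MP_72e2e6_nt.Sm.Cnt`, all other declarations `private`. They are the explicit forms of `coding`
(`Sm/Cnt/Main.lean`) and of `main_ineq` (`Sm/Cnt/Final.lean`): `M` is a power of `L`, the error is `1 / L ^ e`,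
`#V` and `C0` may be as large as `2 ^ (L ^ 2)`; only `#T1`, `#T2` are bounded.
-/

namespace Pool.Agent.Lib.MP_72e2e6_nt.Sm.Cnt

open Finset

/-- **Cst** (50 lines). PROOF. Induction on `n`. `n = 0`: `0 ≤ 2 * M ^ (-1)`. Step: `cst M (n + 1) =
√(1 / M + cst M n) ≤ √(M ^ (-1/2^n) + 2 M ^ (-1/2^n)) = √3 * M ^ (-1/2^(n+1)) ≤ 2 M ^ (-1/2^(n+1))`, since
`1 / M = M ^ (-1) ≤ M ^ (-1/2^n)` for `M ≥ 1`. -/
def S_Cst : Prop :=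
  ∀ (M n : ℕ), 1 ≤ M → cst M n ≤ 2 * (M : ℝ) ^ (-(1 / 2 ^ n : ℝ))

/-- **Cod2** (200 lines, uses `S_Cst`; see `coding` in `Sm/Cnt/Main.lean`). The main counting theorem, explicit form.

PROOF. `A = 2 ^ K * (e + 4)`, `M = L ^ A`, `N = M ^ K ≥ M`, `ε = 1 / L ^ e`, `E = ε / 2 * N`. By `S_Cst`
`cst M K ≤ 2 * L ^ (-(e + 4))`. Let `n = 2 ^ (L ^ 2)` (the bound for `#V`), `δ = 1 / L ^ (e + 1)`, `x = δ / n ∈ (0, 1]`. Then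
`x ^ (-(cst * N)) * (1 + n x) ^ N ≤ u := 2 ^ (ρ * N)` with `ρ = (L ^ 2 + (e + 1) * log₂ L) * cst M K + 2 * δ`, since
`1 + δ ≤ 2 ^ (2 δ)` and `1 / x = 2 ^ (L ^ 2) * L ^ (e + 1)`. For large `L`: `(e + 1) log₂ L ≤ L ^ 2`, so
`ρ ≤ 4 L ^ (-(e + 2)) + 2 L ^ (-(e + 1)) ≤ 3 L ^ (-(e + 1))`, and `t * cst M K + 2 * t * ρ ≤ 7 / 64 * ε` if `L ≥ L₀(t, e)`. `bad_bound`
(`t1 = t2 = t`) gives, for `Bad` the set of the `b` with `E ≤ #(Z b)`, `15 #(Z b) ≤ 16 #(Y b)`,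
`#Bad ≤ C0 * #β * 2 ^ (t * cst * N - 7 / 16 * E + 2 * t * ρ * N) ≤ 2 ^ (L ^ 2) * #β * 2 ^ (-(7 / 64) * ε * N) ≤ ε / 2 * #β`, the last
step since `ε * N ≥ L ^ (A - e) ≥ L ^ 4` and `L` is large. The conclusion is as in `coding` (last part of its
proof: `#(Y b) ≤ 15 / 16 #(Z b) + E` for `b ∉ Bad`, `#(Y b) ≤ N` for `b ∈ Bad`). -/
def S_Cod2 : Prop :=
  ∀ K t e : ℕ, 1 ≤ K → ∃ A L₀ : ℕ, ∀ L : ℕ, L₀ ≤ L → 0 < L ^ A ∧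
    ∀ {ι : Type} [Fintype ι] {β 𝒜 T1 T2 V : Type} [Fintype β] [Fintype 𝒜] [Fintype T1]
      [Fintype T2] [Fintype V] {C0 : ℕ} (C : CodingData ι (L ^ A) β 𝒜 T1 T2 V C0),
      Fintype.card ι = K → C0 ≤ 2 ^ (L ^ 2) → Fintype.card T1 ≤ t → Fintype.card T2 ≤ t →
      Fintype.card V ≤ 2 ^ (L ^ 2) →
      ∑ b, (#(C.Y b) : ℝ) ≤ 15 / 16 * ∑ b, (#(C.Z b) : ℝ) +
        1 / (L : ℝ) ^ e * ((L ^ A : ℕ) : ℝ) ^ K * Fintype.card β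

/-- **Min2** (100 lines, uses `S_Cod2`; see `main_ineq` in `Sm/Cnt/Final.lean`). The main inequality, explicit form.

PROOF. Take `A` from `S_Cod2` for `(K, t, e + 1)`, `M = L ^ A`. `average` with `c = 15 / 16`, `ε' = 1 / L ^ (e + 1)`: its
hypothesis is `(K M) (K M + #T) ≤ ε' * #(S i)`, true for large `L` since `#(S i) ≥ 2 ^ L` and the left side times
`L ^ (e + 1)` is at most a polynomial in `L`. The error is `2 * ε' ≤ 1 / L ^ e` for `L ≥ 2`. -/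
def S_Min2 : Prop :=
  ∀ K t e : ℕ, 1 ≤ K → ∃ A L₀ : ℕ, ∀ L : ℕ, L₀ ≤ L →
    ∀ {ι P β : Type} [Fintype ι] [Fintype β] (S : ι → Finset P) (T : Finset P)
      (z y : (ι → P) → β → Prop), Fintype.card ι = K → (∀ i, 2 ^ L ≤ #(S i)) → #T ≤ L ^ 2 →
      (∀ e' : ι × Fin (L ^ A) → P, (∀ k, e' k ∈ S k.1) → Function.Injective e' →
        (∀ k, e' k ∉ T) →
        ∃ (𝒜 T1 T2 V : Type) (_ : Fintype 𝒜) (_ : Fintype T1) (_ : Fintype T2) (_ : Fintype V)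
          (C0 : ℕ) (C : CodingData ι (L ^ A) β 𝒜 T1 T2 V C0), C0 ≤ 2 ^ (L ^ 2) ∧
          Fintype.card T1 ≤ t ∧ Fintype.card T2 ≤ t ∧ Fintype.card V ≤ 2 ^ (L ^ 2) ∧
          (∀ b w, w ∈ C.Z b ↔ z (fun i => e' (i, w i)) b) ∧
          (∀ b w, w ∈ C.Y b ↔ y (fun i => e' (i, w i)) b)) →
      (Nat.card {q : (ι → P) × β // (∀ i, q.1 i ∈ S i) ∧ y q.1 q.2} : ℝ) ≤
        15 / 16 * (Nat.card {q : (ι → P) × β // (∀ i, q.1 i ∈ S i) ∧ z q.1 q.2} : ℝ) +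
          1 / (L : ℝ) ^ e * Fintype.card β * ∏ i, (#(S i) : ℝ)

end Pool.Agent.Lib.MP_72e2e6_nt.Sm.Cnt
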