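import Pool.Agent.Lib.MP_72e2e6_nt.Sm.N.SpecA
import Pool.Agent.Lib.MP_72e2e6_nt.Sm.N.SpecC
import Pool.Agent.Lib.MP_72e2e6_nt.Sm.Y.Spec

/-!
# MP_72e2e6_nt, `Sm/N`: statements with proofs, part B (the bridge to the counting theorem)

File `Sm/N/X.lean` (import this file only) with `theorem tX : .. → S_X`, namespace `Pool.Agent.MP72S`, all other
declarations `private`. The statements `S_VHg` etc. are the statements `S_Hg` etc. of `Sm/Br/Spec.lean` with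
families of types; copy and change the proofs in `Sm/Br`. `Ξ` is a set of recorded indices which is good
(`Dat.Sep`) for all good points of the grid, with `I₀ = insert g.b g.I`. A recorded value is a function
`θ : D.J ι → N`, of which only the values on `Ξ` matter.
-/

namespace Pool.Agent.MP72S

open Finset
open Pool.Agent.Lib.MP_72e2e6_nt.Sm.Cnt (vtx Corner CodingData)

section

variable {G N P : Type} [Group G] [TopologicalSpace G] [AddCommGroup N] [DistribMulAction G N]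
  (D : Dat G N P) {ι : Type} [Fintype ι] [DecidableEq ι] {M : ℕ}

/-- The values of the partial functions: a type and a functional on `Lam`. -/
abbrev Dat.GV (K : ℕ) (Lam : AddSubgroup (D.J ι → N)) : Type :=
  {ξ : D.J ι → N // 2 ^ (K - 1) • ξ = 0} × ({ν : D.J ι → N // ν ∈ Lam} → ZMod 2)

/-- `v` is the value at `(c, p)` for the recorded value `θ`. -/
structure Dat.Gv (g : Grd P ι M) (K : ℕ) (Lam : AddSubgroup (D.J ι → N)) (Ξ : Finset (D.J ι))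
    (θ : D.J ι → N) (c : P) (p : {i // i ∈ g.I} → Fin M) (v : D.GV K Lam) : Prop where
  rc : ∀ k ∈ Ξ, v.1.1 k = θ k
  hf : ∃ η, D.IsH (g.cf c p) v.1.1 η
  ob : ∀ η, D.IsH (g.cf c p) v.1.1 η → ∀ ν : {ν : D.J ι → N // ν ∈ Lam},
    (∀ i ∈ g.I, ν.1 (Sum.inr i) = 0) → v.2 ν = D.ob (g.cf c p) v.1.1 η ν.1
  ob0 : ∀ ν : {ν : D.J ι → N // ν ∈ Lam}, ¬ (∀ i ∈ g.I, ν.1 (Sum.inr i) = 0) → v.2 ν = 0

open Classical in
/-- The partial functions: the type of a half with the recorded value `θ`, and its functional. -/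
noncomputable def Dat.gfx (S : ι → Finset P) (g : Grd P ι M) (s : D.ST ι) (K : ℕ)
    (Lam : AddSubgroup (D.J ι → N)) (Ξ : Finset (D.J ι)) (θ : D.J ι → N) (c : P)
    (p : {i // i ∈ g.I} → Fin M) : Option (D.GV K Lam) :=
  if h : D.Gp S g s c p ∧ ∃ v, D.Gv g K Lam Ξ θ c p v then some h.2.choose else none

/-- The points where `f` lifts and there is a liftable type `2 t` over `f` with recorded value `θ`. -/
def Dat.Lq (S : ι → Finset P) (g : Grd P ι M) (K : ℕ) (s : D.ST ι) (f : D.J ι → N)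
    (Ξ : Finset (D.J ι)) (θ : D.J ι → N) (c : P) (p : {i // i ∈ g.I} → Fin M) : Prop :=
  D.Yp S g K s f c p ∧ ∃ t ∈ D.Z (g.cf c p), 2 ^ (K - 1) • (2 • t) = f ∧
    ∀ k ∈ Ξ, 2 • t k = θ k

/-- Stepanov's bound for the set `T`, with the constant `Λ`. -/
def Dat.FewL (Gb : Subgroup G) (A : Finset P) (B Λ : ℕ) (T : Finset P) : Prop :=
  ∀ H : Subgroup G, H.Normal → IsOpen (H : Set G) → H.index ≤ B → (∀ v, v ∉ A → D.tau v ∈ H) →
    ({c ∈ T | D.phi c ∈ H} : Set P).ncard * H.relIndex Gb ≤ Λ * #T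

end

/-- Module `VGfx` (characterization of the partial functions, 100 lines). `S_ObA → S_TyX → S_VGfx`. PROOF.
(1) is the definition of `gfx` (`choose_spec`). (2) Let `ξ`, `η` be given. `v = (ξ, fun ν => if (∀ i ∈ I, ν (inr i) = 0) then ob ..
ξ η ν else 0)` satisfies `Gv` (`ob`: `ObA` (5), the elements of `Lam = Dk (cf c p) 1`), so `gfx = some v'` with `Gv v'`.
`v'.1.1` and `ξ` are in `Z (cf c p)` (`IsH.hf`), both are killed by `2^(K-1)` and have the same recorded values, so they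
are equal by `TyX`, and the functionals are equal by `Gv.ob` for `η`. (3) Two values `v`, `v'` with `Gv` for the same
`θ` are equal (as in (2)). -/
def S_VGfx : Prop :=
  ∀ {G N P ι : Type} [Group G] [TopologicalSpace G] [AddCommGroup N] [DistribMulAction G N]
    [Fintype ι] [DecidableEq ι] {M : ℕ} (D : Dat G N P), Ax D → ∀ (S : ι → Finset P)
    (g : Grd P ι M) (s : D.ST ι), D.Gok S g → ∀ (K : ℕ) (Lam : AddSubgroup (D.J ι → N))
    (Ξ : Finset (D.J ι)), (∀ c p, D.Gp S g s c p → D.Dk (g.cf c p) 1 = Lam) →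
    (∀ c p, D.Gp S g s c p → D.Sep (g.cf c p) (insert g.b g.I) Ξ) → ∀ (θ : D.J ι → N) (c : P)
    (p : {i // i ∈ g.I} → Fin M),
    (∀ v, D.gfx S g s K Lam Ξ θ c p = some v → D.Gp S g s c p ∧ D.Gv g K Lam Ξ θ c p v) ∧
    (D.Gp S g s c p → ∀ (ξ : D.J ι → N) (η : G → N), 2 ^ (K - 1) • ξ = 0 →
      (∀ k ∈ Ξ, ξ k = θ k) → D.IsH (g.cf c p) ξ η →
      ∃ v, D.gfx S g s K Lam Ξ θ c p = some v ∧ v.1.1 = ξ) ∧
    (D.Gp S g s c p → ∀ v v', D.Gv g K Lam Ξ θ c p v → D.Gv g K Lam Ξ θ c p v' → v = v')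

/-- Module `VHg` (completion rule for the partial functions, 200 lines; model `Br/Hg.lean`).
`S_VLemE → S_ObA → S_Cf → S_Gdc → S_VGfx → S_VHg`. PROOF. `K = #I ≥ 2`. All vertices are good for `c`, so by `Gdc` the cube
`X = cf c p`, `Y = cf c x`, `U = I` is good, `mx X Y w = cf c (vtx x p ..)` (`Cf`). For `w ≠ ∅` let
`v_w` be the value of `gfx` at the vertex (`VGfx` (1)), `ξ z = v_w.1.1`, `η z` a half, as functions of the configuration `z`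
(`mx X Y` is injective on the subsets of `I`, or use choice for the predicate `IsH z ξ η ∧ 2^(K-1) ξ = 0 ∧ ξ = θ on Ξ`, which
determines `ξ` by `TyX`/`VGfx` (3)). `VLemE` (`I₀ = insert b I`): there is `η'` with `IsH X (cpl X Y I ξ) η'` and
`ob X (cpl ..) η' ν = ∑_{w ≠ ∅} ob ..` for `ν ∈ Lam`, `ν = 0` on `I`. `2^(K-1) cpl .. = 0`, and `cpl .. = θ` on `Ξ`
(`∑_{w ≠ ∅} (-1)^#w = -1`). By `VGfx` (2) `gfx θ c p = some v` with `v.1.1 = cpl X Y I ξ`, and `v.2 ν = ∑_{w ≠ ∅} v_w.2 ν` for all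
`ν ∈ Lam` (both zero if `ν` does not vanish on `I`; `Gv.ob`). So `gfx θ c p` is a function of the `gfx θ c (vtx x p w)`, `w ≠ top`,
and the same for `c'`. -/
def S_VHg : Prop :=
  ∀ {G N P ι : Type} [Group G] [TopologicalSpace G] [AddCommGroup N] [DistribMulAction G N]
    [Fintype ι] [DecidableEq ι] {M : ℕ} (D : Dat G N P), Ax D → ∀ (S : ι → Finset P)
    (g : Grd P ι M) (s : D.ST ι), D.Gok S g → ∀ (Lam : AddSubgroup (D.J ι → N))
    (Ξ : Finset (D.J ι)), (∀ c p, D.Gp S g s c p → D.Dk (g.cf c p) 1 = Lam) →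
    (∀ c p, D.Gp S g s c p → D.Sep (g.cf c p) (insert g.b g.I) Ξ) → ∀ θ : D.J ι → N, 2 ≤ #g.I →
    (∀ i ∈ g.I, 2 ^ (#g.I - 2) • θ (Sum.inr i) = 0) →
    ∀ (c c' : P) (x p : {i // i ∈ g.I} → Fin M), (∀ i, x i < p i) →
    (∀ w, D.Gp S g s c (vtx x p w)) → (∀ w, D.Gp S g s c' (vtx x p w)) →
    (∀ w, w ≠ (fun _ => true) → D.gfx S g s #g.I Lam Ξ θ c (vtx x p w) ≠ none ∧
      D.gfx S g s #g.I Lam Ξ θ c (vtx x p w) = D.gfx S g s #g.I Lam Ξ θ c' (vtx x p w)) →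
    D.gfx S g s #g.I Lam Ξ θ c p = D.gfx S g s #g.I Lam Ξ θ c' p

/-- Module `VHz` (the state is determined by the code and the partial functions, 150 lines; model
`Br/Hz.lean`). `S_Det → S_O1 → S_ObA → S_Dom → S_VGfx → S_VHz`. PROOF. Let `Zp c p`. `Gp c p`, so `Gp c' p`. `x = cf c p`,
`x' = cf c' p`. `K = 1`: `O1`. `K ≥ 2`: `Det`, `I` is not empty, `Cho.com`. Let `ξ` be as in `Det` and `η` a half for `x`. Put `θ = ξ` on
`Ξ`, `θ = 0` outside; `2^(K-1) θ = 0`, `2^(K-2) θ (inr i) = 0` for `i ∈ I` (value `0` or `ξ (inr i)`). `VGfx` (2):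
`gfx θ c p = some v`, `v.1.1 = ξ`, so `gfx θ c' p = some v`, and by `VGfx` (1) `x'` has a half of `ξ`, with the same functional on the
`ν ∈ Lam` with `ν = 0` on `I` (`Gv.ob` for both). Symmetric. -/
def S_VHz : Prop :=
  ∀ {G N P ι : Type} [Group G] [TopologicalSpace G] [IsTopologicalGroup G] [AddCommGroup N]
    [DistribMulAction G N] [Fintype ι] [DecidableEq ι] {M : ℕ} (D : Dat G N P), Ax D → Ax2 D →
    ∀ (S : ι → Finset P) (g : Grd P ι M) (s : D.ST ι), D.Gok S g → ∀ (K : ℕ)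
    (Lam : AddSubgroup (D.J ι → N)) (f : D.J ι → N) (γ : (D.J ι → N) → ZMod 2) (t' : N)
    (Ξ : Finset (D.J ι)),
    D.Cho g.I g.b K s Lam f γ t' → (∀ c p, D.Gp S g s c p → D.Dk (g.cf c p) 1 = Lam) →
    (∀ c p, D.Gp S g s c p → D.Sep (g.cf c p) (insert g.b g.I) Ξ) →
    ∀ (c c' : P), D.cod S g s c = D.cod S g s c' →
    (∀ θ : D.J ι → N, 2 ≤ K → 2 ^ (K - 1) • θ = 0 → (∀ k, k ∉ Ξ → θ k = 0) →
      (∀ i ∈ g.I, 2 ^ (K - 2) • θ (Sum.inr i) = 0) →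
      D.gfx S g s K Lam Ξ θ c = D.gfx S g s K Lam Ξ θ c') → ∀ p, D.Zp S g K s c p → D.Zp S g K s c' p

/-- Module `VHl` (completion rule for the sets `Lq`, 150 lines; model `Br/Hl.lean`).
`S_VRulL → S_Cf → S_Gdc → S_VHl`. PROOF. If `c = c'` clear. Let `c ≠ c'`. `VRulL` with `x = cf c' p`, `y = cf c x`,
`U = I₀ = insert b I` (`Gdc`), `#U = K + 1`: the vertices are `cf c (vtx ..)` (`b ∈ w`) and `cf c' (vtx ..)` (`b ∉ w`) by `Cf`.
`t z` := an element of `Z z` with `2^(K-1) (2 t) = f` and `2 t = θ` on `Ξ`, if there is one (exists for `w ≠ ∅`). The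
hypotheses on `f`: `f ∈ Lam`, `lam2`, `fI`, `fb`; `f ∈ Dk x (K + 1)` by `Yp c' p`; `γ ∉ O x K = s.2.2`. Conclusion:
`t₀ ∈ Z x`, `2 t₀ = cpl x y U (2 t ..)`; so `2^(K-1) (2 t₀) = f` and `2 t₀ = θ` on `Ξ` since `∑_{w ≠ ∅} (-1)^#w = -1`. -/
def S_VHl : Prop :=
  ∀ {G N P ι : Type} [Group G] [TopologicalSpace G] [IsTopologicalGroup G] [AddCommGroup N]
    [DistribMulAction G N] [Fintype ι] [DecidableEq ι] {M : ℕ} (D : Dat G N P), Ax D → Ax2 D →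
    ∀ (S : ι → Finset P) (g : Grd P ι M) (s : D.ST ι), D.Gok S g → ∀ (K : ℕ)
    (Lam : AddSubgroup (D.J ι → N)) (f : D.J ι → N) (γ : (D.J ι → N) → ZMod 2) (t' : N)
    (Ξ : Finset (D.J ι)),
    D.Cho g.I g.b K s Lam f γ t' → (∀ c p, D.Gp S g s c p → D.Dk (g.cf c p) 1 = Lam) →
    (∀ c p, D.Gp S g s c p → D.Sep (g.cf c p) (insert g.b g.I) Ξ) →
    ∀ (θ : D.J ι → N) (c c' : P) (x p : {i // i ∈ g.I} → Fin M),
    (∀ i, x i < p i) → (∀ w, D.Yp S g K s f c (vtx x p w)) →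
    (∀ w, D.Yp S g K s f c' (vtx x p w)) →
    (∀ w, w ≠ (fun _ => true) → D.Lq S g K s f Ξ θ c (vtx x p w) ∧
      D.Lq S g K s f Ξ θ c' (vtx x p w)) → D.Lq S g K s f Ξ θ c p → D.Lq S g K s f Ξ θ c' p

/-- Module `VPv` (the system of a pivot, 350 lines; models `Br/Pv.lean` and `Y/PvE.lean`).
`S_VFac → S_VPsi0 → S_VStr0 → S_VStar → S_Tin → S_Uq → S_Dk1 → S_ObA → S_Cf → S_Gdc → S_VPv`. PROOF. `X = cf c₀ p`, `Y = cf c₀ x`, the
cube is good (`Gdc`). `t₀ z` := an element of `Z z` with `2^(K-1) (2 t) = f`, `2 t = θ` on `Ξ`, if there is one. `VStr0` (second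
part, value `θ (inr b)`; `inr b ∈ Ξ`) gives `s`; put `t z = t₀ z + (fun _ => s)` for `z = X` and `t z = t₀ z` otherwise (the constant
function is in `Z X` by `Tin`, `2 s = 0`); so `alt X Y I (coc z (t z) (τ_(c₀))) = 0`. `F U = vfc X Y I t U` for `U ⊆ I`, zero
otherwise. (1) `VFac` (`I₀ = insert b I`, recorded value `θ`; `2^K (2 t) = 2 f = 0`, `2^(K-1) θ (inr i) = f (inr i) = 0`, as
`θ (inr i) = 2 t (inr i)`). (2) ramification: `v ∉ A`, so `v ∉ D.S` and `v` is not `X i`, `Y i` for `i ≠ b` (these are `e k` or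
`R i`): if `v ≠ c₀` use `VPsi0` (C), if `v = c₀` `VPsi0` (B) with the value `θ (inr b)`, `2^(K-1) θ (inr b) = f (inr b) = 0`, for
`U ≠ I`, and the normalisation for `U = I` (`vfc .. I = alt (coc z (2^0 t z))`). (3) `F ∅ = coc X (2^K t X) = coc X f`. (4)
Let `c` be such that all `Lq θ c (vtx x p w)` hold. `c = c₀`: `VPsi0` (B), `VStr0` (first part). `c ≠ c₀`: the cube `X' = cf c p`, `Y`,
`U = insert b I` is good (`Gdc`), `update X' b (Y b) = cf c₀ p = X`. Extend the family `t` to the vertices with `z b = c` by elements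
given by `Lq θ c`. `VPsi0` (A): the proper functions vanish at `φ_c`. `VStar` (with `ν ∈ Lam`, `ν = 0` on `I`, `γ ν = 1`, which exists
since `0 ∈ O X K = s.2.2 ∌ γ`; `ν (inr b) = t'` by `pat`) gives `e (F I (φ_c)) t' = 0`. The characters as in the old proof. -/
def S_VPv : Prop :=
  ∀ {G N P ι : Type} [Group G] [TopologicalSpace G] [IsTopologicalGroup G] [AddCommGroup N]
    [DistribMulAction G N] [Fintype ι] [DecidableEq ι] {M : ℕ} (D : Dat G N P), Ax D → Ax2 D →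
    ∀ (S : ι → Finset P) (g : Grd P ι M) (s : D.ST ι), D.Gok S g → ∀ (K : ℕ)
    (Lam : AddSubgroup (D.J ι → N)) (f : D.J ι → N) (γ : (D.J ι → N) → ZMod 2) (t' : N)
    (Ξ : Finset (D.J ι)),
    D.Cho g.I g.b K s Lam f γ t' → (∀ c p, D.Gp S g s c p → D.Dk (g.cf c p) 1 = Lam) →
    (∀ c p, D.Gp S g s c p → D.Sep (g.cf c p) (insert g.b g.I) Ξ) →
    ∀ (θ : D.J ι → N) (c₀ : P) (x p : {i // i ∈ g.I} → Fin M),
    (∀ i, x i < p i) → (∀ w, D.Lq S g K s f Ξ θ c₀ (vtx x p w)) → ∀ A : Finset P, D.S ⊆ A →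
    (∀ k, g.e k ∈ A) → (∀ j, j ∉ g.I → j ≠ g.b → g.R j ∈ A) →
    ∃ F : Finset ι → G → N,
      Sys g.I (fun i σ => if i ∈ g.I then D.ch (g.cf c₀ p i) σ + D.ch (g.cf c₀ x i) σ else 0) F ∧
      (∀ U ⊆ g.I, IsLocallyConstant (F U) ∧ ∀ v, v ∉ A → F U (D.tau v) = 0) ∧
      (∀ U, ¬ U ⊆ g.I → F U = 0) ∧ (∀ σ, F ∅ σ = D.coc (g.cf c₀ p) f σ) ∧
      ∀ c, (∀ w, D.Lq S g K s f Ξ θ c (vtx x p w)) →
        D.phi c ∈ sysK g.I (fun i σ => if i ∈ g.I then D.ch (g.cf c₀ p i) σ +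
          D.ch (g.cf c₀ x i) σ else 0) F ∧ D.e (F g.I (D.phi c)) t' = 0

/-- Module `VCls` (the class bound, 350 lines; models `Br/Cls.lean`, `Y/ClsE.lean`: copy the proof of `ClsE` with `VPv` in place
of `PvE` and `Lq θ` in place of `Lp τ`). `S_Com → S_Rat → S_Hgr → S_VPv → S_IdxE → S_Coe → S_Tai → S_Uq → S_Dk1 → S_Cf → S_VCls`. PROOF. Let `Piv`
be the set of the `p` which are corners of some `Lq θ c₀`; for `p ∈ Piv` choose `θ_p`, `x_p` and `F_p` from `VPv`. All other steps are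
unchanged: for `c` in the class `Lq θ_p c = Lq θ_p c₀`, so `φ_c ∈ H`. The constant: `#class * H.relIndex ≤ Λ #(S b)` in place of
`2 #(S b)`. -/
def S_VCls : Prop :=
  ∀ {G N P ι : Type} [Group G] [TopologicalSpace G] [IsTopologicalGroup G] [AddCommGroup N]
    [DistribMulAction G N] [Fintype ι] [DecidableEq ι] {M : ℕ} (D : Dat G N P)
    (Gb : Subgroup G), Ax D → Ax2 D → (∀ v, D.tau v ∈ Gb) → (∀ σ τ : G, σ * τ * σ⁻¹ * τ⁻¹ ∈ Gb) →
    ∀ (S : ι → Finset P) (g : Grd P ι M) (s : D.ST ι), D.Gok S g → ∀ (K : ℕ)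
    (Lam : AddSubgroup (D.J ι → N)) (f : D.J ι → N) (γ : (D.J ι → N) → ZMod 2) (t' : N)
    (Ξ : Finset (D.J ι)),
    D.Cho g.I g.b K s Lam f γ t' → (∀ c p, D.Gp S g s c p → D.Dk (g.cf c p) 1 = Lam) →
    (∀ c p, D.Gp S g s c p → D.Sep (g.cf c p) (insert g.b g.I) Ξ) →
    (∀ c p, D.Zp S g K s c p → ∃ σ, D.e (D.coc (g.cf c p) f σ) t' = 1) →
    ∀ A : Finset P, D.S ⊆ A → (∀ k, g.e k ∈ A) → (∀ j, j ∉ g.I → j ≠ g.b → g.R j ∈ A) →
    ∀ Λ : ℕ, D.FewL Gb A (idB K M) Λ (S g.b) →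
    ∀ c₀ : P, ({c ∈ S g.b | D.cod S g s c = D.cod S g s c₀ ∧
        ∀ θ : D.J ι → N, D.Lq S g K s f Ξ θ c = D.Lq S g K s f Ξ θ c₀} : Set P).ncard *
      2 ^ Nat.card {p : {i // i ∈ g.I} → Fin M //
        ∃ θ : D.J ι → N, Corner (D.Lq S g K s f Ξ θ c₀) p} *
      (2 ^ (K * M) * ((K * M + 1) * 2)) ≤ Λ * 2 ^ (2 * K + 1) * (K * M + 1) * #(S g.b)

/-- Module `VCrd` (orders, 100 lines). `S_Bas → S_VCrd`. PROOF. `#N[2^(k+1)] ≤ 4 #N[2^k]`: the fibres of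
`2 • : N[2^(k+1)] → N[2^k]` are contained in translates of `V` (four elements, `Bas`). (2) A function in the set is given by its
values on `Ξ`, which are in `N[2^K]`. (3) `(4^(K-1))^#J * 2^#Lam`. -/
def S_VCrd : Prop :=
  ∀ {G N P ι : Type} [Group G] [TopologicalSpace G] [AddCommGroup N] [DistribMulAction G N]
    [Fintype ι] [DecidableEq ι] (D : Dat G N P), Ax D →
    (∀ k : ℕ, {x : N | 2 ^ k • x = 0}.Finite ∧ {x : N | 2 ^ k • x = 0}.ncard ≤ 4 ^ k) ∧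
    (∀ (K : ℕ) (Ξ : Finset (D.J ι)),
      {θ : D.J ι → N | 2 ^ K • θ = 0 ∧ ∀ k, k ∉ Ξ → θ k = 0}.Finite ∧
      {θ : D.J ι → N | 2 ^ K • θ = 0 ∧ ∀ k, k ∉ Ξ → θ k = 0}.ncard ≤ 4 ^ (K * #Ξ)) ∧
    ∀ (K : ℕ) (Lam : AddSubgroup (D.J ι → N)), Finite Lam → Finite (D.GV K Lam) ∧
      Nat.card (D.GV K Lam) ≤ 4 ^ (K * Fintype.card (D.J ι)) * 2 ^ Nat.card Lam

/-- Module `VDat` (the data of a grid, 200 lines; model: `Asm_data` in `Br/Asm.lean`).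
`S_Dom → S_VHg → S_VHz → S_VHl → S_VCls → S_VCrd → S_VGfx → S_VDat`. PROOF. As `Asm_data`, with
`T1 = {θ // 2 ≤ K ∧ 2^(K-1) θ = 0 ∧ (∀ k ∉ Ξ, θ k = 0) ∧ ∀ i ∈ I, 2^(K-2) θ (inr i) = 0}`,
`T2 = {θ // (∀ k ∈ Ξ, 2^(K-1) θ k = f k) ∧ ∀ k ∉ Ξ, θ k = 0}` (`2^K θ = 0` as `2 f = 0`), `V = GV K Lam` (finite since `Lam` is finite),
`g θ c = gfx θ c`, `L θ c = {p | Lq θ c p}`, `C0 = Λ 2^(2K+1) (K M + 1)`, `𝒜` as in `Br/Asm.lean`. `hYL`: `p ∈ Y c` gives `t ∈ Z` with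
`2^K t = f`, so `2^(K-1) (2 t) = f`; take `θ = 2 t` on `Ξ` and `0` outside. `hP`: `VCls`; equality of `Lq θ c` and `Lq θ c₀` for the
`θ ∈ T2` implies the equality for all `θ` (`Lq` depends only on the values of `θ` on `Ξ`, and if `Lq θ c` or `Lq θ c₀` is not empty then
`2^(K-1) θ = f` on `Ξ`), and the corners for all `θ` are those for the `θ ∈ T2`. -/
def S_VDat : Prop :=
  ∀ {G N P ι : Type} [Group G] [TopologicalSpace G] [IsTopologicalGroup G] [AddCommGroup N]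
    [DistribMulAction G N] [Fintype ι] [DecidableEq ι] {M : ℕ} (D : Dat G N P)
    (Gb : Subgroup G), Ax D → Ax2 D → (∀ v, D.tau v ∈ Gb) → (∀ σ τ : G, σ * τ * σ⁻¹ * τ⁻¹ ∈ Gb) →
    ∀ (S : ι → Finset P) (g : Grd P ι M) (s : D.ST ι), D.Gok S g → ∀ (K : ℕ)
    (Lam : AddSubgroup (D.J ι → N)) (f : D.J ι → N) (γ : (D.J ι → N) → ZMod 2) (t' : N)
    (Ξ : Finset (D.J ι)), Finite Lam →
    D.Cho g.I g.b K s Lam f γ t' → (∀ c p, D.Gp S g s c p → D.Dk (g.cf c p) 1 = Lam) →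
    (∀ c p, D.Gp S g s c p → D.Sep (g.cf c p) (insert g.b g.I) Ξ) →
    (∀ c p, D.Zp S g K s c p → ∃ σ, D.e (D.coc (g.cf c p) f σ) t' = 1) →
    ∀ A : Finset P, D.S ⊆ A → (∀ k, g.e k ∈ A) → (∀ j, j ∉ g.I → j ≠ g.b → g.R j ∈ A) →
    ∀ Λ : ℕ, D.FewL Gb A (idB K M) Λ (S g.b) →
    ∃ (𝒜 T1 T2 V : Type) (_ : Fintype 𝒜) (_ : Fintype T1) (_ : Fintype T2) (_ : Fintype V)
      (C : CodingData {i // i ∈ g.I} M {c // c ∈ S g.b} 𝒜 T1 T2 V
        (Λ * 2 ^ (2 * K + 1) * (K * M + 1))),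
      Fintype.card T1 ≤ 4 ^ (K * #Ξ) ∧ Fintype.card T2 ≤ 4 ^ (K * #Ξ) ∧
      Fintype.card V ≤ 4 ^ (K * Fintype.card (D.J ι)) * 2 ^ Nat.card Lam ∧
      (∀ b w, w ∈ C.Z b ↔ D.Zp S g K s b.1 w) ∧ ∀ b w, w ∈ C.Y b ↔ D.Yp S g K s f b.1 w

/-- Module `VCell` (the main inequality for one cell, 300 lines; model: second half of `Br/Asm.lean`).
`S_Cf → S_Spt → S_Sy1 → S_SepS → S_Thx → S_VDat → Cnt.S_Min2 → S_VCell`. PROOF. `t = 4 ^ (K (3 K + 3 + d))`; `A₀`, `L₀'` from `S_Min2` for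
`(K, t, e)`, `M = L ^ A₀`. `E` with `idB K M ≤ 2 ^ (L ^ E)` and `2 L + K M ≤ L ^ E` for large `L`, e.g. `E = (A₀ + 1) (K + 3)`. If there is no
`z ∈ tup S` in the state `s` the left side is zero. Let `z₀` be one, `Lam = Dk z₀ 1`. `Thx` for `z₀`, `I₀ = insert b I` gives `Ξ` with
`2 ^ #Ξ ≤ 8 ^ (K + 1) * 2 ^ d`, so `4 ^ (K #Ξ) ≤ t`; by `SepS` `Sep z I₀ Ξ` for all `z ∈ tup S` with `Sy z = s.1` (`z j = R j` for `j ∉ I₀`). Apply
`Spt` with `κ = 15 / 16`, `ε = 1 / L ^ e` (`z x` = injective and in the state; the `R'` with `R' j ∈ S j` has `R' j = R j`); for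
fixed `R'` use `S_Min2` with `ι' = {i // i ∈ I}`, `β = {c // c ∈ S b}`, `T` = the image of `R'` on the complement of `I ∪ {b}`
(`#T ≤ card ι ≤ L`). For `e'` the grid `g = ⟨b, I, e', R'⟩` is `Gok`, `A = D.S ∪ image e' ∪ image R'` has at most `L + K M + L` elements, all in
`D.S` or in some `S i`, so `FewL` holds for `idB K M ≤ 2 ^ (L ^ E)` and `Λ = 2 ^ (3 L)`, and `VDat` gives the data:
`C0 = 2 ^ (3 L) 2 ^ (2 K + 1) (K M + 1) ≤ 2 ^ (L ^ 2)`, `#V ≤ 4 ^ (K L) 2 ^ (2 ^ d) ≤ 2 ^ (L ^ 2)` for large `L`. -/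
def S_VCell : Prop :=
  ∀ K d e : ℕ, 1 ≤ K → ∃ E L₀ : ℕ, ∀ L : ℕ, L₀ ≤ L →
  ∀ {G N P ι : Type} [Group G] [TopologicalSpace G] [IsTopologicalGroup G] [AddCommGroup N]
    [DistribMulAction G N] [Fintype ι] [DecidableEq ι] (D : Dat G N P) (Gb : Subgroup G),
    Ax D → Ax2 D → (∀ v, D.tau v ∈ Gb) → (∀ σ τ : G, σ * τ * σ⁻¹ * τ⁻¹ ∈ Gb) →
    ∀ (S : ι → Finset P) (b : ι) (I : Finset ι) (R : ι → P),
    (∀ j, j ∉ I → j ≠ b → S j = {R j}) → (∀ z ∈ tup S, D.Ok z) →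
    (∀ i, ∀ v ∈ S i, v ∉ D.S) → Fintype.card (D.J ι) ≤ L → (∀ i ∈ I, 2 ^ L ≤ #(S i)) →
    (∀ A : Finset P, #A ≤ L ^ E → (∀ v ∈ A, v ∈ D.S ∨ ∃ i, v ∈ S i) →
      D.FewL Gb A (2 ^ L ^ E) (2 ^ (3 * L)) (S b)) →
    ∀ (s : D.ST ι) (Lam : AddSubgroup (D.J ι → N)) (f : D.J ι → N)
      (γ : (D.J ι → N) → ZMod 2) (t' : N), D.Cho I b K s Lam f γ t' → Finite Lam →
    Nat.card Lam ≤ 2 ^ d → (∀ z ∈ tup S, D.Sy z = s.1 → D.Dk z 1 = Lam) →
    (∀ z ∈ tup S, D.IsSt K z s → ∃ σ, D.e (D.coc z f σ) t' = 1) →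
    ({z ∈ tup S | D.IsSt K z s ∧ f ∈ D.Dk z (K + 1)}.ncard : ℝ) ≤
      15 / 16 * ({z ∈ tup S | D.IsSt K z s}.ncard : ℝ) +
        1 / (L : ℝ) ^ e * ∏ i, (#(S i) : ℝ)

end Pool.Agent.MP72S
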