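import Pool.Agent.Lib.MP_72e2e6_nt.Sm.N.SpecB

/-!
# MP_72e2e6_nt, `Sm/N`: statements with proofs, part D (cells, one step, the uniform main theorem)

File `Sm/N/X.lean` (import this file only) with `theorem tX : .. → S_X`, namespace `Pool.Agent.MP72S`, all other
declarations `private`. A cell (for a set `I₀` of indices) is the set of the configurations with given values
outside `I₀` and given classes of the values in `I₀`; two primes are in the same class if they have the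
same symbols relative to `S` and the values outside `I₀` (`Dat.kap`). In a cell there are boundedly many
states.
-/

namespace Pool.Agent.MP72S

open Finset

section

variable {G N P : Type} [Group G] [TopologicalSpace G] [AddCommGroup N] [DistribMulAction G N]
  (D : Dat G N P) {ι : Type} [Fintype ι] [DecidableEq ι]

/-- The type of the classes. -/
abbrev Dat.CL (ι : Type) : Type :=
  (ι → ZMod 2) × ({v // v ∈ D.S} → ZMod 2 × ZMod 2 × ZMod 2) × (ZMod 2 × ZMod 2) ×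
    ({u : N // 4 • u = 0} → N)

open Classical in
/-- The class of the prime `c` relative to `S` and the `z j`, `j ∉ I₀`. -/
noncomputable def Dat.kap (I₀ : Finset ι) (z : ι → P) (c : P) : D.CL ι :=
  (fun j => if j ∈ I₀ then 0 else D.ch c (D.phi (z j)),
    fun s => (D.ch c (D.tau s.1), D.ch c (D.phi s.1),
      if s.1 = D.inf then 0 else D.ch s.1 (D.phi c)),
    (D.cst (D.phi c), D.ch0 (D.phi c)), fun u => D.phi c • u.1)

/-- The sets of the cell of `z`. -/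
noncomputable def clS {P ι Cl : Type} [DecidableEq ι] (S : ι → Finset P) (I₀ : Finset ι)
    (κ : (ι → P) → P → Cl) (z : ι → P) (i : ι) : Finset P :=
  open Classical in
  if i ∈ I₀ then (S i).filter fun c => κ z c = κ z (z i) else {z i}

/-- The size conditions. -/
structure Dat.Szc (Gb : Subgroup G) (E L : ℕ) (b : ι) (S : ι → Finset P) : Prop where
  card : 3 * Fintype.card (D.J ι) + 70 ≤ L
  big : ∀ i, 2 ^ (4 * L) ≤ #(S i)
  ok : ∀ z ∈ tup S, D.Ok z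
  nS : ∀ i, ∀ v ∈ S i, v ∉ D.S
  few : ∀ A : Finset P, #A ≤ L ^ E → (∀ v ∈ A, v ∈ D.S ∨ ∃ i, v ∈ S i) →
    D.Few Gb A (2 ^ L ^ E) (S b)

end

/-- Module `VNcl` (the number of classes, 60 lines). `S_Bas → S_VCrd → S_VNcl`. PROOF. The first component has at most
`2^#ι` values, the second `8^#S`, the third `4`, and `φ_c • u` is killed by `4`, so the last one has at most
`16^16 = 2^64` values (`VCrd` (1) for `k = 2`). `#ι + 3 #S + 2 + 64 ≤ 3 #J + 66`. -/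
def S_VNcl : Prop :=
  ∀ {G N P ι : Type} [Group G] [TopologicalSpace G] [AddCommGroup N] [DistribMulAction G N]
    [Fintype ι] [DecidableEq ι] (D : Dat G N P), Ax D → ∀ (I₀ : Finset ι) (z : ι → P),
    (Set.range (D.kap I₀ z)).Finite ∧
      (Set.range (D.kap I₀ z)).ncard ≤ 2 ^ (3 * Fintype.card (D.J ι) + 66)

/-- Module `VSyc` (the symbols on a cell, 150 lines). `S_Sym → S_VSyc`. PROOF. Let `z` be in the cell of `z₀`. The
components 2, 3, 4 of `Sy z` are the same as those of `Sy z₀` (for `i ∉ I₀` `z i = z₀ i`, for `i ∈ I₀` they are in the class). First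
component at `(i, j)`, `i ≠ j`: `i, j ∉ I₀`: the same; `i ∈ I₀`, `j ∉ I₀`: in the class of `z i`; `i ∉ I₀`, `j ∈ I₀`:
`ch (z i) (φ_(z j)) = ch (z j) (φ_(z i))` (`Sym`; different places, not infinity since they are not in `S`), in the class of `z j`.
So `Sy z` is determined by its entries `(i, j)`, `i, j ∈ I₀`. -/
def S_VSyc : Prop :=
  ∀ {G N P ι : Type} [Group G] [TopologicalSpace G] [AddCommGroup N] [DistribMulAction G N]
    [Fintype ι] [DecidableEq ι] (D : Dat G N P), Ax D → ∀ (I₀ : Finset ι) (z₀ : ι → P),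
    D.Ok z₀ → {σ | ∃ z : ι → P, D.Ok z ∧ (∀ i, i ∉ I₀ → z i = z₀ i) ∧
      (∀ i ∈ I₀, D.kap I₀ z₀ (z i) = D.kap I₀ z₀ (z₀ i)) ∧ D.Sy z = σ}.Finite ∧
    {σ | ∃ z : ι → P, D.Ok z ∧ (∀ i, i ∉ I₀ → z i = z₀ i) ∧
      (∀ i ∈ I₀, D.kap I₀ z₀ (z i) = D.kap I₀ z₀ (z₀ i)) ∧ D.Sy z = σ}.ncard ≤ 2 ^ (#I₀ ^ 2)

/-- The bound for the number of states and elements `f` of a cell. -/
def nst (K d : ℕ) : ℕ := 2 ^ ((K + 1) ^ 2) * (2 ^ 2 ^ d * (2 ^ 2 ^ 2 ^ d * 2 ^ d))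

/-- Module `VNst` (the states of a cell, 200 lines). `S_VSyc → S_Sy1 → S_Dk1 → S_VNst`. PROOF. For each of the at most
`2 ^ ((K + 1) ^ 2)` values `σ` of `Sy` (`VSyc`) all `z` with `Sy z = σ` have the same `Dk z 1 = Lam` (`Sy1`), `#Lam ≤ 2 ^ d`.
`Dk z K ≤ Dk z 1` (`Dk1`): at most `2 ^ 2 ^ d` possible subgroups. `O z K` is a set of functions which vanish outside
`Lam` (definition of `O`): there are `2 ^ #Lam` such functions, so at most `2 ^ 2 ^ 2 ^ d` sets. `f ∈ Dk z K ≤ Lam`: at most `2 ^ d`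
values. -/
def S_VNst : Prop :=
  ∀ {G N P ι : Type} [Group G] [TopologicalSpace G] [AddCommGroup N] [DistribMulAction G N]
    [Fintype ι] [DecidableEq ι] (D : Dat G N P), Ax D → ∀ (I₀ : Finset ι) (z₀ : ι → P),
    D.Ok z₀ → ∀ K d : ℕ, 1 ≤ K → #I₀ = K + 1 →
    {q : D.ST ι × (D.J ι → N) | ∃ z : ι → P, D.Ok z ∧ (∀ i, i ∉ I₀ → z i = z₀ i) ∧
      (∀ i ∈ I₀, D.kap I₀ z₀ (z i) = D.kap I₀ z₀ (z₀ i)) ∧ Nat.card (D.Dk z 1) ≤ 2 ^ d ∧
      D.IsSt K z q.1 ∧ q.2 ∈ q.1.2.1}.Finite ∧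
    {q : D.ST ι × (D.J ι → N) | ∃ z : ι → P, D.Ok z ∧ (∀ i, i ∉ I₀ → z i = z₀ i) ∧
      (∀ i ∈ I₀, D.kap I₀ z₀ (z i) = D.kap I₀ z₀ (z₀ i)) ∧ Nat.card (D.Dk z 1) ≤ 2 ^ d ∧
      D.IsSt K z q.1 ∧ q.2 ∈ q.1.2.1}.ncard ≤ nst K d

/-- Module `VSum` (summation over the cells; pure counting, 250 lines). PROOF. Write `C z = Fintype.piFinset (clS S I₀ κ z)`
for `z ∈ ∏ S i`. `z' ∈ C z` iff `z' ∈ ∏ S i`, `z' i = z i` for `i ∉ I₀` and `κ z (z' i) = κ z (z i)` for `i ∈ I₀` (`κ z' = κ z` then), and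
in this case `clS .. z' = clS .. z`. So the `C z` are the classes of an equivalence relation on `∏ S i` and
`∑_{z ∈ ∏ S i} = ∑_{cells} ∑_{z' ∈ cell}` (`Finset.sum_partition`, or `sum_fiberwise` for the map `z ↦ clS S I₀ κ z`, whose fibres are the
cells: `clS` determines `z i`, `i ∉ I₀`, as the singleton). For the large cells (`lam i ≤ #(clS .. z i)` for all `i ∈ I₀`) use the
hypothesis; the sum of the `∏ #(clS .. z i) = #(C z)` over the cells is `∏ #(S i)`. For the other cells `F ≤ C₀`, `Gf ≥ 0`; the number of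
the `z` in them is at most `∑_{i ∈ I₀} #{z | #(clS .. z i) < lam i}`, and for fixed `i ∈ I₀` and fixed `z j`, `j ≠ i`, the function
`κ z` does not depend on `z i`, so the number of the `z i ∈ S i` with `#{c ∈ S i | κ z c = κ z (z i)} < lam i` is at most `Nc * lam i`
(at most `Nc` classes). -/
def S_VSum : Prop :=
  ∀ {P ι Cl : Type} [Fintype ι] [DecidableEq ι] (S : ι → Finset P) (I₀ : Finset ι)
    (κ : (ι → P) → P → Cl), (∀ z z', (∀ i, i ∉ I₀ → z i = z' i) → κ z = κ z') →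
    ∀ (Nc : ℕ), (∀ z, (Set.range (κ z)).Finite ∧ (Set.range (κ z)).ncard ≤ Nc) →
    ∀ (lam : ι → ℝ), (∀ i, 0 ≤ lam i) → ∀ (F Gf : (ι → P) → ℝ) (C₀ ε : ℝ), 0 ≤ C₀ → 0 ≤ ε →
    (∀ z, 0 ≤ F z ∧ F z ≤ C₀) → (∀ z, 0 ≤ Gf z) →
    (∀ z ∈ Fintype.piFinset S, (∀ i ∈ I₀, lam i ≤ #(clS S I₀ κ z i)) →
      ∑ z' ∈ Fintype.piFinset (clS S I₀ κ z), F z' ≤
        ∑ z' ∈ Fintype.piFinset (clS S I₀ κ z), Gf z' + ε * ∏ i, (#(clS S I₀ κ z i) : ℝ)) →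
    ∑ z ∈ Fintype.piFinset S, F z ≤ ∑ z ∈ Fintype.piFinset S, Gf z + ε * ∏ i, (#(S i) : ℝ) +
      C₀ * ∑ i ∈ I₀, Nc * lam i * ∏ j ∈ univ.erase i, (#(S j) : ℝ)

/-- Module `VStp` (one step of the potential, 450 lines). `S_Dk1 → S_Sy1 → S_Chs → S_VCell → S_VNcl → S_VNst → S_VSum → S_VStp`.
PROOF. Let `e = K + 2`, `E`, `L₀'` from `VCell` for `(K, d, e)`. Let `Ω` be the set of the `z ∈ tup S` with `Pat (Dk z 1) b Lp`,
`#(Dk z 1) ≤ 2 ^ d`, `16 ≤ #(Dk z K)`; it is a union of states (`Pat`, `Dk z 1` depend only on `Sy z`: `Sy1`). For a state `s` which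
occurs in `Ω` and `f ∈ s.2.1 \ T` choose a representative `z₀ ∈ Ω` in the state and by `Chs` (`Pat` for `K ≤ Lp`: a subset of `I`) the
set `I = I(s, f)` (`#I = K`, `b ∉ I`) and `f₀`, `γ`, `t'`. (1) Fix `I`; `I₀ = insert b I`. For `z ∈ Ω` in the state `s` let `G_I z` be `15/16` times
the number of the `f ∈ Dk z K \ T` with `I(s, f) = I` and `F_I z` the number of those `f` with `f ∈ Dk z (K + 1)`; both zero for
`z ∉ Ω`. Claim: `VSum` applies with `κ = D.kap I₀`, `Nc = 2 ^ L` (`VNcl`, `3 #J + 66 ≤ L`), `lam i = 2 ^ L` for `i ∈ I`, `lam b = #(S b) / 2 ^ (2 L)`,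
`C₀ = 2 ^ d`, `ε = nst K d / L ^ e`. Let `S' = clS S I₀ κ z₁` be a large cell. The sum of `F_I` over the cell is the sum over the pairs
`(s, f)` with `I(s, f) = I` which occur in the cell (at most `nst K d`, `VNst`) of `#{z ∈ tup S' | IsSt K z s ∧ f ∈ Dk z (K + 1)}`
(a tuple of the cell in the state `s` is in `Ω`), and `f` may be replaced by `f₀` (last part of `Chs`). `VCell` applies to `S'`, `I`, `R = z₁`:
`tup S' ⊆ tup S`; `#J ≤ L`; `2 ^ L ≤ #(S' i)` for `i ∈ I`; `FewL` with the constant `2 ^ (3 L)`: `#{c ∈ S' b | φ_c ∈ H} * relIndex ≤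
#{c ∈ S b | ..} * relIndex ≤ 2 #(S b) ≤ 2 * 2 ^ (2 L) #(S' b) ≤ 2 ^ (3 L) #(S' b)` (`Szc.few`); `Dk z 1 = Dk z₀ 1` and the existence of `σ` by
`Sy1`. So the sum is at most the sum of `G_I` over the cell plus `nst K d / L ^ e * ∏ #(S' i)`. (2) Conclusion of `VSum`:
`∑ F_I ≤ ∑ G_I + (nst K d / L ^ e + 2 ^ d (K + 1) 2 ^ (-L)) ∏ #(S i)`, since `Nc lam i ≤ 2 ^ (2 L) ≤ 2 ^ (-L) #(S i)` for `i ∈ I` and
`Nc lam b = 2 ^ (-L) #(S b)`. (3) Sum over the `I` (at most `(#ι) ^ K ≤ L ^ K` sets, e.g. they are images of maps `Fin K → ι`): the sum over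
`z ∈ Ω` of `#{f ∈ Dk z K \ T | f ∈ Dk z (K + 1)}` is at most `15/16 ∑_{z ∈ Ω} (#(Dk z K) - 4) + δ ∏`, as
`L ^ K (nst K d / L ^ (K + 2) + 2 ^ d (K + 1) / 2 ^ L) ≤ δ` for large `L`. (4) `#(Dk z (K + 1)) = 4 + #{..}` for all `z` (`T ≤ Dk z (K+1) ≤
Dk z K`), `#(Dk z (K+1)) ≥ 16` implies `z ∈ Ω`, and `4 + 15/16 (#Δ - 4) ≤ 61/64 #Δ` for `#Δ ≥ 16`. See `Sm/H/Stp.lean` for the old proof
(lemmas `Stp_key`, `Stp_fs`, ..). -/
def S_VStp : Prop :=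
  ∀ K Lp d : ℕ, 1 ≤ K → K ≤ Lp → ∀ δ : ℝ, 0 < δ → ∃ E L₀ : ℕ, ∀ L : ℕ, L₀ ≤ L →
  ∀ {G N P ι : Type} [Group G] [TopologicalSpace G] [IsTopologicalGroup G] [AddCommGroup N]
    [DistribMulAction G N] [Fintype ι] [DecidableEq ι] (D : Dat G N P) (Gb : Subgroup G),
    Ax D → Ax2 D → (∀ v, D.tau v ∈ Gb) → (∀ σ τ : G, σ * τ * σ⁻¹ * τ⁻¹ ∈ Gb) →
    ∀ (b : ι) (S : ι → Finset P), D.Szc Gb E L b S →
      (∑ᶠ z ∈ {z ∈ tup S | D.Pat (D.Dk z 1) b Lp ∧ Nat.card (D.Dk z 1) ≤ 2 ^ d ∧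
          16 ≤ Nat.card (D.Dk z (K + 1))}, (Nat.card (D.Dk z (K + 1)) : ℝ)) ≤
        61 / 64 * (∑ᶠ z ∈ {z ∈ tup S | D.Pat (D.Dk z 1) b Lp ∧ Nat.card (D.Dk z 1) ≤ 2 ^ d ∧
          16 ≤ Nat.card (D.Dk z K)}, (Nat.card (D.Dk z K) : ℝ)) + δ * ∏ i, (#(S i) : ℝ)

/-- Module `VInj` (few tuples are not injective, 80 lines; model `H/Inj2.lean`). PROOF. For `i ≠ j` the number of `z` with
`z i ∈ S i` for all `i` and `z i = z j` is at most `∏ #(S i) / m`; there are at most `(#ι)^2` pairs. -/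
def S_VInj : Prop :=
  ∀ {P ι : Type} [Fintype ι] [DecidableEq ι] (m : ℕ), 1 ≤ m → ∀ S : ι → Finset P,
    (∀ i, m ≤ #(S i)) → (tup S).Finite ∧
      (1 - (Fintype.card ι : ℝ) ^ 2 / m) * ∏ i, (#(S i) : ℝ) ≤ ((tup S).ncard : ℝ)

/-- Module `VEnd` (THE UNIFORM MAIN THEOREM, abstract form, 200 lines; model `H/End.lean`). `S_Dk1 → S_Evn → S_VStp → S_VInj → S_VEnd`.
PROOF. We may suppose `C ≥ 0`. Choose `Lf ≥ 1` with `(61/64)^(Lf-1) C ≤ ε`. Given `d` let `δ = ε / (Lf + 1)`, `E` the maximum of the `E_K`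
of `VStp` for `K = 1, .., Lf - 1`, `Lp = Lf` (`Szc` for `E` implies `Szc` for smaller `E`, as `L ≥ 1`; and the sets `A`, `H` allowed for a smaller `E` are
allowed for `E`), and `L₀` larger than all `L₀` and so large that `L ^ 2 / 2 ^ (4 L) ≤ ε`. With `Φ_K` the sum of the `#(Dk z K)` over the `z ∈ tup S` with
`Pat (Dk z 1) b Lf`, `#(Dk z 1) ≤ 2 ^ d`, `16 ≤ #(Dk z K)`: `Φ_1 ≤ C ∏`, `Φ_(K+1) ≤ 61/64 Φ_K + δ ∏`, so `Φ_Lf ≤ (ε + Lf δ) ∏ ≤ 2 ε ∏`, and the number of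
the `z` in the last sum is at most `Φ_Lf / 16`. The `z ∈ tup S` without `Pat`: at most `ε ∏` (`#(Dk z 1) ≥ 1`), with
`#(Dk z 1) > 2 ^ d`: at most `ε ∏`; the tuples which are not injective: `VInj` with `m = 2 ^ (4 L)`. For all others
`#(Dk z Lf) < 16`, so `Dk z Lf = T` by `Evn`. -/
def S_VEnd : Prop :=
  ∀ C ε : ℝ, 0 < ε → ∃ Lf : ℕ, 1 ≤ Lf ∧ ∀ d : ℕ, ∃ E L₀ : ℕ, ∀ L : ℕ, L₀ ≤ L →
  ∀ {G N P R ι : Type} [Group G] [TopologicalSpace G] [IsTopologicalGroup G] [AddCommGroup N]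
    [DistribMulAction G N] [AddCommGroup R] [DistribMulAction G R] [Fintype ι] [DecidableEq ι]
    (D : Dat G N P) (E' : ℕ → N → N → R) (hf : R) (Gb : Subgroup G),
    Ax D → Ax2 D → Ax3 D E' hf → (∀ v, D.tau v ∈ Gb) → (∀ σ τ : G, σ * τ * σ⁻¹ * τ⁻¹ ∈ Gb) →
    ∀ (b : ι) (S : ι → Finset P), D.Szc Gb E L b S →
    (∀ z ∈ tup S, ∃ s : ℕ, Nat.card (D.Dk z 1) = 4 ^ s) →
    (∑ᶠ z ∈ tup S, (Nat.card (D.Dk z 1) : ℝ)) ≤ C * ∏ i, (#(S i) : ℝ) →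
    (∑ᶠ z ∈ {z ∈ tup S | 2 ^ d < Nat.card (D.Dk z 1)}, (Nat.card (D.Dk z 1) : ℝ)) ≤
      ε * ∏ i, (#(S i) : ℝ) →
    (∑ᶠ z ∈ {z ∈ tup S | ¬ D.Pat (D.Dk z 1) b Lf}, (Nat.card (D.Dk z 1) : ℝ)) ≤
      ε * ∏ i, (#(S i) : ℝ) →
    (1 - 6 * ε) * ∏ i, (#(S i) : ℝ) ≤ ({z ∈ tup S | D.Dk z Lf = D.T ι}.ncard : ℝ)

end Pool.Agent.MP72S
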