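import Pool.Agent.Lib.MP_72e2e6_nt.Sm.N.SpecD
import Pool.Agent.Lib.MP_72e2e6_nt.Sm.NG.Spec
import Pool.Agent.Lib.MP_72e2e6_nt.Sm.NS.SpecT
import Pool.Agent.Lib.MP_72e2e6_nt.Sm.X.Spec

/-!
# MP_72e2e6_nt, `Sm/N`: statements with proofs, part F (the interface `Ns.S_FrmN`)

File `Sm/N/X.lean` (import this file only) with `theorem tX : .. → S_X`, namespace `Pool.Agent.MP72S.Frm`,
all other declarations `private`. The fixed factor of the twists is `d * s` (`d ∈ Ns.tm0 a`, `s` the small part),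
the datum is `HD.DD F a (d * s) u S A` with `HD.Sok a (d * s) S`; `Dlt a` is the product of the `a i - a j` and
`HD.bad a (d * s) = d * s * Dlt a`. The large primes are the variable ones. Compare `Sm/H/Lv.lean`, `Sm/H/FinT.lean`
and `Sm/Out.lean` (the old theorem).
-/

set_option autoImplicit false

namespace Pool.Agent.MP72S.Frm

open Finset Polynomial Pool.Agent.MP72W MP72T Pool.Agent.MP72S.Ns

/-- The assumptions on a frame (without the size conditions). -/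
structure Fra {F : Type} [Field F] [Finite F] (a : Fin 3 → F[X]) (d : F[X]) (n h : ℕ) (s : F[X])
    (S : Finset (D.Pl F)) (r : ℕ) (n' : Fin (r + 1) → ℕ) : Prop where
  cur : Cur a
  td : d ∈ tm0 a
  dh : (Dlt a).natDegree < h
  sml : s ∈ Sml F (Dlt a) h n
  sok : HD.Sok a (d * s) S
  sum : s.natDegree + ∑ i, n' i = n
  ge : ∀ i, h ≤ n' i
  four : 4 ≤ h
  par : Odd (d.natDegree + n + mxd a)

/-- Module `FHy` (the fixed factor, 120 lines). PROOF. `Dlt a ≠ 0` (`Cur.inj`). `s` is monic, squarefree and prime to `Dlt a`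
(definition of `Sml`), `d` is squarefree (`Tam.sqf`) and its irreducible divisors divide `Dlt a`; so `d` and `s` are
coprime (an irreducible common divisor would divide `Dlt a` and `s`) and `d * s` is squarefree (`squarefree_mul_iff` or
similar). An irreducible `P` dividing `Dlt a` does not divide `s`, so `multiplicity P (d * s) = multiplicity P d`
(`multiplicity_mul` with `multiplicity P s = 0`) and `Hy.tame` is `Tam.odd`. `natDegree_mul` (`d ≠ 0`, `s ≠ 0`). The last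
claim: see `mxd_eq` in `Sm/Out.lean` (copy it). -/
def S_FHy : Prop :=
  ∀ (F : Type) [Field F] [Finite F] (a : Fin 3 → F[X]), Cur a → ∀ d ∈ tm0 a, ∀ h n : ℕ,
    ∀ s ∈ Sml F (Dlt a) h n, HD.Hy a (d * s) ∧ (d * s).natDegree = d.natDegree + s.natDegree ∧
      HD.mxd a = mxd a

/-- Module `FSok` (the fixed places, 200 lines). `S_FHy → S_FSok`. PROOF. Let `w ∈ S`, `w ≠ none`: `w = some P`, `P ∣ d * s * Dlt a`
(`Sok`, `HD.bad`), so `P ∣ Dlt a` or `P ∣ s` (a divisor of `d` divides `Dlt a`, definition of `tm0`). In the first case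
`natDegree P ≤ natDegree (Dlt a) < h` (`natDegree_le_of_dvd`), in the second `natDegree P < h` (definition of `Sml`). This is
(1); for `w = none`: `pq none = 1`, `dgP none = 1 ≤ h`. (2), (3): General remark: if `f ≠ 0` and `T` is a finite set of monic
irreducible divisors of `f` then `∏ P ∈ T, P ∣ f` (`Finset.prod_dvd_of_coprime`; different monic irreducible polynomials
are coprime), so `∑ P ∈ T, natDegree P ≤ natDegree f`, and `#T ≤ natDegree f` as the degrees are at least `1`. Apply this to the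
divisors of `Dlt a` and to those of `s`; the number of the monic irreducible divisors of `s` is `om 1 h s` (they have degrees in
`[1, h)`; `om` is the sum over the degrees, `MP72e2e6.irr F k` are the monic irreducible polynomials of degree `k`, `mem_irr`).
(4) For `k ≥ h` no element of `S` is in `SF.Irs F k` (the set of the `some P` with `natDegree P = k`), by (1). (5) For `k ≥ h`
the map `P ↦ some ⟨P, _⟩` is a bijection of `MP72e2e6.irr F k` with `SF.Irs F k`. -/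
def S_FSok : Prop :=
  ∀ (F : Type) [Field F] [Finite F] (a : Fin 3 → F[X]), Cur a → ∀ d ∈ tm0 a, ∀ h n : ℕ,
    (Dlt a).natDegree < h → ∀ s ∈ Sml F (Dlt a) h n, ∀ S : Finset (D.Pl F),
    HD.Sok a (d * s) S →
    (∀ w ∈ S, (Lv.pq w).natDegree < h ∧ dgP (D.Pl.o w) ≤ h) ∧
    (open Classical in #(S.erase none) ≤ (Dlt a).natDegree + om 1 h s) ∧
    (open Classical in ∑ w ∈ S.erase none, (Lv.pq w).natDegree ≤
      (Dlt a).natDegree + s.natDegree) ∧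
    ((∀ n w, w ∈ HD.irr F S n ↔ w ∈ SF.Irs F n ∧ w ∉ S) → ∀ k, h ≤ k →
      (HD.irr F S k : Set (D.Pl F)) = SF.Irs F k ∧ #(HD.irr F S k) = #(MP72e2e6.irr F k))

/-- Module `FNum` (the numerical estimates, 200 lines). PROOF. Let `k = t + r + 2`, `B = L₀ + 3 * δ + 73`,
`A = (A₀ + 1) * (δ + 1) + 4 * (A₀ + 1) ^ (δ + 1) + 4 * B + E + C₀ + (8 * (C₀ + 1)) ^ B ^ E + 2`. Note that `n ≥ n' i ≥ h ≥ 4`. (1), (2):
clear, `k ≥ 1`; `3 * (δ + 1 + t + (r + 1)) + 70 = 3 * (δ + k) + 70`. (3) By `FrN.big` `q ^ n' i ≥ q ^ h ≥ (n ^ 2 * A ^ k) ^ A ≥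
n ^ 2 * 2 ^ (k * A) ≥ (2 * n) * 2 ^ (4 * B * k)`. (4) Let `M = (B * k) ^ E = B ^ E * k ^ E ≥ 1`. `1 + M * n ≤ 2 * 2 ^ M * n`, so the base is
at most `n * (C₀ * 2 * 4 ^ M) ≤ n * (8 * (C₀ + 1)) ^ M = n * ((8 * (C₀ + 1)) ^ B ^ E) ^ k ^ E ≤ n * A ^ k ^ A`; `C₀ ≤ A` and `FrN.hug`. (5)
`A₀ * (δ + t + 1) ≤ A₀ * (δ + 1) * (t + 1) ≤ A * (t + 1) ≤ r + 1` (`FrN.rat`). (6) `A₀ ^ (δ + k) ≤ (A₀ + 1) ^ ((δ + 1) * k)`, so
the base is at most `n ^ 2 * (4 * (A₀ + 1) ^ (δ + 1)) ^ k ≤ n ^ 2 * A ^ k`, and `2 ≤ A`; `FrN.big`. -/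
def S_FNum : Prop :=
  ∀ C₀ E L₀ A₀ δ : ℕ, ∃ A B : ℕ, ∀ (q t r n h : ℕ) (n' : Fin (r + 1) → ℕ), 2 ≤ q →
    (∀ i, n' i ≤ n) → FrN q A t r n h n' →
    L₀ ≤ B * (t + r + 2) ∧ 3 * (δ + 1 + t + (r + 1)) + 70 ≤ B * (t + r + 2) ∧
    (∀ i, 2 ^ (4 * (B * (t + r + 2))) * (2 * n' i) ≤ q ^ n' i) ∧
    (C₀ * (2 ^ (B * (t + r + 2)) ^ E * (1 + (B * (t + r + 2)) ^ E * n))) ^ C₀ ≤
      q ^ n' (Fin.last r) ∧
    A₀ * (δ + t + 1) ≤ r + 1 ∧ ((2 * n) ^ 2 * A₀ ^ (δ + t + (r + 1) + 1)) ^ 2 ≤ q ^ h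

/-- Module `FFru` (the size conditions of block NG, 100 lines). `S_FSok → S_FFru`. PROOF. `DD.S = S`, `DD.inf = none`;
`TT D` is in bijection with `S.erase none`, so `card (TT D) ≤ natDegree (Dlt a) + om 1 h s` and
`∑ v : TT D, natDegree (pq v) ≤ natDegree (Dlt a) + natDegree s` by `FSok`. `tot`: `natDegree (Dlt a) < h ≤ n' 0 ≤ n`. `rat`, `big`: monotone. -/
def S_FFru : Prop :=
  ∀ (F : Type) [Field F] [Finite F] (a : Fin 3 → F[X]) (d : F[X]) (n h : ℕ) (s : F[X])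
    (S : Finset (D.Pl F)) (r : ℕ) (n' : Fin (r + 1) → ℕ), Fra a d n h s S r n' →
    ∀ (u : F) (A : D.Pl F → D.Lcd F) (A₀ : ℕ),
    A₀ * ((Dlt a).natDegree + om 1 h s + 1) ≤ r + 1 →
    ((2 * n) ^ 2 * A₀ ^ ((Dlt a).natDegree + om 1 h s + (r + 1) + 1)) ^ 2 ≤ Nat.card F ^ h →
    LvU.FrU (HD.DD F a (d * s) u S A) Lv.pq A₀ (r + 1) n' h (2 * n)

/-- Module `FSzc` (the size conditions of the core, 200 lines). `HD.S_Irf → HD.S_Okt → Lv.S_Nir → S_FHy → S_FSok → S_FSzc`. PROOF.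
`Adm a (d * s) r n'` by `FHy` and `Fra.sum`, `Fra.par`. `card`: `D.J (Fin (r + 1)) = {v // v ∈ S} ⊕ Fin (r + 1)`, `#S ≤ #(S.erase none) + 1`
and `FSok`. `big`: `#(HD.irr F S (n' i)) = #(MP72e2e6.irr F (n' i))` (`FSok` (4) with `HD.S_Irf`), `q ^ k ≤ 2 k #(irr F k)` (`Lv.S_Nir`),
`n' i > 0`. `ok`: `HD.S_Okt`. `nS`: `HD.S_Irf`. `few`: let `#A' ≤ L ^ E`, `H` normal and open, `H.index ≤ 2 ^ L ^ E` and `tau v ∈ H` for
`v ∉ A'`. All `w ∈ A'` have `dgP w.o ≤ n` (for `w ∈ S`: `≤ h ≤ n` by `FSok`; for `w ∈ HD.irr F S (n' i)`: `= n' i ≤ n`), so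
`∑ w ∈ A', dgP w.o ≤ L ^ E * n`, and the hypothesis on `C₀` applies to `H`, `A'` and `n' (last)`; `HD.irr F S (n' last)` is
`SF.Irs F (n' last)` (see the case `spl` in `Sm/H/Lv.lean`). -/
def S_FSzc : Prop :=
  ∀ (F : Type) [Field F] [Finite F] (a : Fin 3 → F[X]) (d : F[X]) (n h : ℕ) (s : F[X])
    (S : Finset (D.Pl F)) (r : ℕ) (n' : Fin (r + 1) → ℕ), Fra a d n h s S r n' →
    ∀ (u : F) (A : D.Pl F → D.Lcd F), (¬ ∃ b, b ^ 2 = u) → D.LDok F A → ∀ C₀ : ℕ,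
    (∀ H : Subgroup (D.GQ F), H.Normal → IsOpen (H : Set (D.GQ F)) →
      ∀ T : Finset (D.Pl F), (∀ w, w ∉ T → (A w).rQ (A w).t ∈ H) → ∀ m,
      (C₀ * (H.index * (1 + ∑ w ∈ T, dgP (D.Pl.o w)))) ^ C₀ ≤ Nat.card F ^ m →
      {w ∈ SF.Irs F m | (A w).rQ (A w).f ∈ H}.ncard * H.relIndex (SF.Gb F) ≤
        2 * (SF.Irs F m).ncard) →
    ∀ E L : ℕ, 3 * ((Dlt a).natDegree + 1 + om 1 h s + (r + 1)) + 70 ≤ L →
    (∀ i, 2 ^ (4 * L) * (2 * n' i) ≤ Nat.card F ^ n' i) →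
    (C₀ * (2 ^ L ^ E * (1 + L ^ E * n))) ^ C₀ ≤ Nat.card F ^ n' (Fin.last r) →
    (HD.DD F a (d * s) u S A).Szc (SF.Gb F) E L (Fin.last r) fun i => HD.irr F S (n' i)

/-- Module `FTop` (from the groups `Dk` to the twists, 150 lines). `HD.S_Irf → HD.S_Cnc → S_FHy → S_FSok → S_FTop`. PROOF. (1)
`tpl F n'` is a subset of `piFinset (irr F (n' i))`, and `FSok` (4). (2) As in `Sm/H/FinT.lean` (`finMp`, `fin_lift`, `fin_inj`): the map
`z ↦ (the polynomials of z)` is injective on the tuples of places `≠ none`, it maps `tup` into `tpl F n'`; for `z = some ∘ R` with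
`Dk z Lf = T` `HD.S_Cnc` (for `d * s`, `Adm a (d * s) r n'` by `FHy`) gives `Finite` and `ShaTwoFin` for
`C.Wa fun i => algebraMap (d * s * ∏ R k * a i)`, and `d * s * ∏ R k = d * (s * ∏ R k)` (`mul_assoc`); `MP72Y.shaTwoFin_of` as in
`Sm/Out.lean`. -/
def S_FTop : Prop :=
  ∀ (F : Type) [Field F] [Finite F] (a : Fin 3 → F[X]) (d : F[X]) (n h : ℕ) (s : F[X])
    (S : Finset (D.Pl F)) (r : ℕ) (n' : Fin (r + 1) → ℕ), Fra a d n h s S r n' →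
    ∀ (u : F) (A : D.Pl F → D.Lcd F), (¬ ∃ b, b ^ 2 = u) → D.LDok F A → ∀ Lf : ℕ, 1 ≤ Lf →
    #(tpl F n') ≤ ∏ i, #(HD.irr F S (n' i)) ∧
    {z ∈ tup fun i => HD.irr F S (n' i) | (HD.DD F a (d * s) u S A).Dk z Lf =
      (HD.DD F a (d * s) u S A).T (Fin (r + 1))}.ncard ≤
      {z ∈ (tpl F n' : Set (Fin (r + 1) → F[X])) |
        Finite (twd a (d * (s * ∏ i, z i))).toAffine.Point ∧
          MP72Y.ShaTwoFin (twd a (d * (s * ∏ i, z i))) (SeparableClosure (RatFunc F))}.ncard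

/-- Module `FFrm` (THE INTERFACE, 250 lines). `D.S_Lo → D.S_Rq → D.S_Kk → S_VEnd → LvU.S_Lg1U → LvU.S_Lg2aU → LvU.S_Lg2U → Lv.S_Lg3 →
SF.S_SplI → HD.S_Ax → HD.S_Ax3 → HD.S_Irf → HD.S_Okt → HD.S_Cm → Lv.S_Tmc → Lv.S_Irc → Lv.S_Ari → S_FHy → S_FNum → S_FFru →
S_FSzc → S_FTop → S_FFrm`. PROOF. `A` (local data) from `D.S_Lo`. Let `ε' = ε / 6`. `C`, `A₁` from `Lg1U`; `Lf` from `VEnd` for `C`, `ε'`; `K`,
`A₂` from `Lg2aU` for `ε'`, `A₃` from `Lg2U` for `Lf`, `ε'`; `E`, `L₀` from `VEnd` for the exponent `K` (`K ≤ 2 ^ K`); `C₀` from `SF.S_SplI`;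
`A`, `B` from `FNum` for `C₀`, `E`, `L₀`, `A₀ = A₁ + A₂ + A₃`, `δ = natDegree (Dlt a)`. This `A` is the one of the claim. Given a frame, `Sok`
and `u` from `HD.S_Irf` (`Hy a (d * s)` by `FHy`), `Fra`, and the estimates of `FNum` with `t = om 1 h s`, `L = B * (t + r + 2)`. `FrU` for
`A₀` by `FFru`, and `FrU` for `A₀` implies `FrU` for `A₁`, `A₂`, `A₃ ≤ A₀`. All `z ∈ tup` are `Ok` and `Tms` (`HD.S_Okt`, `Lv.S_Tmc`);
`4 ∣ q - 1`. `Lg1U`, `Lg2aU` (`2 ^ K < #(Dk z 1)` implies `K ≤ #(Dk z 1)`; the sums are over finite sets), `Lg2U` (`b = Fin.last r`, `Ird` by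
`Lv.S_Irc`) and `Lv.S_Lg3` give the hypotheses of `VEnd`; `Szc` by `FSzc`; `tau`, `com` as in `Sm/H/Lv.lean` (`D.S_Rq`, `D.S_Kk`,
`HD.S_Cm`). Conclusion by `FTop`: if `ε ≤ 1` then `(1 - ε) #(tpl) ≤ (1 - ε) ∏ #(irr)`, otherwise the left side is at most `0`. -/
def S_FFrm : Prop := Ns.S_FrmN

end Pool.Agent.MP72S.Frm
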