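import Pool.Agent.Lib.MP_72e2e6_nt.Sm.Br.Spec

/-!
# MP_72e2e6_nt, `Sm/N`: the core with families of types (for natural density), definitions

The number of the primes goes to infinity, so the types on a cube are no longer constant: they are
families `t : (ι → P) → D.J ι → N`, where only the coordinates in a bounded set `Ξ` of recorded
indices are constant. `I₀` is a set of indices (the indices which may vary, and the index `b` of the
last prime); an index `j` of a place is called fixed if it is not `inr i` with `i ∈ I₀`. The set `Ξ`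
contains `inr i` for `i ∈ I₀` and separates the homomorphisms to `V` which are unramified outside the
fixed places and satisfy the local conditions there (`Dat.Sep`).
-/

namespace Pool.Agent.MP72S

open Finset

/-- The completion of a family at the vertex `x` of a cube: the value for which the alternating sum
vanishes. -/
def cpl {P ι A : Type} [DecidableEq ι] [AddCommGroup A] (x y : ι → P) (U : Finset ι)
    (t : (ι → P) → A) : A :=
  -∑ w ∈ U.powerset.erase ∅, (-1 : ℤ) ^ #w • t (mx x y w)

section

variable {G N P : Type} [Group G] [TopologicalSpace G] [AddCommGroup N] [DistribMulAction G N]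
  (D : Dat G N P) {ι : Type} [Fintype ι] [DecidableEq ι]

/-- The index `j` is fixed (relative to `I₀`). -/
def Dat.Fx (I₀ : Finset ι) (j : D.J ι) : Prop := ∀ i ∈ I₀, j ≠ Sum.inr i

/-- `ν` is a homomorphism to `V`, unramified outside the fixed places, which satisfies the local
conditions at the fixed places. -/
structure Dat.IsW (x : ι → P) (I₀ : Finset ι) (ν : G → N) : Prop where
  ho : IsHo ν
  ur : ∀ v, v ∉ D.S → (∀ i, i ∉ I₀ → v ≠ x i) → ν (D.tau v) = 0
  lo : ∀ j, D.Fx I₀ j → ∃ Q : N, 4 • Q = 0 ∧ D.Lo x (D.pl x j) Q ν

/-- `Ξ` is a set of recorded indices. -/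
structure Dat.Sep (x : ι → P) (I₀ : Finset ι) (Ξ : Finset (D.J ι)) : Prop where
  sub : ∀ i ∈ I₀, Sum.inr i ∈ Ξ
  sep : ∀ ν : G → N, D.IsW x I₀ ν →
    (∀ j ∈ Ξ, D.Fx I₀ j → ν (D.tau (D.pl x j)) = 0 ∧ ν (D.phi (D.pl x j)) = 0) → ∀ σ, ν σ = 0

/-- The face functions of a cube with a family `t`: `F U` is the alternating sum of the cocycles of
type `2 ^ (#I - #U) t` over the face `U`. -/
noncomputable def Dat.vfc (x y : ι → P) (I : Finset ι) (t : (ι → P) → D.J ι → N) (U : Finset ι)
    (σ : G) : N :=
  alt x y U fun z => D.coc z (2 ^ (#I - #U) • t z) σ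

end

end Pool.Agent.MP72S
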