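import Pool.Agent.Lib.MP_72e2e6_nt.Sm.N.SpecF

set_option autoImplicit false

namespace Pool.Agent.MP72S.Frm

open Finset Polynomial Pool.Agent.MP72W MP72T Pool.Agent.MP72S.Ns

private theorem fhy_mxd {F : Type} [Field F] (a : Fin 3 → F[X]) : HD.mxd a = mxd a := by
  have h10 : (a 1 - a 0).natDegree = (a 0 - a 1).natDegree := by
    rw [← neg_sub, natDegree_neg]
  have h20 : (a 2 - a 0).natDegree = (a 0 - a 2).natDegree := by
    rw [← neg_sub, natDegree_neg]
  have h21 : (a 2 - a 1).natDegree = (a 1 - a 2).natDegree := by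
    rw [← neg_sub, natDegree_neg]
  have h3 : ∀ f : Fin 3 → ℕ, (Finset.univ.sup f) = max (f 0) (max (f 1) (f 2)) := by
    intro f
    have hu : (Finset.univ : Finset (Fin 3)) = {0, 1, 2} := rfl
    rw [hu, Finset.sup_insert, Finset.sup_insert, Finset.sup_singleton]
  unfold HD.mxd mxd
  rw [h3]
  simp only [h3, sub_self, natDegree_zero, h10, h20, h21]
  omega

theorem tFHy : S_FHy := by
  intro F _ _ a ha d hd h n s hs
  classical
  obtain ⟨htam, hdiv⟩ := hd
  have hs' : Squarefree s ∧ IsCoprime s (Dlt a) := by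
    unfold Sml at hs
    rw [Finset.mem_biUnion] at hs
    obtain ⟨k, _, hk⟩ := hs
    rw [Finset.mem_filter] at hk
    exact ⟨hk.2.1, hk.2.2.1⟩
  obtain ⟨hsq, hcop⟩ := hs'
  have hd0 : d ≠ 0 := htam.sqf.ne_zero
  have hs0 : s ≠ 0 := hsq.ne_zero
  -- irreducible divisors of `Dlt a` do not divide `s`
  have hnd : ∀ P : F[X], Irreducible P → P ∣ Dlt a → ¬ P ∣ s := by
    intro P hP h1 h2
    exact hP.not_isUnit (hcop.isUnit_of_dvd' h2 h1)
  have hds : IsRelPrime d s := by
    apply IsCoprime.isRelPrime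
    refine isCoprime_of_irreducible_dvd (fun h => hd0 h.1) ?_
    intro P hP h1 h2
    exact hnd P hP (hdiv P hP h1) h2
  have hsqf : Squarefree (d * s) := squarefree_mul_iff.2 ⟨hds, htam.sqf, hsq⟩
  refine ⟨⟨ha.q4, ha.inj, ha.nis, hsqf, ?_⟩, natDegree_mul hd0 hs0, fhy_mxd a⟩
  intro P hP hPd i
  obtain ⟨j, hj, hodd⟩ := htam.odd P hP hPd i
  refine ⟨j, hj, ?_⟩
  have hfin : FiniteMultiplicity P (d * s) :=
    FiniteMultiplicity.of_not_isUnit hP.not_isUnit (mul_ne_zero hd0 hs0)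
  have h0 : multiplicity P s = 0 := multiplicity_eq_zero.2 (hnd P hP hPd)
  rw [multiplicity_mul hP.prime hfin, h0, add_zero]
  exact hodd

end Pool.Agent.MP72S.Frm
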