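import Pool.Agent.Lib.MP_72e2e6_nt.Sm.N.SpecC

namespace Pool.Agent.Lib.MP_72e2e6_nt.Sm.Cnt

open Finset

private theorem min2_lim (B : ℝ) (k : ℕ) : ∃ L₀ : ℕ, ∀ L, L₀ ≤ L → B * (L : ℝ) ^ k ≤ 2 ^ L := by
  have h1 : Filter.Tendsto (fun L : ℕ => (L : ℝ) ^ k / (2 : ℝ) ^ L) Filter.atTop (nhds 0) :=
    tendsto_pow_const_div_const_pow_of_one_lt k (by norm_num)
  have h2 : ∀ᶠ L : ℕ in Filter.atTop, (L : ℝ) ^ k / (2 : ℝ) ^ L < 1 / (|B| + 1) :=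
    h1.eventually_lt_const (by positivity)
  obtain ⟨L₀, hL₀⟩ := h2.exists_forall_of_atTop
  refine ⟨L₀, fun L hL => ?_⟩
  have h3 := hL₀ L hL
  have h4 : (0 : ℝ) < 2 ^ L := by positivity
  have h5 : (0 : ℝ) < |B| + 1 := by positivity
  rw [div_lt_div_iff₀ h4 h5, one_mul] at h3
  have h6 : B * (L : ℝ) ^ k ≤ (|B| + 1) * (L : ℝ) ^ k :=
    mul_le_mul_of_nonneg_right (by linarith [le_abs_self B]) (by positivity)
  linarith

theorem tMin2 (h1 : S_Cod2) : S_Min2 := by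
  classical
  intro K t e hK
  obtain ⟨A, L₁, hA⟩ := h1 K t (e + 1) hK
  obtain ⟨L₂, hL₂⟩ := min2_lim ((K : ℝ) * (K + 1)) (2 * A + e + 3)
  refine ⟨A, L₁ + L₂ + 2, fun L hL => ?_⟩
  intro ι P β _ _ S T z y hι hS hT H
  obtain ⟨hpos, hcod⟩ := hA L (by omega)
  have hL2 : (2 : ℝ) ≤ L := by
    have : 2 ≤ L := by omega
    exact_mod_cast this
  have hL1 : (1 : ℝ) ≤ L := by linarith
  have hLp : (0 : ℝ) < L := by linarith
  have hKr : (1 : ℝ) ≤ K := by exact_mod_cast hK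
  have h := average hpos S T z y (15 / 16) (1 / (L : ℝ) ^ (e + 1)) (by norm_num) (by positivity)
    ?_ ?_
  · refine h.trans ?_
    have h2 : 2 * (1 / (L : ℝ) ^ (e + 1)) ≤ 1 / (L : ℝ) ^ e := by
      rw [pow_succ, mul_one_div, div_le_div_iff₀ (by positivity) (by positivity)]
      have : (0 : ℝ) < (L : ℝ) ^ e := by positivity
      nlinarith
    gcongr
  · intro i
    rw [hι]
    have h3 := hL₂ L (by omega)
    have h4 : (2 : ℝ) ^ L ≤ #(S i) := by exact_mod_cast hS i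
    have h5 : (#T : ℝ) ≤ (L : ℝ) ^ 2 := by exact_mod_cast hT
    have h6 : (1 : ℝ) ≤ (L : ℝ) ^ A := one_le_pow₀ hL1
    have h7 : (1 : ℝ) ≤ (L : ℝ) ^ 2 := one_le_pow₀ hL1
    rw [one_div, inv_mul_eq_div, le_div_iff₀ (by positivity)]
    push_cast
    calc (K : ℝ) * (L : ℝ) ^ A * ((K : ℝ) * (L : ℝ) ^ A + (#T : ℝ)) * (L : ℝ) ^ (e + 1)
        ≤ (K : ℝ) * (L : ℝ) ^ A * (((K : ℝ) + 1) * ((L : ℝ) ^ A * (L : ℝ) ^ 2)) *
          (L : ℝ) ^ (e + 1) := by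
          have h8 : (K : ℝ) * (L : ℝ) ^ A + (#T : ℝ) ≤ ((K : ℝ) + 1) * ((L : ℝ) ^ A * (L : ℝ) ^ 2) := by
            have h9 : (K : ℝ) * (L : ℝ) ^ A ≤ (K : ℝ) * ((L : ℝ) ^ A * (L : ℝ) ^ 2) := by
              have : (L : ℝ) ^ A ≤ (L : ℝ) ^ A * (L : ℝ) ^ 2 := le_mul_of_one_le_right (by positivity) h7
              gcongr
            have h10 : (#T : ℝ) ≤ (L : ℝ) ^ A * (L : ℝ) ^ 2 :=
              h5.trans (le_mul_of_one_le_left (by positivity) h6)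
            linarith
          gcongr
      _ = (K : ℝ) * ((K : ℝ) + 1) * (L : ℝ) ^ (2 * A + e + 3) := by ring
      _ ≤ 2 ^ L := h3
      _ ≤ #(S i) := h4
  · intro e' he hinj heT
    obtain ⟨𝒜, T1, T2, V, i1, i2, i3, i4, C0, C, h1, h2, h3, h4, hZ, hY⟩ := H e' he hinj heT
    have h5 := hcod C hι h1 h2 h3 h4
    have hZc : ∀ b, (#(C.Z b) : ℝ) =
        (Nat.card {w : ι → Fin (L ^ A) // z (fun i => e' (i, w i)) b} : ℝ) := by
      intro b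
      rw [Nat.subtype_card (C.Z b) (fun w => hZ b w)]
    have hYc : ∀ b, (#(C.Y b) : ℝ) =
        (Nat.card {w : ι → Fin (L ^ A) // y (fun i => e' (i, w i)) b} : ℝ) := by
      intro b
      rw [Nat.subtype_card (C.Y b) (fun w => hY b w)]
    simp only [hZc, hYc] at h5
    rw [hι]
    exact h5

end Pool.Agent.Lib.MP_72e2e6_nt.Sm.Cnt
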