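import Pool.Agent.Lib.MP_72e2e6_nt.Sm.N.SpecD

/-!
# MP_72e2e6_nt, `Sm/N`: module `VNst` (the number of the states of a cell)
-/

namespace Pool.Agent.MP72S

open Finset

/-- A set is finite and small if its image and the fibres are. -/
private theorem VNst_fib {α β : Type} (s : Set α) (f : α → β) (A : Set β) (hA : A.Finite) (n m : ℕ)
    (hm : A.ncard ≤ m) (hs : ∀ a ∈ s, f a ∈ A)
    (hf : ∀ b, {a ∈ s | f a = b}.Finite ∧ {a ∈ s | f a = b}.ncard ≤ n) :
    s.Finite ∧ s.ncard ≤ m * n := by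
  classical
  have himg : f '' s ⊆ A := by
    rintro _ ⟨a, ha, rfl⟩
    exact hs a ha
  have hfin : s.Finite := by
    refine Set.Finite.of_finite_fibers f (hA.subset himg) fun x _ => ?_
    refine (hf x).1.subset ?_
    rintro a ⟨h1, h2⟩
    exact ⟨h1, h2⟩
  refine ⟨hfin, ?_⟩
  have h1 := Finset.card_le_mul_card_image (f := f) hfin.toFinset n (by
    intro b _
    have h2 : ((hfin.toFinset.filter fun a => f a = b : Finset α) : Set α) =
        {a ∈ s | f a = b} := by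
      ext a
      simp
    rw [← Set.ncard_coe_finset, h2]
    exact (hf b).2)
  have h3 : #(hfin.toFinset.image f) ≤ m := by
    refine le_trans ?_ hm
    rw [← Set.ncard_coe_finset]
    refine Set.ncard_le_ncard ?_ hA
    intro b hb
    simp only [coe_image, Set.Finite.coe_toFinset] at hb
    exact himg hb
  calc s.ncard = #(hfin.toFinset) := by rw [Set.ncard_eq_toFinset_card s hfin]
    _ ≤ n * #(hfin.toFinset.image f) := h1
    _ ≤ n * m := Nat.mul_le_mul_left _ h3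
    _ = m * n := mul_comm _ _

/-- The fibre. -/
private theorem VNst_fb {A : Type} {Sg : Type} [AddCommGroup A] (σ : Sg) (Lam : AddSubgroup A)
    [Finite Lam] (d : ℕ) (hd : Nat.card Lam ≤ 2 ^ d)
    (s : Set ((Sg × AddSubgroup A × Set (A → ZMod 2)) × A))
    (hs : ∀ q ∈ s, q.1.1 = σ ∧ q.1.2.1 ≤ Lam ∧ (∀ g ∈ q.1.2.2, ∀ ν, ν ∉ Lam → g ν = 0) ∧
      q.2 ∈ q.1.2.1) : s.Finite ∧ s.ncard ≤ 2 ^ 2 ^ d * (2 ^ 2 ^ 2 ^ d * 2 ^ d) := by
  classical
  let ex : (Lam → ZMod 2) → A → ZMod 2 := fun h ν => if hν : ν ∈ Lam then h ⟨ν, hν⟩ else 0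
  let F : ((Sg × AddSubgroup A × Set (A → ZMod 2)) × A) →
      Set Lam × Set (Lam → ZMod 2) × Lam := fun q =>
    ({ν | ν.1 ∈ q.1.2.1}, {h | ex h ∈ q.1.2.2}, if h : q.2 ∈ Lam then ⟨q.2, h⟩ else 0)
  have hex : ∀ g : A → ZMod 2, (∀ ν, ν ∉ Lam → g ν = 0) → ex (fun ν => g ν.1) = g := by
    intro g hg
    funext ν
    by_cases hν : ν ∈ Lam
    · simp only [ex, dif_pos hν]
    · simp only [ex, dif_neg hν]
      exact (hg ν hν).symm
  have hinj : Set.InjOn F s := by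
    intro q hq q' hq' hF
    obtain ⟨h1, h2, h3, h4⟩ := hs q hq
    obtain ⟨h1', h2', h3', h4'⟩ := hs q' hq'
    obtain ⟨hFa, hFb⟩ := Prod.mk.inj hF
    obtain ⟨hFb, hFc⟩ := Prod.mk.inj hFb
    have hsub : q.1.2.1 = q'.1.2.1 := by
      ext ν
      constructor
      · intro hν
        have : (⟨ν, h2 hν⟩ : Lam) ∈ {ν : Lam | ν.1 ∈ q.1.2.1} := hν
        rw [hFa] at this
        exact this
      · intro hν
        have : (⟨ν, h2' hν⟩ : Lam) ∈ {ν : Lam | ν.1 ∈ q'.1.2.1} := hν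
        rw [← hFa] at this
        exact this
    have hset : q.1.2.2 = q'.1.2.2 := by
      ext g
      constructor
      · intro hg
        have h5 : (fun ν : Lam => g ν.1) ∈ {h : Lam → ZMod 2 | ex h ∈ q.1.2.2} := by
          change ex (fun ν => g ν.1) ∈ q.1.2.2
          rw [hex g (h3 g hg)]
          exact hg
        rw [hFb] at h5
        have h6 : ex (fun ν => g ν.1) ∈ q'.1.2.2 := h5
        rwa [hex g (h3 g hg)] at h6
      · intro hg
        have h5 : (fun ν : Lam => g ν.1) ∈ {h : Lam → ZMod 2 | ex h ∈ q'.1.2.2} := by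
          change ex (fun ν => g ν.1) ∈ q'.1.2.2
          rw [hex g (h3' g hg)]
          exact hg
        rw [← hFb] at h5
        have h6 : ex (fun ν => g ν.1) ∈ q.1.2.2 := h5
        rwa [hex g (h3' g hg)] at h6
    have hel : q.2 = q'.2 := by
      rw [dif_pos (h2 h4), dif_pos (h2' h4')] at hFc
      exact congrArg Subtype.val hFc
    exact Prod.ext (Prod.ext (h1.trans h1'.symm) (Prod.ext hsub hset)) hel
  have hfin : s.Finite := Set.Finite.of_finite_image (Set.toFinite _) hinj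
  refine ⟨hfin, ?_⟩
  rw [← hinj.ncard_image]
  have hc1 : Nat.card (Set Lam) ≤ 2 ^ 2 ^ d := by
    have : Nat.card (Set Lam) = 2 ^ Nat.card Lam := by
      have := Fintype.ofFinite Lam
      rw [Nat.card_eq_fintype_card, Nat.card_eq_fintype_card, Fintype.card_set]
    rw [this]
    exact Nat.pow_le_pow_right (by norm_num) hd
  have hc2 : Nat.card (Set (Lam → ZMod 2)) ≤ 2 ^ 2 ^ 2 ^ d := by
    have : Nat.card (Set (Lam → ZMod 2)) = 2 ^ 2 ^ Nat.card Lam := by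
      have := Fintype.ofFinite Lam
      rw [Nat.card_eq_fintype_card, Nat.card_eq_fintype_card, Fintype.card_set, Fintype.card_fun,
        ZMod.card]
    rw [this]
    exact Nat.pow_le_pow_right (by norm_num) (Nat.pow_le_pow_right (by norm_num) hd)
  calc (F '' s).ncard ≤ (Set.univ : Set (Set Lam × Set (Lam → ZMod 2) × Lam)).ncard :=
        Set.ncard_le_ncard (Set.subset_univ _) Set.finite_univ
    _ = Nat.card (Set Lam) * (Nat.card (Set (Lam → ZMod 2)) * Nat.card Lam) := by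
        rw [Set.ncard_univ, Nat.card_prod, Nat.card_prod]
    _ ≤ 2 ^ 2 ^ d * (2 ^ 2 ^ 2 ^ d * 2 ^ d) :=
        Nat.mul_le_mul hc1 (Nat.mul_le_mul hc2 hd)

theorem tVNst : S_VSyc → S_Sy1 → S_Dk1 → S_VNst := by
  intro hSyc hSy1 hDk1 G N P ι _ _ _ _ _ _ D hax I₀ z₀ hz₀ K d hK hI
  obtain ⟨hAf, hAc⟩ := hSyc D hax I₀ z₀ hz₀
  rw [hI] at hAc
  rw [nst]
  obtain ⟨-, -, -, hDle, hDfin, -⟩ := hDk1 (ι := ι) D hax
  refine VNst_fib _ (fun q : D.ST ι × (D.J ι → N) => q.1.1) _ hAf _ _ hAc ?_ ?_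
  · rintro q ⟨z, h1, h2, h3, h4, h5, h6⟩
    exact ⟨z, h1, h2, h3, h5.1⟩
  · intro σ
    by_cases hne : ∃ z : ι → P, D.Ok z ∧ Nat.card (D.Dk z 1) ≤ 2 ^ d ∧ D.Sy z = σ
    · obtain ⟨z₁, hz₁, hc₁, hσ₁⟩ := hne
      have : Finite (D.Dk z₁ 1) := hDfin z₁ 1 le_rfl
      refine VNst_fb σ (D.Dk z₁ 1) d hc₁ _ ?_
      rintro q ⟨⟨z, h1, h2, h3, h4, h5, h6⟩, h7⟩
      have h7' : q.1.1 = σ := h7
      have hDD : D.Dk z 1 = D.Dk z₁ 1 := by
        refine (hSy1 D hax z z₁ h1 hz₁ ?_).1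
        rw [h5.1, h7', hσ₁]
      refine ⟨h7', ?_, ?_, h6⟩
      · rw [← h5.2.1, ← hDD]
        exact hDle z K hK
      · intro g hg ν hν
        rw [← h5.2.2] at hg
        obtain ⟨ξ, η, -, -, -, h8⟩ := hg
        exact h8 ν (by rw [hDD]; exact hν)
    · have hem : {a : D.ST ι × (D.J ι → N) | a ∈ {q : D.ST ι × (D.J ι → N) | ∃ z : ι → P,
          D.Ok z ∧ (∀ i, i ∉ I₀ → z i = z₀ i) ∧
          (∀ i ∈ I₀, D.kap I₀ z₀ (z i) = D.kap I₀ z₀ (z₀ i)) ∧ Nat.card (D.Dk z 1) ≤ 2 ^ d ∧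
          D.IsSt K z q.1 ∧ q.2 ∈ q.1.2.1} ∧ a.1.1 = σ} = ∅ := by
        rw [Set.eq_empty_iff_forall_notMem]
        rintro q ⟨⟨z, h1, h2, h3, h4, h5, h6⟩, h7⟩
        exact hne ⟨z, h1, h4, h5.1.trans h7⟩
      rw [hem]
      exact ⟨Set.finite_empty, by rw [Set.ncard_empty]; exact Nat.zero_le _⟩

end Pool.Agent.MP72S
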